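import Pool.Agent.H623.TP.Rec
import Pool.Graph.R_seed8.H377R2.NK.GzAvg

/-!
# Entropy of the digits of the offsets of words, for all tilts
-/

set_option autoImplicit false
set_option linter.unusedVariables false

namespace Pool.Agent.H623.WP

open Finset Real Pool.Agent.H320R2.PD Pool.Agent.H377R2.NK Pool.Agent.H623.TP

/-- the entropy of three masses -/
noncomputable def h3 (a b c : ℝ) : ℝ :=
  negMulLog a + negMulLog b + negMulLog c - negMulLog (a + b + c)

theorem h3_smul (S a b c : ℝ) : h3 (S * a) (S * b) (S * c) = S * h3 a b c := by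
  unfold h3
  rw [← mul_add, ← mul_add, negMulLog_mul, negMulLog_mul, negMulLog_mul, negMulLog_mul]
  ring

theorem scale {S a b c : ℝ} (hS : S = a + b + c) (h : 0 < S) : h3 a b c = S * h3 (a / S) (b / S) (c / S) ∧
    F3 a b c = S * F3 (a / S) (b / S) (c / S) ∧ a / S + b / S + c / S = 1 := by
  have e : ∀ x : ℝ, S * (x / S) = x := fun x => by field_simp
  refine ⟨?_, ?_, ?_⟩
  · rw [← h3_smul, e, e, e]
  · rw [← F3_smul, e, e, e]
  · rw [← add_div, ← add_div, ← hS, div_self h.ne']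

theorem F3_one {a b c : ℝ} (h1 : a + b + c = 1) : F3 a b c = 1 - 3 * (a * b + b * c + c * a) := by
  unfold F3
  rw [h1, div_one]
  nlinarith [h1, congrArg (fun x => x * x) h1]

theorem up_aux {ε : ℝ} (hε : 0 < ε) (hε1 : ε ≤ 1) {a b c : ℝ} (ha : 0 ≤ a) (hb : 0 ≤ b) (hc : 0 ≤ c)
    (h1 : a + b + c = 1) (hab : b ≤ a) (hac : c ≤ a) :
    negMulLog a + negMulLog b + negMulLog c ≤ ε + (1 + log (2 / ε)) * (3 * (a * b + b * c + c * a)) := by
  have ha3 : 1 / 3 ≤ a := by linarith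
  have ha0 : 0 < a := by linarith
  have e1 : negMulLog a ≤ b + c := by
    have h2 := one_sub_inv_le_log_of_pos ha0
    have h3 := mul_le_mul_of_nonneg_left h2 ha
    have h4 : a * (1 - a⁻¹) = a - 1 := by field_simp
    rw [h4] at h3
    unfold negMulLog
    linarith
  have hR : 0 < 2 / ε := by positivity
  have e2 := nml_le hb hR
  have e3 := nml_le hc hR
  have e4 : 1 / (2 / ε) = ε / 2 := by field_simp
  rw [e4] at e2 e3
  have hl : 0 ≤ 1 + log (2 / ε) := by
    have : 0 ≤ log (2 / ε) := log_nonneg (by rw [le_div_iff₀ hε]; linarith)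
    linarith
  have e5 : b + c ≤ 3 * (a * b + b * c + c * a) := by nlinarith [mul_nonneg hb hc]
  have e6 := mul_le_mul_of_nonneg_left e5 hl
  nlinarith

theorem up_norm {ε : ℝ} (hε : 0 < ε) (hε1 : ε ≤ 1) {a b c : ℝ} (ha : 0 ≤ a) (hb : 0 ≤ b) (hc : 0 ≤ c)
    (h1 : a + b + c = 1) :
    h3 a b c ≤ ε + (1 + log (2 / ε)) * (1 - F3 a b c) := by
  have e : 1 - F3 a b c = 3 * (a * b + b * c + c * a) := by rw [F3_one h1]; ring
  rw [e]
  have e0 : h3 a b c = negMulLog a + negMulLog b + negMulLog c := by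
    unfold h3
    rw [h1, negMulLog_one, sub_zero]
  rw [e0]
  rcases le_total b a with h2 | h2
  · rcases le_total c a with h3 | h3
    · exact up_aux hε hε1 ha hb hc h1 h2 h3
    · have := up_aux hε hε1 hc ha hb (by linarith) h3 (h2.trans h3)
      have e2 : 3 * (c * a + a * b + b * c) = 3 * (a * b + b * c + c * a) := by ring
      rw [e2] at this
      linarith
  · rcases le_total c b with h3 | h3
    · have := up_aux hε hε1 hb hc ha (by linarith) h3 h2
      have e2 : 3 * (b * c + c * a + a * b) = 3 * (a * b + b * c + c * a) := by ring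
      rw [e2] at this
      linarith
    · have := up_aux hε hε1 hc ha hb (by linarith) (h2.trans h3) h3
      have e2 : 3 * (c * a + a * b + b * c) = 3 * (a * b + b * c + c * a) := by ring
      rw [e2] at this
      linarith

/-- a nearly concentrated digit has a small entropy -/
theorem h3_up {ε : ℝ} (hε : 0 < ε) (hε1 : ε ≤ 1) {a b c : ℝ} (ha : 0 ≤ a) (hb : 0 ≤ b) (hc : 0 ≤ c) :
    h3 a b c ≤ ε * (a + b + c) + (1 + log (2 / ε)) * ((a + b + c) - F3 a b c) := by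
  rcases eq_or_lt_of_le (add_nonneg (add_nonneg ha hb) hc) with h | h
  · have ha0 : a = 0 := by linarith
    have hb0 : b = 0 := by linarith
    have hc0 : c = 0 := by linarith
    subst ha0 hb0 hc0
    simp [h3, F3_zero]
  · obtain ⟨S, hS⟩ : ∃ S, S = a + b + c := ⟨_, rfl⟩
    rw [← hS] at h ⊢
    obtain ⟨e1, e2, e3⟩ := scale hS h
    rw [e1, e2]
    have h1 := up_norm hε hε1 (div_nonneg ha h.le) (div_nonneg hb h.le) (div_nonneg hc h.le) e3
    have h2 := mul_le_mul_of_nonneg_left h1 h.le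
    refine h2.trans (le_of_eq ?_)
    ring

theorem lo_norm {x y z : ℝ} (hx : 0 ≤ x) (hy : 0 ≤ y) (hz : 0 ≤ z) (h1 : x + y + z = 1) :
    log 3 - 2 * F3 x y z ≤ h3 x y z := by
  have key : ∀ x : ℝ, 0 ≤ x → log 3 * x - x * (3 * x - 1) ≤ negMulLog x := by
    intro x hx
    rcases eq_or_lt_of_le hx with h0 | h0
    · rw [← h0]; simp
    · have h4 := log_le_sub_one_of_pos (show 0 < 3 * x by positivity)
      rw [log_mul (by norm_num) h0.ne'] at h4
      have h5 := mul_le_mul_of_nonneg_left h4 hx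
      unfold negMulLog
      linarith
  have k1 := key x hx
  have k2 := key y hy
  have k3 := key z hz
  unfold h3
  rw [h1, negMulLog_one, sub_zero, F3_one h1]
  have e4 : z = 1 - x - y := by linarith
  subst e4
  have e5 : log 3 * x + log 3 * y + log 3 * (1 - x - y) = log 3 := by ring
  nlinarith

/-- a nearly uniform digit has nearly the full entropy -/
theorem h3_lo {a b c : ℝ} (ha : 0 ≤ a) (hb : 0 ≤ b) (hc : 0 ≤ c) :
    log 3 * (a + b + c) - 2 * F3 a b c ≤ h3 a b c := by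
  rcases eq_or_lt_of_le (add_nonneg (add_nonneg ha hb) hc) with h | h
  · have ha0 : a = 0 := by linarith
    have hb0 : b = 0 := by linarith
    have hc0 : c = 0 := by linarith
    subst ha0 hb0 hc0
    simp [h3, F3_zero]
  · obtain ⟨S, hS⟩ : ∃ S, S = a + b + c := ⟨_, rfl⟩
    rw [← hS] at h ⊢
    obtain ⟨e1, e2, e3⟩ := scale hS h
    rw [e1, e2]
    have h4 := lo_norm (div_nonneg ha h.le) (div_nonneg hb h.le) (div_nonneg hc h.le) e3
    have h5 := mul_le_mul_of_nonneg_left h4 h.le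
    refine le_trans (le_of_eq ?_) h5
    ring

theorem h3_nonneg {a b c : ℝ} (ha : 0 ≤ a) (hb : 0 ≤ b) (hc : 0 ≤ c) : 0 ≤ h3 a b c := by
  rcases eq_or_lt_of_le (add_nonneg (add_nonneg ha hb) hc) with h | h
  · have ha0 : a = 0 := by linarith
    have hb0 : b = 0 := by linarith
    have hc0 : c = 0 := by linarith
    subst ha0 hb0 hc0
    simp [h3]
  · obtain ⟨S, hS⟩ : ∃ S, S = a + b + c := ⟨_, rfl⟩
    rw [← hS] at h
    obtain ⟨e1, e2, e3⟩ := scale hS h
    rw [e1]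
    refine mul_nonneg h.le ?_
    unfold h3
    rw [e3, negMulLog_one, sub_zero]
    have p1 := div_nonneg ha h.le
    have p2 := div_nonneg hb h.le
    have p3 := div_nonneg hc h.le
    have k1 := negMulLog_nonneg p1 (by linarith)
    have k2 := negMulLog_nonneg p2 (by linarith)
    have k3 := negMulLog_nonneg p3 (by linarith)
    linarith

theorem h3_le {a b c : ℝ} (ha : 0 ≤ a) (hb : 0 ≤ b) (hc : 0 ≤ c) : h3 a b c ≤ log 3 * (a + b + c) := by
  have h1 := F3_sharp ha hb hc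
  have h2 := F3_nonneg ha hb hc
  unfold h3
  linarith

/-! ### entropy of the classes modulo `3 ^ M` -/

section
variable {ι : Type*} {s : Finset ι} {wt : ι → ℝ}

/-- the entropy of the class modulo `3 ^ M` -/
noncomputable def En (s : Finset ι) (wt : ι → ℝ) (v : ι → ℤ) (M : ℕ) : ℝ :=
  ∑ c ∈ range (3 ^ M), negMulLog (cnt s wt v M (c : ℤ)) - negMulLog (∑ i ∈ s, wt i)

theorem En_zero (v : ι → ℤ) : En s wt v 0 = 0 := by
  simp [En, cnt]

theorem En_succ (v : ι → ℤ) (M : ℕ) : En s wt v (M + 1) - En s wt v M =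
    ∑ c ∈ range (3 ^ M), h3 (cnt s wt v (M + 1) (c : ℤ)) (cnt s wt v (M + 1) ((c : ℤ) + 3 ^ M))
      (cnt s wt v (M + 1) ((c : ℤ) + 2 * 3 ^ M)) := by
  unfold En
  rw [ent_range_split (fun c => negMulLog (cnt s wt v (M + 1) c)) M]
  have e : ∀ c ∈ range (3 ^ M), h3 (cnt s wt v (M + 1) (c : ℤ)) (cnt s wt v (M + 1) ((c : ℤ) + 3 ^ M))
      (cnt s wt v (M + 1) ((c : ℤ) + 2 * 3 ^ M)) =
      (negMulLog (cnt s wt v (M + 1) (c : ℤ)) + negMulLog (cnt s wt v (M + 1) ((c : ℤ) + 3 ^ M)) +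
      negMulLog (cnt s wt v (M + 1) ((c : ℤ) + 2 * 3 ^ M))) - negMulLog (cnt s wt v M (c : ℤ)) := by
    intro c _
    unfold h3
    rw [← ent_cnt_split s wt v M]
  rw [sum_congr rfl e, sum_sub_distrib]
  ring

theorem En_up {ε : ℝ} (hε : 0 < ε) (hε1 : ε ≤ 1) (v : ι → ℤ) (M : ℕ) (h : ∀ i ∈ s, 0 ≤ wt i) :
    En s wt v (M + 1) - En s wt v M ≤
      ε * ∑ i ∈ s, wt i + (1 + log (2 / ε)) * (∑ i ∈ s, wt i - Gam s wt v M) := by
  rw [En_succ, ← ent_cnt_sum s wt v M]
  unfold Gam Fib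
  rw [← sum_sub_distrib, mul_sum, mul_sum, ← sum_add_distrib]
  refine sum_le_sum fun c _ => ?_
  have h2 := h3_up hε hε1 (ent_cnt_nonneg v (M + 1) (c : ℤ) h)
    (ent_cnt_nonneg v (M + 1) ((c : ℤ) + 3 ^ M) h)
    (ent_cnt_nonneg v (M + 1) ((c : ℤ) + 2 * 3 ^ M) h)
  rw [← ent_cnt_split s wt v M] at h2
  exact h2

theorem En_lo (v : ι → ℤ) (M : ℕ) (h : ∀ i ∈ s, 0 ≤ wt i) :
    log 3 * ∑ i ∈ s, wt i - 2 * Gam s wt v M ≤ En s wt v (M + 1) - En s wt v M := by
  rw [En_succ, ← ent_cnt_sum s wt v M]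
  unfold Gam Fib
  rw [mul_sum, mul_sum, ← sum_sub_distrib]
  refine sum_le_sum fun c _ => ?_
  have h2 := h3_lo (ent_cnt_nonneg v (M + 1) (c : ℤ) h)
    (ent_cnt_nonneg v (M + 1) ((c : ℤ) + 3 ^ M) h)
    (ent_cnt_nonneg v (M + 1) ((c : ℤ) + 2 * 3 ^ M) h)
  rw [← ent_cnt_split s wt v M] at h2
  exact h2

theorem En_le (v : ι → ℤ) (M : ℕ) (h : ∀ i ∈ s, 0 ≤ wt i) :
    En s wt v (M + 1) - En s wt v M ≤ log 3 * ∑ i ∈ s, wt i := by
  rw [En_succ, ← ent_cnt_sum s wt v M, mul_sum]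
  refine sum_le_sum fun c _ => ?_
  have h2 := h3_le (ent_cnt_nonneg v (M + 1) (c : ℤ) h)
    (ent_cnt_nonneg v (M + 1) ((c : ℤ) + 3 ^ M) h)
    (ent_cnt_nonneg v (M + 1) ((c : ℤ) + 2 * 3 ^ M) h)
  rw [← ent_cnt_split s wt v M] at h2
  exact h2

theorem En_mono (v : ι → ℤ) (M : ℕ) (h : ∀ i ∈ s, 0 ≤ wt i) :
    0 ≤ En s wt v (M + 1) - En s wt v M := by
  rw [En_succ]
  exact sum_nonneg fun c _ => h3_nonneg (ent_cnt_nonneg v (M + 1) (c : ℤ) h)
    (ent_cnt_nonneg v (M + 1) ((c : ℤ) + 3 ^ M) h)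
    (ent_cnt_nonneg v (M + 1) ((c : ℤ) + 2 * 3 ^ M) h)

theorem En_le' (v : ι → ℤ) (M : ℕ) (h : ∀ i ∈ s, 0 ≤ wt i) :
    En s wt v M ≤ M * log 3 * ∑ i ∈ s, wt i := by
  induction M with
  | zero => rw [En_zero]; simp
  | succ M ih =>
    have := En_le v M h
    push_cast
    linarith

end

/-! ### the words -/

/-- the total mass of the words -/
noncomputable def mas (τ : ℝ) (A k : ℕ) : ℝ := ∑ w ∈ FW A k, qp τ w

/-- the entropy of the class modulo `3 ^ M` of the offset of `k` letters, given the size -/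
noncomputable def EE (τ : ℝ) (A k M : ℕ) : ℝ :=
  ∑ T ∈ range (k * A + 1), En (FWT A k T) (qp τ) (fun w => (Wo w : ℤ)) M

variable {τ : ℝ} [Tilt τ]

theorem mas_T (A k : ℕ) : ∑ T ∈ range (k * A + 1), ∑ w ∈ FWT A k T, qp τ w = mas τ A k := by
  refine Finset.sum_fiberwise_of_maps_to (fun w hw => ?_) (qp τ)
  rw [mem_range]
  have := (sum_le_of_mem hw).2
  omega

theorem mas_le (A k : ℕ) : mas τ A k ≤ 1 := sum_qp_le A k

theorem mas_nonneg (A k : ℕ) : 0 ≤ mas τ A k := sum_nonneg fun w _ => (qp_pos w).le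

theorem EE_zero (A k : ℕ) : EE τ A k 0 = 0 := by
  unfold EE
  exact sum_eq_zero fun T _ => En_zero _

theorem EE_up {ε : ℝ} (hε : 0 < ε) (hε1 : ε ≤ 1) (A k M : ℕ) :
    EE τ A k (M + 1) - EE τ A k M ≤ ε * mas τ A k + (1 + log (2 / ε)) * (mas τ A k - gp τ A k M) := by
  unfold EE gp
  rw [← mas_T, ← sum_sub_distrib, ← sum_sub_distrib, mul_sum, mul_sum, ← sum_add_distrib]
  exact sum_le_sum fun T _ => En_up hε hε1 _ M fun w _ => (qp_pos w).le

theorem EE_lo (A k M : ℕ) : log 3 * mas τ A k - 2 * gp τ A k M ≤ EE τ A k (M + 1) - EE τ A k M := by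
  unfold EE gp
  rw [← mas_T, ← sum_sub_distrib, mul_sum, mul_sum, ← sum_sub_distrib]
  exact sum_le_sum fun T _ => En_lo _ M fun w _ => (qp_pos w).le

theorem EE_le (A k M : ℕ) : EE τ A k (M + 1) - EE τ A k M ≤ log 3 * mas τ A k := by
  unfold EE
  rw [← mas_T, ← sum_sub_distrib, mul_sum]
  exact sum_le_sum fun T _ => En_le _ M fun w _ => (qp_pos w).le

theorem EE_mono (A k M : ℕ) : 0 ≤ EE τ A k (M + 1) - EE τ A k M := by
  unfold EE
  rw [← sum_sub_distrib]
  exact sum_nonneg fun T _ => En_mono _ M fun w _ => (qp_pos w).le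

theorem EE_nonneg (A k M : ℕ) : 0 ≤ EE τ A k M := by
  induction M with
  | zero => rw [EE_zero]
  | succ M ih => have := EE_mono (τ := τ) A k M; linarith

theorem EE_bd (A k M : ℕ) : EE τ A k M ≤ M * log 3 := by
  induction M with
  | zero => rw [EE_zero]; simp
  | succ M ih =>
    have h1 := EE_le (τ := τ) A k M
    have h2 := mas_le (τ := τ) A k
    have h3 : 0 < log 3 := log_pos (by norm_num)
    push_cast
    nlinarith

theorem mas_eq (A k : ℕ) : mas τ A k = (1 - (1 - τ) ^ A) ^ k := sum_qp A k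

end Pool.Agent.H623.WP
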