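import Pool.Agent.H623.WP.A
import Pool.Agent.H623.TP.T_GPAVG

/-!
# Typical words and the total entropy of the offsets, for all tilts
-/

set_option autoImplicit false
set_option linter.unusedVariables false

namespace Pool.Agent.H623.WP

open Finset Real Pool.Agent.H320R2.PD Pool.Agent.H377R2.NK Pool.Agent.H623.TP
open Pool.Agent.H623.TP.GPA (sum_qp_pow inv_le_exp qp_of_mem)

theorem gen_le' {p : ℝ} (hp0 : 0 < p) (hp1 : p < 1) (A : ℕ) {t : ℝ} (ht : |t| ≤ p / 4) :
    (p / (1 - p)) * ∑ e ∈ Icc 1 A, ((1 - p) * exp t) ^ e ≤ exp (t / p + 4 * t ^ 2 / p ^ 2) := by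
  have hq0 : 0 < 1 - p := by linarith
  have ht' := abs_le.1 ht
  have hu : |exp (-t) - 1| ≤ 2 * |t| := by
    have := Real.abs_exp_sub_one_le (x := -t) (by rw [abs_neg]; linarith)
    rwa [abs_neg] at this
  have hu' := abs_le.1 hu
  have hu2 : -(exp (-t) - 1) ≤ t := by
    have := add_one_le_exp (-t)
    linarith
  obtain ⟨u, hu0⟩ : ∃ u, u = exp (-t) - 1 := ⟨_, rfl⟩
  rw [← hu0] at hu hu' hu2
  have het : exp t * (1 + u) = 1 := by
    rw [hu0]
    have : exp t * exp (-t) = 1 := by rw [← exp_add]; simp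
    linarith
  have hu3 : |u| ≤ p / 2 := by linarith
  have hu4 := abs_le.1 hu3
  have het0 := exp_pos t
  have hr1 : (1 - p) * exp t < 1 := by nlinarith
  have h3 := sum_Icc_pow_le A (r := (1 - p) * exp t) (by positivity) hr1
  have hpu : 0 < p + u := by linarith
  have h4 : (p / (1 - p)) * ((1 - p) * exp t / (1 - (1 - p) * exp t)) = 1 / (1 - (-u / p)) := by
    have e1 : 1 - (1 - p) * exp t = exp t * (p + u) := by linarith
    rw [e1]
    have e2 : 1 - (-u / p) = (p + u) / p := by field_simp; ring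
    rw [e2]
    field_simp
  have hx : |(-u / p)| ≤ 1 / 2 := by
    rw [abs_div, abs_neg, abs_of_pos hp0, div_le_iff₀ hp0]
    linarith
  have h5 := inv_le_exp hx
  refine (mul_le_mul_of_nonneg_left h3 (div_nonneg hp0.le hq0.le)).trans ?_
  rw [h4]
  refine h5.trans (exp_le_exp.2 ?_)
  have h6 : -u / p ≤ t / p := div_le_div_of_nonneg_right hu2 hp0.le
  have h7 : (-u / p) ^ 2 ≤ 4 * t ^ 2 / p ^ 2 := by
    rw [div_pow, neg_sq]
    refine div_le_div_of_nonneg_right ?_ (by positivity)
    have := pow_le_pow_left₀ (abs_nonneg u) hu 2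
    rw [sq_abs, mul_pow, sq_abs] at this
    linarith
  linarith

theorem tail_gen' {p : ℝ} (hp0 : 0 < p) (hp1 : p < 1) (A n : ℕ) {t c : ℝ}
    (ht : |t| ≤ p / 4) (P : List ℕ → Prop) [DecidablePred P]
    (hP : ∀ w ∈ FW A n, P w → t * c ≤ t * w.sum) :
    ∑ w ∈ (FW A n).filter P, qp p w ≤ exp (-(t * c) + (t / p + 4 * t ^ 2 / p ^ 2) * n) := by
  have hq0 : 0 < 1 - p := by linarith
  have : Tilt p := ⟨hp0, hq0⟩
  have hpow : ∀ k : ℕ, (exp t) ^ k = exp (t * k) := by
    intro k
    rw [mul_comm, exp_nat_mul]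
  have h1 : ∀ w ∈ (FW A n).filter P, qp p w ≤ exp (-(t * c)) * (qp p w * (exp t) ^ w.sum) := by
    intro w hw
    rw [Finset.mem_filter] at hw
    have h2 : 1 ≤ exp (-(t * c)) * (exp t) ^ w.sum := by
      rw [hpow, ← exp_add]
      apply one_le_exp
      have := hP w hw.1 hw.2
      linarith
    calc qp p w = qp p w * 1 := by ring
      _ ≤ qp p w * (exp (-(t * c)) * (exp t) ^ w.sum) :=
          mul_le_mul_of_nonneg_left h2 (qp_pos w).le
      _ = _ := by ring
  calc ∑ w ∈ (FW A n).filter P, qp p w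
      ≤ ∑ w ∈ (FW A n).filter P, exp (-(t * c)) * (qp p w * (exp t) ^ w.sum) :=
        sum_le_sum h1
    _ ≤ ∑ w ∈ FW A n, exp (-(t * c)) * (qp p w * (exp t) ^ w.sum) := by
        apply sum_le_sum_of_subset_of_nonneg (filter_subset _ _)
        intro w _ _
        have := (qp_pos (τ := p) w).le
        positivity
    _ = exp (-(t * c)) * ∑ w ∈ FW A n, (qp p w * (exp t) ^ w.sum) := by
        rw [mul_sum]
    _ = exp (-(t * c)) * ((p / (1 - p)) * ∑ e ∈ Icc 1 A, ((1 - p) * exp t) ^ e) ^ n := by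
        rw [sum_qp_pow]
    _ ≤ exp (-(t * c)) * (exp (t / p + 4 * t ^ 2 / p ^ 2)) ^ n := by
        apply mul_le_mul_of_nonneg_left _ (exp_pos _).le
        apply pow_le_pow_left₀
        · exact mul_nonneg (div_nonneg hp0.le hq0.le)
            (sum_nonneg fun e _ => by positivity)
        · exact gen_le' hp0 hp1 A ht
    _ = _ := by
        rw [← exp_nat_mul, ← exp_add]
        congr 1; ring

theorem tail' {p : ℝ} (hp0 : 0 < p) (hp1 : p < 1) (A n : ℕ) {η : ℝ} (hη : 0 < η)
    (hη1 : η ≤ 1) :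
    ∑ w ∈ (FW A n).filter (fun w => η * n ≤ |(w.sum : ℝ) - n / p|), qp p w
      ≤ 2 * exp (-(η ^ 2 * p ^ 2 / 16 * n)) := by
  classical
  have hq0 : 0 < 1 - p := by linarith
  have : Tilt p := ⟨hp0, hq0⟩
  have hn : (0 : ℝ) ≤ n := Nat.cast_nonneg n
  obtain ⟨t, ht⟩ : ∃ t, t = η * p ^ 2 / 8 := ⟨_, rfl⟩
  have ht0 : 0 < t := by rw [ht]; positivity
  have ht1 : t ≤ p / 4 := by
    rw [ht]
    have : η * p ^ 2 ≤ 1 * p ^ 2 := mul_le_mul_of_nonneg_right hη1 (by positivity)
    nlinarith
  have e4 : 4 * t ^ 2 / p ^ 2 = η * t / 2 := by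
    rw [ht]
    field_simp
    ring
  have e5 : η * t / 2 = η ^ 2 * p ^ 2 / 16 := by rw [ht]; ring
  have hup : ∑ w ∈ (FW A n).filter (fun w => η * n ≤ (w.sum : ℝ) - n / p), qp p w
      ≤ exp (-(η ^ 2 * p ^ 2 / 16 * n)) := by
    refine (tail_gen' hp0 hp1 A n (t := t) (c := n / p + η * n)
      (by rw [abs_of_pos ht0]; exact ht1) _ ?_).trans ?_
    · intro w _ hw
      refine mul_le_mul_of_nonneg_left ?_ ht0.le
      linarith
    · apply exp_le_exp.mpr
      rw [e4, ← e5]
      apply le_of_eq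
      ring
  have hdown : ∑ w ∈ (FW A n).filter (fun w => η * n ≤ n / p - (w.sum : ℝ)), qp p w
      ≤ exp (-(η ^ 2 * p ^ 2 / 16 * n)) := by
    refine (tail_gen' hp0 hp1 A n (t := -t) (c := n / p - η * n)
      (by rw [abs_neg, abs_of_pos ht0]; exact ht1) _ ?_).trans ?_
    · intro w _ hw
      refine mul_le_mul_of_nonpos_left ?_ (by linarith)
      linarith
    · apply exp_le_exp.mpr
      rw [neg_sq, e4, ← e5]
      apply le_of_eq
      ring
  have hsub : (FW A n).filter (fun w => η * n ≤ |(w.sum : ℝ) - n / p|) ⊆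
      (FW A n).filter (fun w => η * n ≤ (w.sum : ℝ) - n / p) ∪
      (FW A n).filter (fun w => η * n ≤ n / p - (w.sum : ℝ)) := by
    intro w hw
    rw [Finset.mem_filter] at hw
    rw [Finset.mem_union, Finset.mem_filter, Finset.mem_filter]
    rcases le_abs.mp hw.2 with h | h
    · exact Or.inl ⟨hw.1, h⟩
    · exact Or.inr ⟨hw.1, by linarith⟩
  have h1 := sum_le_sum_of_subset_of_nonneg hsub fun w _ _ => (qp_pos (τ := p) w).le
  have h2 : ∑ w ∈ (FW A n).filter (fun w => η * n ≤ (w.sum : ℝ) - n / p) ∪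
      (FW A n).filter (fun w => η * n ≤ n / p - (w.sum : ℝ)), qp p w ≤
      ∑ w ∈ (FW A n).filter (fun w => η * n ≤ (w.sum : ℝ) - n / p), qp p w +
      ∑ w ∈ (FW A n).filter (fun w => η * n ≤ n / p - (w.sum : ℝ)), qp p w := by
    rw [← sum_union_inter]
    have : 0 ≤ ∑ w ∈ (FW A n).filter (fun w => η * n ≤ (w.sum : ℝ) - n / p) ∩
      (FW A n).filter (fun w => η * n ≤ n / p - (w.sum : ℝ)), qp p w :=
      sum_nonneg fun w _ => (qp_pos (τ := p) w).le
    linarith
  linarith

/-! ### the offsets -/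

theorem Wo_le : ∀ w : List ℕ, (∀ e ∈ w, 1 ≤ e) → Wo w ≤ 3 ^ w.length * 2 ^ w.sum
  | [], _ => by simp [Wo]
  | e :: w, h => by
    have h1 := Wo_le w fun e he => h e (List.mem_cons_of_mem _ he)
    have h2 : 1 ≤ e := h e List.mem_cons_self
    rw [Wo, List.length_cons, List.sum_cons, pow_succ, pow_add]
    have h3 : 2 ≤ 2 ^ e := by
      calc 2 = 2 ^ 1 := rfl
        _ ≤ 2 ^ e := Nat.pow_le_pow_right (by norm_num) h2
    have h4 : 1 ≤ 3 ^ w.length := Nat.one_le_pow _ _ (by norm_num)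
    obtain ⟨a, ha⟩ : ∃ a, a = 3 ^ w.length := ⟨_, rfl⟩
    obtain ⟨b, hb⟩ : ∃ b, b = 2 ^ w.sum := ⟨_, rfl⟩
    obtain ⟨c, hc⟩ : ∃ c, c = 2 ^ e := ⟨_, rfl⟩
    rw [← ha, ← hb] at h1
    rw [← ha] at h4
    rw [← hc] at h3
    rw [← ha, ← hb, ← hc]
    calc b + 3 * Wo w ≤ a * b + 3 * (a * b) := by nlinarith [Nat.mul_le_mul_right b h4]
      _ ≤ a * 3 * (2 * b) := by nlinarith
      _ ≤ a * 3 * (c * b) := Nat.mul_le_mul_left _ (Nat.mul_le_mul_right b h3)

open scoped Classical in
/-- typical words -/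
noncomputable def typ (p : ℝ) (A k : ℕ) (η : ℝ) : Finset (List ℕ) :=
  (FW A k).filter fun w => |(w.sum : ℝ) - k / p| ≤ η * k

open scoped Classical in
theorem typ_mass {p : ℝ} (hp0 : 0 < p) (hp1 : p < 1) (A k : ℕ) {η : ℝ} (hη : 0 < η) (hη1 : η ≤ 1) :
    mas p A k - 2 * exp (-(η ^ 2 * p ^ 2 / 16 * k)) ≤ ∑ w ∈ typ p A k η, qp p w := by
  have hq0 : 0 < 1 - p := by linarith
  have : Tilt p := ⟨hp0, hq0⟩
  have h2 := tail' hp0 hp1 A k hη hη1
  have h1 : mas p A k ≤ ∑ w ∈ typ p A k η, qp p w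
      + ∑ w ∈ (FW A k).filter (fun w => η * k ≤ |(w.sum : ℝ) - k / p|), qp p w := by
    unfold typ mas
    rw [Finset.sum_filter, Finset.sum_filter, ← Finset.sum_add_distrib]
    apply Finset.sum_le_sum
    intro w _
    have hw := qp_pos (τ := p) w
    by_cases ha : |(w.sum : ℝ) - k / p| ≤ η * k
    · rw [if_pos ha]
      split_ifs <;> linarith
    · rw [if_neg ha, if_pos (le_of_lt (not_le.1 ha))]
      linarith
  have h6 : ∑ w ∈ (FW A k).filter (fun w => η * k ≤ |(w.sum : ℝ) - k / p|), qp p w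
      ≤ 2 * exp (-(η ^ 2 * p ^ 2 / 16 * k)) := by
    refine le_trans (le_of_eq ?_) h2
    refine Finset.sum_congr ?_ fun _ _ => rfl
    ext w
    simp only [Finset.mem_filter]
  linarith

open scoped Classical in
/-- the total entropy -/
theorem EE_total {p : ℝ} (hp0 : 0 < p) (hp1 : p < 1) {A k : ℕ} {η : ℝ} (hη : 0 < η)
    (hη1 : η ≤ 1) (hk : 1 ≤ k) (M : ℕ)
    (hM : (3 : ℝ) ^ k * (2 : ℝ) ^ ((1 / p + η) * k) < 3 ^ M) :
    (k * log ((1 - p) / p) + (1 / p - η) * k * log (1 / (1 - p))) * ∑ w ∈ typ p A k η, qp p w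
      - log ((1 / p + 1) * k + 1) - 1 ≤ EE p A k M := by
  have hq0 : 0 < 1 - p := by linarith
  have hq1 : 1 - p < 1 := by linarith
  have : Tilt p := ⟨hp0, hq0⟩
  have hk0 : (0 : ℝ) < k := by exact_mod_cast hk
  set s1 : ℕ → Finset (List ℕ) := fun T => (typ p A k η).filter fun w => w.sum = T with hs1
  have hs1sub : ∀ T, s1 T ⊆ FWT A k T := by
    intro T w hw
    simp only [hs1, typ, Finset.mem_filter] at hw
    unfold FWT
    rw [Finset.mem_filter]
    exact ⟨hw.1.1, hw.2⟩
  have hs1T : ∀ T, (s1 T).Nonempty → k ≤ T := by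
    rintro T ⟨w, hw⟩
    have h1 := hs1sub T hw
    unfold FWT at h1
    rw [Finset.mem_filter] at h1
    have h2 := (sum_le_of_mem h1.1).1
    omega
  set pp : ℕ → ℝ := fun T => (p / (1 - p)) ^ k * (1 - p) ^ T with hpp
  have hpp0 : ∀ T, 0 < pp T := fun T => by simp only [hpp]; positivity
  have hpp1 : ∀ T, k ≤ T → pp T ≤ 1 := fun T hT => by
    obtain ⟨d, rfl⟩ := Nat.exists_eq_add_of_le hT
    simp only [hpp]
    rw [pow_add, ← mul_assoc, ← mul_pow, div_mul_cancel₀ _ hq0.ne']
    exact mul_le_one₀ (pow_le_one₀ hp0.le (by linarith)) (by positivity)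
      (pow_le_one₀ hq0.le hq1.le)
  set μ : ℕ → ℝ := fun T => (s1 T).card * pp T with hμ
  have hμ0 : ∀ T, 0 ≤ μ T := fun T => mul_nonneg (Nat.cast_nonneg _) (hpp0 T).le
  have hμs : ∀ T, ∑ w ∈ s1 T, qp p w = μ T := by
    intro T
    rw [Finset.sum_congr rfl (fun w hw => qp_of_mem (hs1sub T hw)), Finset.sum_const,
      nsmul_eq_mul]
  have hsize : ∀ T, (s1 T).Nonempty → |(T : ℝ) - k / p| ≤ η * k := by
    rintro T ⟨w, hw⟩
    simp only [hs1, typ, Finset.mem_filter] at hw
    rw [← hw.2]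
    exact hw.1.2
  have hWsmall : ∀ T, ∀ w ∈ s1 T, (Wo w : ℝ) < 3 ^ M := by
    intro T w hw
    have h1 := hsize T ⟨w, hw⟩
    have hw1 := hs1sub T hw
    unfold FWT at hw1
    rw [Finset.mem_filter] at hw1
    have f1 := mem_FW.1 hw1.1
    have h2 : (Wo w : ℝ) ≤ 3 ^ k * 2 ^ T := by
      have := Wo_le w fun e he => (f1.2 e he).1
      rw [f1.1, hw1.2] at this
      exact_mod_cast this
    refine (h2.trans ?_).trans_lt hM
    refine mul_le_mul_of_nonneg_left ?_ (by positivity)
    rw [← Real.rpow_natCast]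
    apply Real.rpow_le_rpow_of_exponent_le (by norm_num)
    have := (abs_le.1 h1).2
    have e : (1 / p + η) * k = k / p + η * k := by ring
    linarith
  have hinj : ∀ T, ∀ w ∈ s1 T, ∀ w' ∈ s1 T, (3 : ℤ) ^ M ∣ (Wo w : ℤ) - Wo w' → w = w' := by
    intro T w hw w' hw' hd
    have h1 := hWsmall T w hw
    have h2 := hWsmall T w' hw'
    have h1' : (Wo w : ℤ) < 3 ^ M := by exact_mod_cast h1
    have h2' : (Wo w' : ℤ) < 3 ^ M := by exact_mod_cast h2
    have h3 : (Wo w : ℤ) - Wo w' = 0 := by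
      apply Int.eq_zero_of_abs_lt_dvd hd
      rw [abs_lt]
      constructor
      · have : (0 : ℤ) ≤ Wo w := by positivity
        linarith
      · have : (0 : ℤ) ≤ Wo w' := by positivity
        linarith
    have h4 : Wo w = Wo w' := by exact_mod_cast sub_eq_zero.1 h3
    have m1 := hs1sub T hw
    have m2 := hs1sub T hw'
    unfold FWT at m1 m2
    rw [Finset.mem_filter] at m1 m2
    have f1 := mem_FW.1 m1.1
    have f2 := mem_FW.1 m2.1
    exact Wo_inj (fun e he => (f1.2 e he).1) (fun e he => (f2.2 e he).1) (by rw [f1.1, f2.1])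
      (by rw [m1.2, m2.2]) h4
  set L1 : ℝ := log ((1 - p) / p) with hL1
  set L2 : ℝ := log (1 / (1 - p)) with hL2
  have hL20 : 0 < L2 := log_pos (by rw [lt_div_iff₀ hq0]; linarith)
  have hlpp : ∀ T : ℕ, log (1 / pp T) = k * L1 + T * L2 := by
    intro T
    have e : 1 / pp T = ((1 - p) / p) ^ k * (1 / (1 - p)) ^ T := by
      simp only [hpp]
      rw [one_div, mul_inv, ← inv_pow, ← inv_pow, inv_div, one_div]
    rw [e, log_mul (by positivity) (by positivity), log_pow, log_pow]
  have hT : ∀ T ∈ range (k * A + 1),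
      (k * L1 + T * L2) * μ T - negMulLog (μ T) ≤ En (FWT A k T) (qp p) (fun w => (Wo w : ℤ)) M := by
    intro T _
    by_cases hTk : k ≤ T
    · have h2 := ent_lower (s := FWT A k T) (s₁ := s1 T) (wt := qp p) (fun w => (Wo w : ℤ)) M
        (fun w _ => (qp_pos (τ := p) w).le) (hs1sub T) (p := pp T) (hpp0 T)
        (hpp1 T hTk) (fun w hw => qp_of_mem (hs1sub T hw))
        (hinj T)
      rw [hlpp T] at h2
      have e : ((s1 T).card : ℝ) * pp T = μ T := rfl
      rw [e] at h2
      unfold En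
      linarith
    · have h3 : s1 T = ∅ := by
        rcases (s1 T).eq_empty_or_nonempty with h | h
        · exact h
        · exact absurd (hs1T T h) hTk
      have h4 : μ T = 0 := by simp only [hμ, h3]; simp
      have h2 := ent_lower (s := FWT A k T) (s₁ := ∅) (wt := qp p) (fun w => (Wo w : ℤ)) M
        (fun w _ => (qp_pos (τ := p) w).le) (Finset.empty_subset _) (p := 1) one_pos
        le_rfl (fun w hw => absurd hw (Finset.notMem_empty _))
        (fun w hw => absurd hw (Finset.notMem_empty _))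
      rw [Finset.card_empty, Nat.cast_zero, zero_mul, zero_mul, negMulLog_zero, sub_zero] at h2
      rw [h4, mul_zero, negMulLog_zero, sub_zero]
      unfold En
      exact h2
  have hsum : ∑ T ∈ range (k * A + 1), ((k * L1 + T * L2) * μ T - negMulLog (μ T)) ≤ EE p A k M := by
    unfold EE
    exact Finset.sum_le_sum hT
  refine le_trans ?_ hsum
  rw [Finset.sum_sub_distrib]
  have hmaps : ∀ w ∈ FW A k, w.sum ∈ range (k * A + 1) := by
    intro w hw
    rw [mem_range]
    have := (sum_le_of_mem hw).2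
    omega
  have t2 : ∑ T ∈ range (k * A + 1), μ T = ∑ w ∈ typ p A k η, qp p w := by
    have hmaps2 : ∀ w ∈ typ p A k η, w.sum ∈ range (k * A + 1) := by
      intro w hw
      unfold typ at hw
      rw [Finset.mem_filter] at hw
      exact hmaps w hw.1
    rw [← Finset.sum_fiberwise_of_maps_to hmaps2 (qp p)]
    exact Finset.sum_congr rfl fun T _ => (hμs T).symm
  have t3 : (k * L1 + (1 / p - η) * k * L2) * ∑ w ∈ typ p A k η, qp p w
      ≤ ∑ T ∈ range (k * A + 1), (k * L1 + T * L2) * μ T := by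
    rw [← t2, Finset.mul_sum]
    apply Finset.sum_le_sum
    intro T _
    rcases (s1 T).eq_empty_or_nonempty with h | h
    · have : μ T = 0 := by simp only [hμ, h]; simp
      rw [this]; simp
    · have h1 := (abs_le.1 (hsize T h)).1
      refine mul_le_mul_of_nonneg_right ?_ (hμ0 T)
      have h2 : (1 / p - η) * k * L2 ≤ T * L2 := by
        refine mul_le_mul_of_nonneg_right ?_ hL20.le
        have e : (1 / p - η) * k = k / p - η * k := by ring
        linarith
      linarith
  have t4 : ∑ T ∈ range (k * A + 1), negMulLog (μ T) ≤ log ((1 / p + 1) * k + 1) + 1 := by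
    set R : ℝ := (1 / p + 1) * k + 1 with hR
    have hR0 : 0 < R := by positivity
    set Rn : ℕ := ⌊(1 / p + 1) * k⌋₊ + 1 with hRn
    have hRnR : (Rn : ℝ) ≤ R := by
      rw [hRn]
      push_cast
      have := Nat.floor_le (a := (1 / p + 1) * k) (by positivity)
      linarith
    have h1 : ∀ T ∈ range (k * A + 1), negMulLog (μ T)
        ≤ μ T * log R + (if T ∈ range Rn then 1 / R else 0) := by
      intro T _
      rcases (s1 T).eq_empty_or_nonempty with h | h
      · have : μ T = 0 := by simp only [hμ, h]; simp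
        rw [this]
        simp only [negMulLog_zero, zero_mul, zero_add]
        split_ifs
        · positivity
        · exact le_rfl
      · have h2 := (abs_le.1 (hsize T h)).2
        have h3 : T ∈ range Rn := by
          rw [mem_range, hRn, Nat.lt_add_one_iff]
          apply Nat.le_floor
          have h5 : η * k ≤ 1 * k := mul_le_mul_of_nonneg_right hη1 hk0.le
          have e : (1 / p + 1) * k = k / p + 1 * k := by ring
          linarith
        rw [if_pos h3]
        exact nml_le (hμ0 T) hR0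
    refine (Finset.sum_le_sum h1).trans ?_
    rw [Finset.sum_add_distrib, ← Finset.sum_mul, t2]
    have h2 : ∑ w ∈ typ p A k η, qp p w ≤ 1 := by
      refine le_trans (Finset.sum_le_sum_of_subset_of_nonneg (t := FW A k)
        (Finset.filter_subset _ _) ?_) (sum_qp_le A k)
      intro w _ _
      exact (qp_pos (τ := p) w).le
    have h3 : 0 ≤ log R := log_nonneg (by rw [hR]; have : 0 ≤ (1 / p + 1) * k := by positivity
                                          linarith)
    have h4 : ∑ T ∈ range (k * A + 1), (if T ∈ range Rn then 1 / R else 0) ≤ 1 := by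
      rw [← Finset.sum_filter, Finset.sum_const, nsmul_eq_mul, mul_one_div, div_le_one hR0]
      have : ((range (k * A + 1)).filter (fun T => T ∈ range Rn)).card ≤ Rn := by
        refine (Finset.card_le_card (t := range Rn) ?_).trans (by rw [card_range])
        intro T hT
        exact (Finset.mem_filter.1 hT).2
      refine le_trans ?_ hRnR
      exact_mod_cast this
    have h5 := mul_le_mul_of_nonneg_right h2 h3
    rw [one_mul] at h5
    linarith
  linarith

end Pool.Agent.H623.WP
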