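import Pool.Agent.H623.WP.B

/-!
# The entropy of the first `m` digits of the offset of `m` letters
-/

set_option autoImplicit false
set_option linter.unusedVariables false

namespace Pool.Agent.H623.WP

open Finset Real Pool.Agent.H320R2.PD Pool.Agent.H377R2.NK Pool.Agent.H623.TP
open Filter Topology

/-- the ultrafilter of the caps of the letters -/
noncomputable def UF : Filter ℕ := (hyperfilter ℕ : Filter ℕ)

instance : UF.NeBot := (hyperfilter ℕ).neBot

theorem UF_le : UF ≤ atTop := Nat.hyperfilter_le_atTop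

theorem exists_lim {f : ℕ → ℝ} {a b : ℝ} (h : ∀ n, f n ∈ Set.Icc a b) : ∃ x, Tendsto f UF (𝓝 x) := by
  have h1 := (isCompact_Icc (a := a) (b := b)).ultrafilter_le_nhds ((hyperfilter ℕ).map f) (by
    rw [Ultrafilter.coe_map, Filter.le_principal_iff]
    exact Filter.mem_map.2 (Filter.Eventually.of_forall h))
  obtain ⟨x, _, hx⟩ := h1
  exact ⟨x, hx⟩

/-- the limits of the nonuniformities and of the entropies -/
structure Lim (p : ℝ) (G E : ℕ → ℕ → ℝ) : Prop where
  g : ∀ k j, Tendsto (fun A => gp p A k j) UF (𝓝 (G k j))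
  e : ∀ k M, Tendsto (fun A => EE p A k M) UF (𝓝 (E k M))

theorem exists_Lim (p : ℝ) [Tilt p] : ∃ G E : ℕ → ℕ → ℝ, Lim p G E := by
  have h1 : ∀ k j, ∃ x, Tendsto (fun A => gp p A k j) UF (𝓝 x) := fun k j =>
    exists_lim (a := 0) (b := 1) fun A => ⟨gp_nonneg A k j, gp_le_one A k j⟩
  have h2 : ∀ k M, ∃ x, Tendsto (fun A => EE p A k M) UF (𝓝 x) := fun k M =>
    exists_lim (a := 0) (b := M * log 3) fun A => ⟨EE_nonneg A k M, EE_bd A k M⟩
  choose G hG using h1
  choose E hE using h2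
  exact ⟨G, E, hG, hE⟩

section
variable {p : ℝ} [Tilt p] {G E : ℕ → ℕ → ℝ} (hL : Lim p G E)
include hL

theorem mas_lim (k : ℕ) : Tendsto (fun A => mas p A k) UF (𝓝 1) := by
  have hp0 : 0 < p := Tilt.pos
  have hq0 : 0 < 1 - p := Tilt.lt
  have h1 : Tendsto (fun A : ℕ => (1 - p) ^ A) atTop (𝓝 0) :=
    tendsto_pow_atTop_nhds_zero_of_lt_one hq0.le (by linarith)
  have h2 := ((h1.const_sub 1).pow k).mono_left UF_le
  rw [sub_zero, one_pow] at h2
  exact h2.congr fun A => (mas_eq A k).symm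

theorem G_nonneg (k j : ℕ) : 0 ≤ G k j := ge_of_tendsto' (hL.g k j) fun A => gp_nonneg A k j

theorem G_le (k j : ℕ) : G k j ≤ 1 := le_of_tendsto' (hL.g k j) fun A => gp_le_one A k j

theorem G_rec (k₁ k₂ j : ℕ) : G (k₁ + k₂) (k₁ + j) ≤ G k₁ (k₁ + j) * G k₂ j :=
  le_of_tendsto_of_tendsto' (hL.g _ _) ((hL.g _ _).mul (hL.g _ _)) fun A => gp_rec A k₁ k₂ j

theorem E_zero (k : ℕ) : E k 0 = 0 := by
  refine tendsto_nhds_unique (hL.e k 0) ?_
  exact (tendsto_const_nhds (x := (0 : ℝ))).congr fun A => (EE_zero A k).symm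

theorem E_up {ε : ℝ} (hε : 0 < ε) (hε1 : ε ≤ 1) (k M : ℕ) :
    E k (M + 1) - E k M ≤ ε + (1 + log (2 / ε)) * (1 - G k M) := by
  have h := le_of_tendsto_of_tendsto' ((hL.e k (M + 1)).sub (hL.e k M))
    (((mas_lim hL k).const_mul ε).add (((mas_lim hL k).sub (hL.g k M)).const_mul (1 + log (2 / ε))))
    fun A => EE_up hε hε1 A k M
  rw [mul_one] at h
  exact h

theorem E_lo (k M : ℕ) : log 3 - 2 * G k M ≤ E k (M + 1) - E k M := by
  have h := le_of_tendsto_of_tendsto' (((mas_lim hL k).const_mul (log 3)).sub ((hL.g k M).const_mul 2))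
    ((hL.e k (M + 1)).sub (hL.e k M)) fun A => EE_lo A k M
  rw [mul_one] at h
  exact h

theorem E_le (k M : ℕ) : E k (M + 1) - E k M ≤ log 3 := by
  have h := le_of_tendsto_of_tendsto' ((hL.e k (M + 1)).sub (hL.e k M))
    ((mas_lim hL k).const_mul (log 3)) fun A => EE_le A k M
  rw [mul_one] at h
  exact h

theorem E_bd (k M : ℕ) : E k M ≤ M * log 3 := le_of_tendsto' (hL.e k M) fun A => EE_bd A k M

open scoped Classical in
theorem E_total {η : ℝ} (hη : 0 < η) (hη1 : η ≤ 1) {k : ℕ} (hk : 1 ≤ k) (M : ℕ)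
    (hc : 0 ≤ k * log ((1 - p) / p) + (1 / p - η) * k * log (1 / (1 - p)))
    (hM : (3 : ℝ) ^ k * (2 : ℝ) ^ ((1 / p + η) * k) < 3 ^ M) :
    (k * log ((1 - p) / p) + (1 / p - η) * k * log (1 / (1 - p))) *
      (1 - 2 * exp (-(η ^ 2 * p ^ 2 / 16 * k))) - log ((1 / p + 1) * k + 1) - 1 ≤ E k M := by
  have hp0 : 0 < p := Tilt.pos
  have hq0 : 0 < 1 - p := Tilt.lt
  have h1 : Tendsto (fun A => (k * log ((1 - p) / p) + (1 / p - η) * k * log (1 / (1 - p))) *
      (mas p A k - 2 * exp (-(η ^ 2 * p ^ 2 / 16 * k))) - log ((1 / p + 1) * k + 1) - 1) UF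
      (𝓝 ((k * log ((1 - p) / p) + (1 / p - η) * k * log (1 / (1 - p))) *
      (1 - 2 * exp (-(η ^ 2 * p ^ 2 / 16 * k))) - log ((1 / p + 1) * k + 1) - 1)) :=
    ((((mas_lim hL k).sub_const _).const_mul _).sub_const _).sub_const _
  refine le_of_tendsto_of_tendsto' h1 (hL.e k M) fun A => ?_
  have h2 := EE_total hp0 (by linarith) (A := A) hη hη1 hk M hM
  have h3 := typ_mass hp0 (by linarith) A k hη hη1
  have h4 := mul_le_mul_of_nonneg_left h3 hc
  linarith

theorem b_anti : Antitone (fun n => G n n) := by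
  intro n n' h
  obtain ⟨d, rfl⟩ := Nat.exists_eq_add_of_le' h
  have h0 := G_rec hL d n n
  have h1 := G_le hL d (d + n)
  have h2 := G_nonneg hL n n
  show G (d + n) (d + n) ≤ G n n
  nlinarith

theorem G_le_b {j m : ℕ} (h : j ≤ m) : G m j ≤ G j j := by
  obtain ⟨d, rfl⟩ := Nat.exists_eq_add_of_le h
  have h0 := G_rec hL j d 0
  rw [add_zero] at h0
  have h1 := G_le hL d 0
  have h2 := G_nonneg hL j j
  nlinarith

end

theorem ev_log (C D : ℝ) (hC : 0 < C) {δ : ℝ} (hδ : 0 < δ) :
    ∀ᶠ k : ℕ in atTop, log (C * k + 1) + D ≤ δ * k := by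
  have h1 : ∀ᶠ x : ℝ in atTop, |log x| ≤ δ / 2 * |x| := by
    have := Real.isLittleO_log_id_atTop.def (c := δ / 2) (by positivity)
    simpa using this
  have h2 : ∀ᶠ k : ℕ in atTop, |log (k : ℝ)| ≤ δ / 2 * |(k : ℝ)| :=
    tendsto_natCast_atTop_atTop.eventually h1
  have h3 : ∀ᶠ k : ℕ in atTop, (log (C + 1) + D) * (2 / δ) ≤ (k : ℝ) :=
    tendsto_natCast_atTop_atTop.eventually (eventually_ge_atTop _)
  filter_upwards [h2, h3, eventually_ge_atTop 1] with k hk hk2 hk3
  have hk0 : (1 : ℝ) ≤ k := by exact_mod_cast hk3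
  have h3 : log (k : ℝ) ≤ δ / 2 * k := by
    have := (abs_le.1 hk).2
    rwa [abs_of_nonneg (by positivity)] at this
  have h4 : log (C * (k : ℝ) + 1) ≤ log (C + 1) + log k := by
    rw [← log_mul (by positivity) (by positivity)]
    apply log_le_log (by positivity)
    nlinarith
  have h5 : log (C + 1) + D ≤ δ / 2 * k := by
    have := mul_le_mul_of_nonneg_left hk2 (show 0 ≤ δ / 2 by positivity)
    calc log (C + 1) + D = δ / 2 * ((log (C + 1) + D) * (2 / δ)) := by
          field_simp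
      _ ≤ _ := this
  linarith

theorem ev_exp {κ : ℝ} (hκ : 0 < κ) {δ : ℝ} (hδ : 0 < δ) :
    ∀ᶠ k : ℕ in atTop, 2 * exp (-(κ * k)) ≤ δ := by
  have h4 : Tendsto (fun k : ℕ => κ * (k : ℝ)) atTop atTop :=
    Tendsto.const_mul_atTop hκ tendsto_natCast_atTop_atTop
  have h5 := (Real.tendsto_exp_neg_atTop_nhds_zero.comp h4).const_mul 2
  rw [mul_zero] at h5
  exact (h5.eventually (gt_mem_nhds hδ)).mono fun k hk => hk.le

theorem H_eq {p : ℝ} (hp0 : 0 < p) (hq0 : 0 < 1 - p) :
    log ((1 - p) / p) + 1 / p * log (1 / (1 - p)) = binEntropy p / p := by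
  have a1 : log (1 / (1 - p)) = -log (1 - p) := by rw [one_div, log_inv]
  rw [a1, binEntropy, log_div hq0.ne' hp0.ne', log_inv, log_inv]
  field_simp
  ring

/-- the entropy of the class modulo `3 ^ m` of the offset of `m` letters is at least
`(min (log 3) (H(p) / p) - ε) m` -/
theorem main_ent {p : ℝ} [Tilt p] {G E : ℕ → ℕ → ℝ} (hL : Lim p G E) {ε : ℝ} (hε : 0 < ε) :
    ∃ m₀ : ℕ, ∀ m, m₀ ≤ m → (min (log 3) (binEntropy p / p) - ε) * m ≤ E m m := by
  have hp0 : 0 < p := Tilt.pos
  have hq0 : 0 < 1 - p := Tilt.lt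
  have hl3 : 0 < log 3 := log_pos (by norm_num)
  have hl2 : 0 < log 2 := log_pos (by norm_num)
  have hanti := b_anti hL
  have hbdd : BddBelow (Set.range fun n => G n n) := ⟨0, by rintro _ ⟨n, rfl⟩; exact G_nonneg hL n n⟩
  have hlim := tendsto_atTop_ciInf hanti hbdd
  obtain ⟨β, hβ⟩ : ∃ β, β = ⨅ n, G n n := ⟨_, rfl⟩
  rw [← hβ] at hlim
  have hβle : ∀ n, β ≤ G n n := fun n => by rw [hβ]; exact ciInf_le hbdd n
  have hβ0 : 0 ≤ β := by rw [hβ]; exact le_ciInf fun n => G_nonneg hL n n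
  rcases eq_or_lt_of_le hβ0 with h0 | h0
  · -- the digits become uniform
    rw [← h0] at hlim
    obtain ⟨n₁, hn₁⟩ := eventually_atTop.1 ((tendsto_order.1 hlim).2 (ε / 4) (by positivity))
    have key : ∀ m M : ℕ, M ≤ m → M * log 3 - 2 * (min M n₁ : ℕ) - M * (ε / 2) ≤ E m M := by
      intro m M
      induction M with
      | zero =>
        intro _
        rw [E_zero hL]
        simp
      | succ M ih =>
        intro hM
        have h1 := ih (by omega)
        have h2 := E_lo hL m M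
        have h3 := G_le_b hL (show M ≤ m by omega)
        rcases Nat.lt_or_ge M n₁ with h | h
        · have h4 := G_le hL M M
          have e1 : min (M + 1) n₁ = min M n₁ + 1 := by omega
          rw [e1]
          push_cast at h1 ⊢
          nlinarith
        · have h4 := hn₁ M h
          have e1 : min (M + 1) n₁ = min M n₁ := by omega
          rw [e1]
          push_cast at h1 ⊢
          nlinarith
    obtain ⟨m₀, hm₀⟩ := exists_nat_ge (4 * n₁ / ε)
    refine ⟨m₀, fun m hm => ?_⟩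
    have h1 := key m m le_rfl
    have h2 : (m₀ : ℝ) ≤ m := by exact_mod_cast hm
    have h3 : 4 * n₁ ≤ ε * m := by
      have := hm₀.trans h2
      rw [div_le_iff₀ hε] at this
      linarith
    have h4 : ((min m n₁ : ℕ) : ℝ) ≤ n₁ := by exact_mod_cast min_le_right _ _
    have h5 : min (log 3) (binEntropy p / p) ≤ log 3 := min_le_left _ _
    have h6 : (0 : ℝ) ≤ m := Nat.cast_nonneg _
    have h7 := mul_le_mul_of_nonneg_right h5 h6
    nlinarith
  · obtain ⟨H, hH⟩ : ∃ H, H = binEntropy p / p := ⟨_, rfl⟩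
    rw [← hH]
    have hH0 : 0 < H := by rw [hH]; exact div_pos (binEntropy_pos hp0 (by linarith)) hp0
    obtain ⟨L2, hL2⟩ : ∃ L2, L2 = log (1 / (1 - p)) := ⟨_, rfl⟩
    have hL20 : 0 < L2 := by rw [hL2]; exact log_pos (by rw [lt_div_iff₀ hq0]; linarith)
    obtain ⟨R, hR⟩ : ∃ R, R = (1 / p + 1) * (log 2 / log 3) + 1 := ⟨_, rfl⟩
    have hR0 : 1 ≤ R := by
      rw [hR]
      have : 0 ≤ (1 / p + 1) * (log 2 / log 3) := by positivity
      linarith
    obtain ⟨ε1, hε1⟩ : ∃ ε1, ε1 = min 1 (ε / (16 * R)) := ⟨_, rfl⟩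
    have hε10 : 0 < ε1 := by rw [hε1]; exact lt_min one_pos (by positivity)
    have hε11 : ε1 ≤ 1 := by rw [hε1]; exact min_le_left _ _
    have hε12 : 16 * R * ε1 ≤ ε := by
      have : ε1 ≤ ε / (16 * R) := by rw [hε1]; exact min_le_right _ _
      rw [le_div_iff₀ (by positivity)] at this
      linarith
    obtain ⟨lam, hlam⟩ : ∃ lam, lam = 1 + log (2 / ε1) := ⟨_, rfl⟩
    have hlam0 : 0 < lam := by
      rw [hlam]
      have : 0 ≤ log (2 / ε1) := log_nonneg (by rw [le_div_iff₀ hε10]; linarith)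
      linarith
    obtain ⟨ρ, hρ⟩ : ∃ ρ, ρ = min (1 / 2) (ε1 / lam) := ⟨_, rfl⟩
    have hρ0 : 0 < ρ := by rw [hρ]; exact lt_min (by norm_num) (by positivity)
    have hρ1 : ρ ≤ 1 / 2 := by rw [hρ]; exact min_le_left _ _
    have hρ2 : lam * ρ ≤ ε1 := by
      have : ρ ≤ ε1 / lam := by rw [hρ]; exact min_le_right _ _
      rw [le_div_iff₀ hlam0] at this
      linarith
    have hβ' : β < β / (1 - ρ) := by
      rw [lt_div_iff₀ (by linarith)]
      nlinarith
    obtain ⟨n₁, hn₁⟩ := eventually_atTop.1 ((tendsto_order.1 hlim).2 _ hβ')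
    have hinc : ∀ k i : ℕ, n₁ ≤ i → 1 - ρ ≤ G k (k + i) := by
      intro k i hi
      have h1 := G_rec hL k i i
      have h2 := hβle (k + i)
      have h3 := (hn₁ i hi).le
      have h4 := G_nonneg hL k (k + i)
      have h5 := mul_le_mul_of_nonneg_left h3 h4
      have h6 : β ≤ G k (k + i) * (β / (1 - ρ)) := by linarith
      rw [← mul_div_assoc, le_div_iff₀ (by linarith)] at h6
      have h7 : β * (1 - ρ) ≤ β * G k (k + i) := by linarith
      exact le_of_mul_le_mul_left h7 h0
    have key : ∀ k N : ℕ, E k (k + N) ≤ E k k + (min N n₁ : ℕ) * log 3 + N * (2 * ε1) := by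
      intro k N
      induction N with
      | zero => simp
      | succ N ih =>
        rw [← add_assoc]
        rcases Nat.lt_or_ge N n₁ with h | h
        · have h2 := E_le hL k (k + N)
          have e1 : min (N + 1) n₁ = min N n₁ + 1 := by omega
          rw [e1]
          push_cast at ih ⊢
          nlinarith
        · have h2 := E_up hL hε10 hε11 k (k + N)
          have h3 := hinc k N h
          rw [← hlam] at h2
          have h4 : lam * (1 - G k (k + N)) ≤ lam * ρ := mul_le_mul_of_nonneg_left (by linarith) hlam0.le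
          have e1 : min (N + 1) n₁ = min N n₁ := by omega
          rw [e1]
          push_cast at ih ⊢
          nlinarith
    obtain ⟨η, hη⟩ : ∃ η, η = min 1 (min (ε / (8 * L2)) (H / L2)) := ⟨_, rfl⟩
    have hη0 : 0 < η := by rw [hη]; exact lt_min one_pos (lt_min (by positivity) (by positivity))
    have hη1 : η ≤ 1 := by rw [hη]; exact min_le_left _ _
    have hη2 : 8 * (η * L2) ≤ ε := by
      have : η ≤ ε / (8 * L2) := by rw [hη]; exact (min_le_right _ _).trans (min_le_left _ _)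
      rw [le_div_iff₀ (by positivity)] at this
      linarith
    have hη3 : η * L2 ≤ H := by
      have : η ≤ H / L2 := by rw [hη]; exact (min_le_right _ _).trans (min_le_right _ _)
      rwa [le_div_iff₀ hL20] at this
    obtain ⟨K1, hK1⟩ := eventually_atTop.1 (ev_log (1 / p + 1) (1 + n₁ * log 3 + 2 * ε1) (by positivity)
      (show 0 < ε / 8 by positivity))
    obtain ⟨K2, hK2⟩ := eventually_atTop.1 (ev_exp (show 0 < η ^ 2 * p ^ 2 / 16 by positivity)
      (show 0 < ε / (8 * H) by positivity))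
    refine ⟨max 1 (max K1 K2), fun k hk => ?_⟩
    have hk1 : 1 ≤ k := (le_max_left _ _).trans hk
    have e1 := hK1 k (((le_max_left _ _).trans (le_max_right _ _)).trans hk)
    have e2 := hK2 k (((le_max_right _ _).trans (le_max_right _ _)).trans hk)
    have hk0 : (1 : ℝ) ≤ k := by exact_mod_cast hk1
    obtain ⟨N, hN⟩ : ∃ N, N = ⌈R * k⌉₊ := ⟨_, rfl⟩
    have hN1 : R * k ≤ N := by rw [hN]; exact Nat.le_ceil _
    have hN2 : (N : ℝ) ≤ R * k + 1 := by
      rw [hN]
      exact (Nat.ceil_lt_add_one (by positivity)).le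
    have hHe := H_eq hp0 hq0
    rw [← hL2, ← hH] at hHe
    have hcoef : k * log ((1 - p) / p) + (1 / p - η) * k * log (1 / (1 - p)) = k * (H - η * L2) := by
      rw [← hL2, ← hHe]
      ring
    have hM : (3 : ℝ) ^ k * (2 : ℝ) ^ ((1 / p + η) * k) < 3 ^ (k + N) := by
      rw [pow_add]
      refine mul_lt_mul_of_pos_left ?_ (by positivity)
      rw [← log_lt_log_iff (by positivity) (by positivity), log_rpow (by norm_num), log_pow]
      have h1 := mul_le_mul_of_nonneg_right hN1 hl3.le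
      have h2 : R * k * log 3 = (1 / p + 1) * k * log 2 + k * log 3 := by
        rw [hR]
        field_simp
      have h3 : (1 / p + η) * k * log 2 ≤ (1 / p + 1) * k * log 2 := by
        refine mul_le_mul_of_nonneg_right ?_ hl2.le
        exact mul_le_mul_of_nonneg_right (by linarith) (by linarith)
      have h4 : 0 < k * log 3 := by positivity
      linarith
    have h1 := E_total hL hη0 hη1 hk1 (k + N) (by rw [hcoef]; exact mul_nonneg (by linarith) (by linarith)) hM
    rw [hcoef] at h1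
    have h2 := key k N
    have h3 : ((min N n₁ : ℕ) : ℝ) * log 3 ≤ n₁ * log 3 := by
      refine mul_le_mul_of_nonneg_right ?_ hl3.le
      exact_mod_cast min_le_right _ _
    have h4 : (N : ℝ) * (2 * ε1) ≤ (R * k + 1) * (2 * ε1) := mul_le_mul_of_nonneg_right hN2 (by positivity)
    have h5 : R * k * (2 * ε1) ≤ ε / 8 * k := by nlinarith
    have h6 : k * (H - η * L2) * (2 * exp (-(η ^ 2 * p ^ 2 / 16 * k))) ≤ k * (ε / 8) := by
      have a1 : k * (H - η * L2) ≤ k * H := by
        refine mul_le_mul_of_nonneg_left ?_ (by linarith)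
        have : 0 < η * L2 := by positivity
        linarith
      have a2 : k * (H - η * L2) * (2 * exp (-(η ^ 2 * p ^ 2 / 16 * k))) ≤ k * H * (ε / (8 * H)) := by
        refine mul_le_mul a1 e2 (by positivity) (by positivity)
      have a3 : k * H * (ε / (8 * H)) = k * (ε / 8) := by field_simp
      linarith
    have h7 : k * (η * L2) ≤ k * (ε / 8) := mul_le_mul_of_nonneg_left (by linarith) (by linarith)
    have h8 : min (log 3) H ≤ H := min_le_right _ _
    have h9 := mul_le_mul_of_nonneg_right h8 (show (0 : ℝ) ≤ k by linarith)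
    nlinarith

end Pool.Agent.H623.WP
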