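import Pool.Agent.H623.WP.C

/-!
# Small sets of classes have small mass
-/

set_option autoImplicit false
set_option linter.unusedVariables false

namespace Pool.Agent.H623.WP

open Finset Real Pool.Agent.H320R2.PD Pool.Agent.H377R2.NK Pool.Agent.H623.TP
open Filter Topology
open Pool.Agent.H623.TP.GPA (qp_of_mem)

/-- the dimension in natural logarithmic units: `min (log 3) (H(p) / p)` -/
noncomputable def hs (p : ℝ) : ℝ := min (log 3) (binEntropy p / p)

theorem sum_T_le_one {p : ℝ} [Tilt p] (A m T : ℕ) : ∑ w ∈ FWT A m T, qp p w ≤ 1 := by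
  refine le_trans ?_ (sum_qp_le (τ := p) A m)
  unfold FWT
  exact sum_le_sum_of_subset_of_nonneg (filter_subset _ _) fun w _ _ => (qp_pos w).le

theorem card_FWT {p : ℝ} [Tilt p] (A m T : ℕ) :
    ((FWT A m T).card : ℝ) ≤ exp (m * log ((1 - p) / p) + T * log (1 / (1 - p))) := by
  have hp0 : 0 < p := Tilt.pos
  have hq0 : 0 < 1 - p := Tilt.lt
  have h1 := sum_T_le_one (p := p) A m T
  rw [sum_congr rfl (fun w hw => qp_of_mem hw), sum_const, nsmul_eq_mul] at h1
  have e : exp (m * log ((1 - p) / p) + T * log (1 / (1 - p))) * ((p / (1 - p)) ^ m * (1 - p) ^ T) = 1 := by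
    rw [exp_add, mul_comm (m : ℝ), mul_comm (T : ℝ), exp_mul, exp_mul, exp_log (by positivity),
      exp_log (by positivity), rpow_natCast, rpow_natCast]
    have e1 : ((1 - p) / p) ^ m * (p / (1 - p)) ^ m = 1 := by
      rw [← mul_pow]
      have : (1 - p) / p * (p / (1 - p)) = 1 := by field_simp
      rw [this, one_pow]
    have e2 : (1 / (1 - p)) ^ T * (1 - p) ^ T = 1 := by
      rw [← mul_pow]
      have : 1 / (1 - p) * (1 - p) = 1 := by field_simp
      rw [this, one_pow]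
    calc ((1 - p) / p) ^ m * (1 / (1 - p)) ^ T * ((p / (1 - p)) ^ m * (1 - p) ^ T)
        = (((1 - p) / p) ^ m * (p / (1 - p)) ^ m) * ((1 / (1 - p)) ^ T * (1 - p) ^ T) := by ring
      _ = 1 := by rw [e1, e2, one_mul]
  have hpos : 0 < (p / (1 - p)) ^ m * (1 - p) ^ T := by positivity
  exact le_of_mul_le_mul_right (h1.trans (le_of_eq e.symm)) hpos

open scoped Classical in
theorem card_nz {p : ℝ} [Tilt p] (A m T : ℕ) :
    ((range (3 ^ m)).filter fun c : ℕ => cnt (FWT A m T) (qp p) (fun w => (Wo w : ℤ)) m (c : ℤ) ≠ 0).card ≤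
      (FWT A m T).card := by
  refine (card_le_card (t := (FWT A m T).image fun w => Wo w % 3 ^ m) ?_).trans card_image_le
  intro c hc
  rw [mem_filter, mem_range] at hc
  rw [mem_image]
  by_contra h
  push Not at h
  apply hc.2
  unfold cnt
  apply sum_eq_zero
  intro w hw
  rw [if_neg]
  intro hd
  apply h w hw
  have h1 : ((Wo w : ℤ)) % ((3 ^ m : ℕ) : ℤ) = (c : ℤ) % ((3 ^ m : ℕ) : ℤ) :=
    Int.emod_eq_emod_iff_emod_sub_eq_zero.2 (Int.emod_eq_zero_of_dvd (by push_cast; exact hd))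
  have h2 : Wo w % 3 ^ m = c % 3 ^ m := by exact_mod_cast h1
  rw [h2, Nat.mod_eq_of_lt hc.1]

open scoped Classical in
theorem En_typ {p : ℝ} [Tilt p] {A m T : ℕ} {η : ℝ} (hη : 0 < η) (hT : (T : ℝ) ≤ (1 / p + η) * m)
    {B : Finset ℕ} (hB : B ⊆ range (3 ^ m)) {N Z : ℝ} (hN : 0 < N) (hZ : 0 < Z) (hBN : (B.card : ℝ) ≤ N) :
    En (FWT A m T) (qp p) (fun w => (Wo w : ℤ)) m ≤
      (∑ c ∈ B, cnt (FWT A m T) (qp p) (fun w => (Wo w : ℤ)) m (c : ℤ)) * log (N * Z) +
      (∑ w ∈ FWT A m T, qp p w - ∑ c ∈ B, cnt (FWT A m T) (qp p) (fun w => (Wo w : ℤ)) m (c : ℤ)) *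
        log (exp ((hs p + η * log (1 / (1 - p))) * m) * Z) + 2 / Z := by
  have hp0 : 0 < p := Tilt.pos
  have hq0 : 0 < 1 - p := Tilt.lt
  have hL20 : 0 < log (1 / (1 - p)) := log_pos (by rw [lt_div_iff₀ hq0]; linarith)
  set x : ℕ → ℝ := fun c => cnt (FWT A m T) (qp p) (fun w => (Wo w : ℤ)) m (c : ℤ) with hx
  have hx0 : ∀ c, 0 ≤ x c := fun c => ent_cnt_nonneg _ _ _ fun w _ => (qp_pos w).le
  have hxs : ∑ c ∈ range (3 ^ m), x c = ∑ w ∈ FWT A m T, qp p w := ent_cnt_sum _ _ _ _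
  set R : ℝ := exp ((hs p + η * log (1 / (1 - p))) * m) with hR
  have hR0 : 0 < R := exp_pos _
  have hW0 : 0 ≤ ∑ w ∈ FWT A m T, qp p w := sum_nonneg fun w _ => (qp_pos w).le
  have h1 : 0 ≤ negMulLog (∑ w ∈ FWT A m T, qp p w) := negMulLog_nonneg hW0 (sum_T_le_one A m T)
  have h2 : ∑ c ∈ B, negMulLog (x c) ≤ (∑ c ∈ B, x c) * log (N * Z) + 1 / Z := by
    have h3 : ∑ c ∈ B, negMulLog (x c) ≤ ∑ c ∈ B, (x c * log (N * Z) + 1 / (N * Z)) :=
      sum_le_sum fun c _ => nml_le (hx0 c) (by positivity)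
    refine h3.trans ?_
    rw [sum_add_distrib, ← sum_mul, sum_const, nsmul_eq_mul]
    have h4 : (B.card : ℝ) * (1 / (N * Z)) ≤ 1 / Z := by
      rw [mul_one_div, div_le_div_iff₀ (by positivity) hZ, one_mul]
      exact mul_le_mul_of_nonneg_right hBN hZ.le
    linarith
  have hcard : (((range (3 ^ m)).filter fun c : ℕ => x c ≠ 0).card : ℝ) ≤ R := by
    have h3 : (((range (3 ^ m)).filter fun c : ℕ => x c ≠ 0).card : ℝ) ≤ exp (log 3 * m) := by
      rw [exp_mul, exp_log (by norm_num), rpow_natCast]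
      have := card_filter_le (range (3 ^ m)) fun c : ℕ => x c ≠ 0
      rw [card_range] at this
      exact_mod_cast this
    have h4 : (((range (3 ^ m)).filter fun c : ℕ => x c ≠ 0).card : ℝ) ≤
        exp (m * log ((1 - p) / p) + T * log (1 / (1 - p))) := by
      refine le_trans ?_ (card_FWT A m T)
      exact_mod_cast card_nz A m T
    rw [hR]
    rcases le_total (log 3) (binEntropy p / p) with h | h
    · refine h3.trans (exp_le_exp.2 ?_)
      unfold hs
      rw [min_eq_left h]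
      refine mul_le_mul_of_nonneg_right ?_ (Nat.cast_nonneg _)
      have : 0 < η * log (1 / (1 - p)) := by positivity
      linarith
    · refine h4.trans (exp_le_exp.2 ?_)
      unfold hs
      rw [min_eq_right h, ← H_eq hp0 hq0]
      have h5 := mul_le_mul_of_nonneg_right hT hL20.le
      have e : (log ((1 - p) / p) + 1 / p * log (1 / (1 - p)) + η * log (1 / (1 - p))) * m =
          m * log ((1 - p) / p) + (1 / p + η) * m * log (1 / (1 - p)) := by ring
      rw [e]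
      linarith
  have h5 : ∑ c ∈ range (3 ^ m) \ B, negMulLog (x c) ≤
      (∑ c ∈ range (3 ^ m) \ B, x c) * log (R * Z) + 1 / Z := by
    have h3 : ∑ c ∈ range (3 ^ m) \ B, negMulLog (x c) ≤
        ∑ c ∈ range (3 ^ m) \ B, (x c * log (R * Z) + if x c ≠ 0 then 1 / (R * Z) else 0) := by
      refine sum_le_sum fun c _ => ?_
      split_ifs with h
      · exact nml_le (hx0 c) (by positivity)
      · rw [not_ne_iff.1 h]; simp
    refine h3.trans ?_
    rw [sum_add_distrib, ← sum_mul]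
    have h4 : ∑ c ∈ range (3 ^ m) \ B, (if x c ≠ 0 then 1 / (R * Z) else 0) ≤ 1 / Z := by
      have h6 : ∑ c ∈ range (3 ^ m) \ B, (if x c ≠ 0 then 1 / (R * Z) else 0) ≤
          ∑ c ∈ range (3 ^ m), (if x c ≠ 0 then 1 / (R * Z) else 0) :=
        sum_le_sum_of_subset_of_nonneg sdiff_subset fun c _ _ => by split_ifs <;> positivity
      refine h6.trans ?_
      rw [← sum_filter, sum_const, nsmul_eq_mul, mul_one_div, div_le_div_iff₀ (by positivity) hZ, one_mul]
      exact mul_le_mul_of_nonneg_right hcard hZ.le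
    linarith
  have h6 : ∑ c ∈ range (3 ^ m) \ B, x c = ∑ w ∈ FWT A m T, qp p w - ∑ c ∈ B, x c := by
    rw [← hxs, ← sum_sdiff hB]
    ring
  have h7 : ∑ c ∈ range (3 ^ m), negMulLog (x c) = ∑ c ∈ range (3 ^ m) \ B, negMulLog (x c) +
      ∑ c ∈ B, negMulLog (x c) := (sum_sdiff hB).symm
  rw [h6] at h5
  have e : En (FWT A m T) (qp p) (fun w => (Wo w : ℤ)) m =
      ∑ c ∈ range (3 ^ m), negMulLog (x c) - negMulLog (∑ w ∈ FWT A m T, qp p w) := rfl
  rw [e, h7]
  have e2 : (2 : ℝ) / Z = 1 / Z + 1 / Z := by ring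
  rw [e2]
  linarith

open scoped Classical in
theorem atyp {p : ℝ} [Tilt p] (A m : ℕ) {η : ℝ} (hη : 0 < η) (hη1 : η ≤ 1) :
    ∑ T ∈ (range (m * A + 1)).filter (fun T : ℕ => ¬ |(T : ℝ) - m / p| ≤ η * m), ∑ w ∈ FWT A m T, qp p w ≤
      2 * exp (-(η ^ 2 * p ^ 2 / 16 * m)) := by
  have hp0 : 0 < p := Tilt.pos
  have hq0 : 0 < 1 - p := Tilt.lt
  refine le_trans ?_ (tail' hp0 (by linarith) A m hη hη1)
  have hmaps : ∀ w ∈ (FW A m).filter (fun w => η * m ≤ |(w.sum : ℝ) - m / p|), w.sum ∈ range (m * A + 1) := by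
    intro w hw
    rw [mem_filter] at hw
    rw [mem_range]
    have := (sum_le_of_mem hw.1).2
    omega
  rw [← sum_fiberwise_of_maps_to hmaps (qp p)]
  refine le_trans ?_ (sum_le_sum_of_subset_of_nonneg (filter_subset
    (fun T : ℕ => ¬ |(T : ℝ) - m / p| ≤ η * m) _) fun T _ _ => sum_nonneg fun w _ => (qp_pos w).le)
  refine sum_le_sum fun T hT => ?_
  rw [mem_filter] at hT
  refine sum_le_sum_of_subset_of_nonneg ?_ fun w _ _ => (qp_pos w).le
  intro w hw
  unfold FWT at hw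
  rw [mem_filter] at hw
  rw [mem_filter, mem_filter]
  refine ⟨⟨hw.1, ?_⟩, hw.2⟩
  rw [hw.2]
  exact (not_le.1 hT.2).le

open scoped Classical in
theorem EE_small {p : ℝ} [Tilt p] {A m : ℕ} {η δ : ℝ} (hη : 0 < η) (hη1 : η ≤ 1) (hδ : 0 < δ) (hm : 1 ≤ m)
    (B : ℕ → Finset ℕ) (hB : ∀ T, B T ⊆ range (3 ^ m))
    (hBN : ∀ T, ((B T).card : ℝ) ≤ exp ((hs p - δ) * m)) :
    EE p A m m ≤ (hs p + η * log (1 / (1 - p))) * m + log ((1 / p + 1) * m + 1) + 2
      - (∑ T ∈ (range (m * A + 1)).filter (fun T : ℕ => |(T : ℝ) - m / p| ≤ η * m),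
        ∑ c ∈ B T, cnt (FWT A m T) (qp p) (fun w => (Wo w : ℤ)) m (c : ℤ)) * (δ * m)
      + m * log 3 * (2 * exp (-(η ^ 2 * p ^ 2 / 16 * m))) := by
  have hp0 : 0 < p := Tilt.pos
  have hq0 : 0 < 1 - p := Tilt.lt
  have hm0 : (0 : ℝ) < m := by exact_mod_cast hm
  have hl3 : 0 < log 3 := log_pos (by norm_num)
  have hL20 : 0 < log (1 / (1 - p)) := log_pos (by rw [lt_div_iff₀ hq0]; linarith)
  set P : ℕ → Prop := fun T => |(T : ℝ) - m / p| ≤ η * m with hP
  set Z : ℝ := (1 / p + 1) * m + 1 with hZ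
  have hZ1 : 1 ≤ Z := by
    have : 0 ≤ (1 / p + 1) * (m : ℝ) := by positivity
    linarith
  have hZ0 : 0 < Z := by linarith
  set X : ℕ → ℝ := fun T => ∑ c ∈ B T, cnt (FWT A m T) (qp p) (fun w => (Wo w : ℤ)) m (c : ℤ) with hX
  set W : ℕ → ℝ := fun T => ∑ w ∈ FWT A m T, qp p w with hW
  have hX0 : ∀ T, 0 ≤ X T := fun T => sum_nonneg fun c _ => ent_cnt_nonneg _ _ _ fun w _ => (qp_pos w).le
  have hXW : ∀ T, X T ≤ W T := by
    intro T
    show X T ≤ ∑ w ∈ FWT A m T, qp p w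
    rw [← ent_cnt_sum (FWT A m T) (qp p) (fun w => (Wo w : ℤ)) m]
    exact sum_le_sum_of_subset_of_nonneg (hB T) fun c _ _ => ent_cnt_nonneg _ _ _ fun w _ => (qp_pos w).le
  have hh0 : 0 ≤ hs p := by
    unfold hs
    exact le_min hl3.le (div_nonneg (binEntropy_nonneg hp0.le (by linarith)) hp0.le)
  set a : ℝ := (hs p + η * log (1 / (1 - p))) * m with ha
  have ha0 : 0 ≤ a := by positivity
  have h1 : EE p A m m = ∑ T ∈ (range (m * A + 1)).filter P, En (FWT A m T) (qp p) (fun w => (Wo w : ℤ)) m +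
      ∑ T ∈ (range (m * A + 1)).filter (fun T => ¬ P T), En (FWT A m T) (qp p) (fun w => (Wo w : ℤ)) m := by
    unfold EE
    rw [sum_filter_add_sum_filter_not]
  have h2 : ∑ T ∈ (range (m * A + 1)).filter (fun T => ¬ P T), En (FWT A m T) (qp p) (fun w => (Wo w : ℤ)) m ≤
      m * log 3 * (2 * exp (-(η ^ 2 * p ^ 2 / 16 * m))) := by
    have h3 := mul_le_mul_of_nonneg_left (atyp (p := p) A m hη hη1) (show 0 ≤ m * log 3 by positivity)
    refine le_trans ?_ h3
    rw [mul_sum]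
    exact sum_le_sum fun T _ => En_le' _ m fun w _ => (qp_pos w).le
  have h4 : ∀ T ∈ (range (m * A + 1)).filter P, En (FWT A m T) (qp p) (fun w => (Wo w : ℤ)) m ≤
      W T * (a + log Z) - X T * (δ * m) + 2 / Z := by
    intro T hT
    rw [mem_filter] at hT
    have hT1 : (T : ℝ) ≤ (1 / p + η) * m := by
      have := (abs_le.1 hT.2).2
      have e : (1 / p + η) * (m : ℝ) = m / p + η * m := by ring
      linarith
    have h5 := En_typ (p := p) (A := A) hη hT1 (hB T) (exp_pos _) hZ0 (hBN T)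
    have e1 : log (exp ((hs p - δ) * m) * Z) = (hs p - δ) * m + log Z := by
      rw [log_mul (exp_pos _).ne' hZ0.ne', log_exp]
    have e2 : log (exp ((hs p + η * log (1 / (1 - p))) * m) * Z) = a + log Z := by
      rw [log_mul (exp_pos _).ne' hZ0.ne', log_exp]
    rw [e1, e2] at h5
    refine h5.trans ?_
    have h6 : X T * ((hs p - δ) * m + log Z) ≤ X T * (a + log Z - δ * m) := by
      refine mul_le_mul_of_nonneg_left ?_ (hX0 T)
      have h7 : 0 ≤ η * log (1 / (1 - p)) * m := by positivity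
      have e3 : a = hs p * m + η * log (1 / (1 - p)) * m := by rw [ha]; ring
      linarith
    have e4 : (∑ c ∈ B T, cnt (FWT A m T) (qp p) (fun w => (Wo w : ℤ)) m (c : ℤ)) = X T := rfl
    have e5 : ∑ w ∈ FWT A m T, qp p w = W T := rfl
    rw [e4, e5]
    nlinarith
  have h5 := sum_le_sum h4
  rw [sum_add_distrib, sum_sub_distrib, ← sum_mul, ← sum_mul, sum_const, nsmul_eq_mul] at h5
  have h6 : ∑ T ∈ (range (m * A + 1)).filter P, W T ≤ 1 := by
    refine le_trans ?_ (mas_le (τ := p) A m)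
    rw [← mas_T]
    exact sum_le_sum_of_subset_of_nonneg (filter_subset _ _) fun T _ _ => sum_nonneg fun w _ => (qp_pos w).le
  have h7 : 0 ≤ log Z := log_nonneg hZ1
  have h8 : (∑ T ∈ (range (m * A + 1)).filter P, W T) * (a + log Z) ≤ 1 * (a + log Z) :=
    mul_le_mul_of_nonneg_right h6 (by linarith)
  have h9 : (((range (m * A + 1)).filter P).card : ℝ) * (2 / Z) ≤ 2 := by
    have h10 : (((range (m * A + 1)).filter P).card : ℝ) ≤ Z := by
      have h11 : ((range (m * A + 1)).filter P).card ≤ ⌊(1 / p + 1) * m⌋₊ + 1 := by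
        refine (card_le_card (t := range (⌊(1 / p + 1) * (m : ℝ)⌋₊ + 1)) ?_).trans (by rw [card_range])
        intro T hT
        rw [mem_filter] at hT
        rw [mem_range, Nat.lt_add_one_iff]
        apply Nat.le_floor
        have h12 := (abs_le.1 hT.2).2
        have h13 : η * m ≤ 1 * m := mul_le_mul_of_nonneg_right hη1 hm0.le
        have e : (1 / p + 1) * (m : ℝ) = m / p + 1 * m := by ring
        linarith
      have h14 : ((⌊(1 / p + 1) * (m : ℝ)⌋₊ + 1 : ℕ) : ℝ) ≤ Z := by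
        push_cast
        have := Nat.floor_le (a := (1 / p + 1) * (m : ℝ)) (by positivity)
        linarith
      refine le_trans ?_ h14
      exact_mod_cast h11
    rw [← mul_div_assoc, div_le_iff₀ hZ0]
    linarith
  rw [h1]
  linarith

open scoped Classical in
/-- small sets of classes have a small mass -/
theorem small_sets (p : ℝ) [Tilt p] {δ ε : ℝ} (hδ : 0 < δ) (hε : 0 < ε) : ∃ m₀ : ℕ, ∀ m, m₀ ≤ m →
    ∀ᶠ A in UF, ∀ B : ℕ → Finset ℕ, (∀ T, B T ⊆ range (3 ^ m)) →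
      (∀ T, ((B T).card : ℝ) ≤ exp ((hs p - δ) * m)) →
      ∑ T ∈ range (m * A + 1), ∑ c ∈ B T, cnt (FWT A m T) (qp p) (fun w => (Wo w : ℤ)) m (c : ℤ) ≤ ε := by
  have hp0 : 0 < p := Tilt.pos
  have hq0 : 0 < 1 - p := Tilt.lt
  have hl3 : 0 < log 3 := log_pos (by norm_num)
  obtain ⟨G, E, hL⟩ := exists_Lim p
  obtain ⟨L2, hL2⟩ : ∃ L2, L2 = log (1 / (1 - p)) := ⟨_, rfl⟩
  have hL20 : 0 < L2 := by rw [hL2]; exact log_pos (by rw [lt_div_iff₀ hq0]; linarith)
  obtain ⟨ε1, hε1⟩ : ∃ ε1, ε1 = ε * δ / 16 := ⟨_, rfl⟩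
  have hε10 : 0 < ε1 := by rw [hε1]; positivity
  obtain ⟨η, hη⟩ : ∃ η, η = min 1 (ε1 / L2) := ⟨_, rfl⟩
  have hη0 : 0 < η := by rw [hη]; exact lt_min one_pos (by positivity)
  have hη1 : η ≤ 1 := by rw [hη]; exact min_le_left _ _
  have hη2 : η * L2 ≤ ε1 := by
    have : η ≤ ε1 / L2 := by rw [hη]; exact min_le_right _ _
    rwa [le_div_iff₀ hL20] at this
  obtain ⟨m₁, hm₁⟩ := main_ent hL hε10
  obtain ⟨K1, hK1⟩ := eventually_atTop.1 (ev_log (1 / p + 1) 2 (by positivity) hε10)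
  obtain ⟨K2, hK2⟩ := eventually_atTop.1 (ev_exp (show 0 < η ^ 2 * p ^ 2 / 16 by positivity)
    (show 0 < min (ε / 2) (ε1 / log 3) from lt_min (by positivity) (by positivity)))
  refine ⟨max (max 1 m₁) (max K1 K2), fun m hm => ?_⟩
  have hm1 : 1 ≤ m := ((le_max_left _ _).trans (le_max_left _ _)).trans hm
  have hm2 := hm₁ m (((le_max_right _ _).trans (le_max_left _ _)).trans hm)
  have e1 := hK1 m (((le_max_left _ _).trans (le_max_right _ _)).trans hm)
  have e2 := hK2 m (((le_max_right _ _).trans (le_max_right _ _)).trans hm)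
  have hm0 : (1 : ℝ) ≤ m := by exact_mod_cast hm1
  have hEE : ∀ᶠ A in UF, (hs p - 2 * ε1) * m < EE p A m m := by
    refine (tendsto_order.1 (hL.e m m)).1 _ ?_
    have h1 : (hs p - ε1) * m ≤ E m m := hm2
    nlinarith
  filter_upwards [hEE] with A hA B hB hBN
  have h1 := EE_small (p := p) (A := A) hη0 hη1 hδ hm1 B hB hBN
  set X : ℝ := ∑ T ∈ (range (m * A + 1)).filter (fun T : ℕ => |(T : ℝ) - m / p| ≤ η * m),
        ∑ c ∈ B T, cnt (FWT A m T) (qp p) (fun w => (Wo w : ℤ)) m (c : ℤ) with hX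
  rw [← hL2] at h1
  have h2 : m * log 3 * (2 * exp (-(η ^ 2 * p ^ 2 / 16 * m))) ≤ m * ε1 := by
    have h3 : 2 * exp (-(η ^ 2 * p ^ 2 / 16 * m)) ≤ ε1 / log 3 := e2.trans (min_le_right _ _)
    have h4 := mul_le_mul_of_nonneg_left h3 (show 0 ≤ m * log 3 by positivity)
    have h5 : m * log 3 * (ε1 / log 3) = m * ε1 := by field_simp
    linarith
  have h3 : X * (δ * m) ≤ 5 * ε1 * m := by nlinarith
  have h4 : X ≤ ε / 2 := by
    have h5 : X * δ ≤ 5 * ε1 := by
      have : X * δ * m ≤ 5 * ε1 * m := by linarith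
      exact le_of_mul_le_mul_right this (by linarith)
    have h6 : X * δ ≤ ε / 2 * δ := by rw [hε1] at h5; nlinarith
    exact le_of_mul_le_mul_right h6 hδ
  have h5 := atyp (p := p) A m hη0 hη1
  have h6 : ∑ T ∈ (range (m * A + 1)).filter (fun T : ℕ => ¬ |(T : ℝ) - m / p| ≤ η * m),
      ∑ c ∈ B T, cnt (FWT A m T) (qp p) (fun w => (Wo w : ℤ)) m (c : ℤ) ≤ ε / 2 := by
    refine le_trans (sum_le_sum fun T _ => ?_) (h5.trans (e2.trans (min_le_left _ _)))
    rw [← ent_cnt_sum (FWT A m T) (qp p) (fun w => (Wo w : ℤ)) m]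
    exact sum_le_sum_of_subset_of_nonneg (hB T) fun c _ _ => ent_cnt_nonneg _ _ _ fun w _ => (qp_pos w).le
  rw [← sum_filter_add_sum_filter_not (range (m * A + 1)) (fun T : ℕ => |(T : ℝ) - m / p| ≤ η * m)]
  linarith

end Pool.Agent.H623.WP
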