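import Pool.Agent.H623.WP.D
import Pool.Agent.H623.TP.T_MODE

/-!
# The local upper bound of the binomial laws
-/

set_option autoImplicit false
set_option linter.unusedVariables false

namespace Pool.Agent.H623.WP

open Finset Pool.Agent.H623.TP

variable (τ : ℝ) [Tilt τ]

theorem bep_nonneg (k i : ℕ) : 0 ≤ bep τ k i := by
  have hp0 : 0 < τ := Tilt.pos
  have hq0 : 0 < 1 - τ := Tilt.lt
  unfold bep
  positivity

theorem bep_zero_zero : bep τ 0 0 = 1 := by simp [bep]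

theorem bep_zero_succ (i : ℕ) : bep τ 0 (i + 1) = 0 := by simp [bep]

theorem bep_big {k i : ℕ} (h : k < i) : bep τ k i = 0 := by
  have hp0 : 0 < τ := Tilt.pos
  have hq0 : 0 < 1 - τ := Tilt.lt
  unfold bep
  rw [Nat.choose_eq_zero_of_lt h]
  simp

theorem bep_succ_zero (k : ℕ) : bep τ (k + 1) 0 = (1 - τ) * bep τ k 0 := by
  have hp0 : 0 < τ := Tilt.pos
  have hq0 : 0 < 1 - τ := Tilt.lt
  unfold bep
  simp [pow_succ]
  ring

theorem bep_succ_succ (k i : ℕ) : bep τ (k + 1) (i + 1) = (1 - τ) * bep τ k (i + 1) + τ * bep τ k i := by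
  have hp0 : 0 < τ := Tilt.pos
  have hq0 : 0 < 1 - τ := Tilt.lt
  unfold bep
  rw [Nat.choose_succ_succ]
  push_cast
  simp only [Nat.succ_eq_add_one]
  rw [pow_succ τ]
  rcases Nat.lt_or_ge i k with h | h
  · have e2 : k - i = (k - (i + 1)) + 1 := by omega
    rw [e2, pow_succ (1 - τ)]
    ring
  · rw [Nat.choose_eq_zero_of_lt (show k < i + 1 by omega)]
    push_cast
    ring

theorem bep_sum_succ (k : ℕ) (F : ℕ → ℝ) : ∑ i ∈ range (k + 2), bep τ (k + 1) i * F i =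
    ∑ i ∈ range (k + 1), bep τ k i * ((1 - τ) * F i + τ * F (i + 1)) := by
  have hp0 : 0 < τ := Tilt.pos
  have hq0 : 0 < 1 - τ := Tilt.lt
  rw [sum_range_succ']
  simp only [bep_succ_succ τ, bep_succ_zero τ]
  have h1 : ∑ i ∈ range (k + 1), ((1 - τ) * bep τ k (i + 1) + τ * bep τ k i) * F (i + 1) =
      ∑ i ∈ range (k + 1), (1 - τ) * (bep τ k (i + 1) * F (i + 1)) +
      ∑ i ∈ range (k + 1), bep τ k i * (τ * F (i + 1)) := by
    rw [← sum_add_distrib]
    exact sum_congr rfl fun i _ => by ring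
  have h2 : ∑ i ∈ range (k + 1), bep τ k (i + 1) * F (i + 1) + bep τ k 0 * F 0 =
      ∑ i ∈ range (k + 1), bep τ k i * F i := by
    have := sum_range_succ' (fun i => bep τ k i * F i) (k + 1)
    rw [← this, sum_range_succ, bep_big τ (show k < k + 1 by omega), zero_mul, add_zero]
  have h3 : ∑ i ∈ range (k + 1), bep τ k i * ((1 - τ) * F i + τ * F (i + 1)) =
      (1 - τ) * ∑ i ∈ range (k + 1), bep τ k i * F i + ∑ i ∈ range (k + 1), bep τ k i * (τ * F (i + 1)) := by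
    rw [mul_sum, ← sum_add_distrib]
    exact sum_congr rfl fun i _ => by ring
  rw [h1, h3, ← h2, ← mul_sum]
  ring

theorem bep_total (k : ℕ) : ∑ i ∈ range (k + 1), bep τ k i = 1 := by
  have hp0 : 0 < τ := Tilt.pos
  have hq0 : 0 < 1 - τ := Tilt.lt
  induction k with
  | zero => simp [bep_zero_zero τ]
  | succ k ih =>
    have := bep_sum_succ τ k (fun _ => 1)
    simp only [mul_one] at this
    refine this.trans (Eq.trans (sum_congr rfl fun i _ => ?_) ih)
    ring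

theorem bep_sum_le (k M : ℕ) : ∑ i ∈ range M, bep τ k i ≤ 1 := by
  have hp0 : 0 < τ := Tilt.pos
  have hq0 : 0 < 1 - τ := Tilt.lt
  rw [← bep_total τ k]
  rcases Nat.le_total M (k + 1) with h | h
  · exact sum_le_sum_of_subset_of_nonneg (range_subset_range.2 h) fun i _ _ => bep_nonneg τ k i
  · apply le_of_eq
    symm
    apply sum_subset (range_subset_range.2 h)
    intro i _ hi
    rw [mem_range, not_lt] at hi
    exact bep_big τ (by omega)

theorem bep_var0 (k : ℕ) : ∑ i ∈ range (k + 1), bep τ k i * ((i : ℝ) - (k : ℝ) * τ) = 0 := by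
  have hp0 : 0 < τ := Tilt.pos
  have hq0 : 0 < 1 - τ := Tilt.lt
  induction k with
  | zero => norm_num [bep_zero_zero τ]
  | succ k ih =>
    have h := bep_sum_succ τ k (fun i => (i : ℝ) - ((k + 1 : ℕ) : ℝ) * τ)
    refine h.trans (Eq.trans (sum_congr rfl fun i _ => ?_) ih)
    push_cast
    ring

theorem bep_var (k : ℕ) : ∑ i ∈ range (k + 1), bep τ k i * ((i : ℝ) - (k : ℝ) * τ) ^ 2 =
    τ * (1 - τ) * (k : ℝ) := by
  have hp0 : 0 < τ := Tilt.pos
  have hq0 : 0 < 1 - τ := Tilt.lt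
  induction k with
  | zero => norm_num [bep_zero_zero τ]
  | succ k ih =>
    have h0 := bep_var0 τ k
    have h := bep_sum_succ τ k (fun i => ((i : ℝ) - ((k + 1 : ℕ) : ℝ) * τ) ^ 2)
    refine h.trans ?_
    have h1 : ∀ i ∈ range (k + 1), bep τ k i * ((1 - τ) * ((i : ℝ) - ((k + 1 : ℕ) : ℝ) * τ) ^ 2 +
        τ * (((i + 1 : ℕ) : ℝ) - ((k + 1 : ℕ) : ℝ) * τ) ^ 2) =
        bep τ k i * ((i : ℝ) - (k : ℝ) * τ) ^ 2 + τ * (1 - τ) * bep τ k i := by
      intro i _
      push_cast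
      ring
    rw [sum_congr rfl h1, sum_add_distrib, ih, ← mul_sum, bep_total τ]
    push_cast
    ring

theorem bep_diff (k i : ℕ) : bep τ k i - bep τ k (i + 1) =
    1 / (τ * (1 - τ) * (k + 1)) * (bep τ (k + 1) (i + 1) * (((i + 1 : ℕ) : ℝ) - ((k + 1 : ℕ) : ℝ) * τ)) := by
  have hp0 : 0 < τ := Tilt.pos
  have hq0 : 0 < 1 - τ := Tilt.lt
  have h1 : ((i : ℝ) + 1) * bep τ (k + 1) (i + 1) = (k + 1) * τ * bep τ k i := by
    unfold bep
    have h := Nat.add_one_mul_choose_eq k i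
    have h' : ((k : ℝ) + 1) * (k.choose i : ℝ) = ((k + 1).choose (i + 1) : ℝ) * ((i : ℝ) + 1) := by
      exact_mod_cast h
    have e1 : k + 1 - (i + 1) = k - i := by omega
    rw [e1, pow_succ τ]
    linear_combination (-τ ^ i * τ * (1 - τ) ^ (k - i)) * h'
  have h2 := bep_succ_succ τ k i
  have hk : (0 : ℝ) < k + 1 := by positivity
  have h3 : ((k : ℝ) + 1) * ((1 - τ) * bep τ k (i + 1)) = ((k : ℝ) - i) * bep τ (k + 1) (i + 1) := by
    have : (1 - τ) * bep τ k (i + 1) = bep τ (k + 1) (i + 1) - τ * bep τ k i := by linarith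
    rw [this]
    linear_combination h1
  push_cast
  rw [← sub_eq_zero]
  field_simp
  nlinarith [h1, h3]

theorem bep_shift0 (k M : ℕ) : ∑ i ∈ range M, |bep τ k i - bep τ k (i + 1)| ≤
    1 / Real.sqrt (τ * (1 - τ) * (k + 1)) := by
  have hp0 : 0 < τ := Tilt.pos
  have hq0 : 0 < 1 - τ := Tilt.lt
  have hk : (0 : ℝ) < k + 1 := by positivity
  have h1 : ∀ i ∈ range M, |bep τ k i - bep τ k (i + 1)| =
      1 / (τ * (1 - τ) * (k + 1)) * (bep τ (k + 1) (i + 1) * |((i + 1 : ℕ) : ℝ) - ((k + 1 : ℕ) : ℝ) * τ|) := by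
    intro i _
    rw [bep_diff τ, abs_mul, abs_mul, abs_of_nonneg (bep_nonneg τ _ _), abs_of_pos (by positivity)]
  rw [sum_congr rfl h1, ← mul_sum]
  set G : ℕ → ℝ := fun i => bep τ (k + 1) i * |(i : ℝ) - ((k + 1 : ℕ) : ℝ) * τ| with hG
  have hG0 : ∀ i, 0 ≤ G i := fun i => mul_nonneg (bep_nonneg τ _ _) (abs_nonneg _)
  have h2 : ∑ i ∈ range M, G (i + 1) ≤ ∑ i ∈ range (k + 2), G i := by
    have h3 : ∑ i ∈ range M, G (i + 1) ≤ ∑ i ∈ range (M + 1), G i := by
      rw [sum_range_succ' G M]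
      linarith [hG0 0]
    refine h3.trans ?_
    rcases Nat.le_total (M + 1) (k + 2) with h | h
    · exact sum_le_sum_of_subset_of_nonneg (range_subset_range.2 h) fun i _ _ => hG0 i
    · apply le_of_eq
      symm
      apply sum_subset (range_subset_range.2 h)
      intro i _ hi
      rw [mem_range, not_lt] at hi
      rw [hG]
      dsimp only
      rw [bep_big τ (show k + 1 < i by omega), zero_mul]
  have h3 : ∑ i ∈ range (k + 2), G i ≤ Real.sqrt (τ * (1 - τ) * (k + 1)) := by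
    have h4 : ∀ i ∈ range (k + 2), G i = Real.sqrt (bep τ (k + 1) i) *
        Real.sqrt (bep τ (k + 1) i * ((i : ℝ) - ((k + 1 : ℕ) : ℝ) * τ) ^ 2) := by
      intro i _
      rw [Real.sqrt_mul (bep_nonneg τ _ _), Real.sqrt_sq_eq_abs, ← mul_assoc,
        Real.mul_self_sqrt (bep_nonneg τ _ _)]
    rw [sum_congr rfl h4]
    refine (Real.sum_sqrt_mul_sqrt_le _ (fun i => bep_nonneg τ _ _) (fun i =>
      mul_nonneg (bep_nonneg τ _ _) (sq_nonneg _))).trans ?_
    have h5 := bep_total τ (k + 1)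
    have h6 := bep_var τ (k + 1)
    rw [h5, h6, Real.sqrt_one, one_mul]
    push_cast
    exact le_rfl
  have h4 : 1 / (τ * (1 - τ) * ((k : ℝ) + 1)) * ∑ i ∈ range M, G (i + 1) ≤
      1 / (τ * (1 - τ) * ((k : ℝ) + 1)) * Real.sqrt (τ * (1 - τ) * (k + 1)) :=
    mul_le_mul_of_nonneg_left (h2.trans h3) (by positivity)
  refine h4.trans (le_of_eq ?_)
  obtain ⟨s, hs⟩ : ∃ s, s = Real.sqrt (τ * (1 - τ) * ((k : ℝ) + 1)) := ⟨_, rfl⟩
  have hs0 : 0 < s := by rw [hs]; exact Real.sqrt_pos.2 (by positivity)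
  have hs2 : τ * (1 - τ) * ((k : ℝ) + 1) = s ^ 2 := by rw [hs]; exact (Real.sq_sqrt (by positivity)).symm
  rw [← hs, hs2]
  field_simp

theorem bep_le (k i : ℕ) : bep τ k i ≤ 1 / Real.sqrt (τ * (1 - τ) * (k + 1)) := by
  have hp0 : 0 < τ := Tilt.pos
  have hq0 : 0 < 1 - τ := Tilt.lt
  have h1 : bep τ k i = ∑ j ∈ range (k + 1), (bep τ k (i + j) - bep τ k (i + (j + 1))) := by
    rw [sum_range_sub' (fun j => bep τ k (i + j)), bep_big τ (show k < i + (k + 1) by omega), sub_zero,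
      add_zero]
  have h2 : ∑ j ∈ range (k + 1), (bep τ k (i + j) - bep τ k (i + (j + 1))) ≤
      ∑ j ∈ range (k + 1), |bep τ k (i + j) - bep τ k (i + j + 1)| :=
    sum_le_sum fun j _ => le_abs_self _
  have h3 : ∑ j ∈ range (k + 1), |bep τ k (i + j) - bep τ k (i + j + 1)| ≤
      ∑ l ∈ range (i + (k + 1)), |bep τ k l - bep τ k (l + 1)| := by
    rw [sum_range_add (fun l => |bep τ k l - bep τ k (l + 1)|) i (k + 1)]
    have : 0 ≤ ∑ l ∈ range i, |bep τ k l - bep τ k (l + 1)| := sum_nonneg fun _ _ => abs_nonneg _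
    linarith
  rw [h1]
  exact h2.trans (h3.trans (bep_shift0 τ k _))

/-- the central probability from below -/
theorem bep_central {p : ℝ} (hp0 : 0 < p) (hp1 : p < 1) {k : ℕ} (h1 : 1 ≤ ⌊p * k⌋₊) :
    Real.exp (-(1 / (1 - p))) / (4 * Real.sqrt k) ≤ bep p k ⌊p * k⌋₊ := by
  have hq0 : 0 < 1 - p := by linarith
  obtain ⟨i, hi⟩ : ∃ i, i = ⌊p * (k : ℝ)⌋₊ := ⟨_, rfl⟩
  rw [← hi] at h1 ⊢
  have hk : 1 ≤ k := by
    rcases Nat.eq_zero_or_pos k with h | h
    · subst h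
      simp at hi
      omega
    · exact h
  have hk0 : (0 : ℝ) < k := by exact_mod_cast hk
  have hi1 : (i : ℝ) ≤ p * k := by rw [hi]; exact Nat.floor_le (by positivity)
  have hi2 : p * k < i + 1 := by rw [hi]; exact Nat.lt_floor_add_one _
  have hik : i < k := by
    have : (i : ℝ) < k := by nlinarith
    exact_mod_cast this
  have hi0 : (0 : ℝ) < i := by exact_mod_cast h1
  have hmode := t_MODE k i hk h1 hik
  obtain ⟨σ, hσ⟩ : ∃ σ, σ = (i : ℝ) / k := ⟨_, rfl⟩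
  rw [← hσ] at hmode
  have hσ0 : 0 < σ := by rw [hσ]; positivity
  have hσp : σ ≤ p := by rw [hσ, div_le_iff₀ hk0]; exact hi1
  have hσ2 : p - σ ≤ 1 / k := by
    rw [hσ, sub_le_iff_le_add, ← add_div, le_div_iff₀ hk0]
    linarith
  have hσ1 : 0 < 1 - σ := by linarith
  have h2 : σ ^ i ≤ p ^ i := pow_le_pow_left₀ hσ0.le hσp i
  have h3 : Real.exp (-(1 / (1 - p))) * (1 - σ) ^ (k - i) ≤ (1 - p) ^ (k - i) := by
    have a1 : 0 < (1 - p) / (1 - σ) := by positivity
    have a2 := Real.one_sub_inv_le_log_of_pos a1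
    have a3 : 1 - ((1 - p) / (1 - σ))⁻¹ = -((p - σ) / (1 - p)) := by
      rw [inv_div]
      field_simp
      ring
    rw [a3] at a2
    have a4 : (p - σ) / (1 - p) * (k - i : ℕ) ≤ 1 / (1 - p) := by
      rw [div_mul_eq_mul_div]
      refine div_le_div_of_nonneg_right ?_ hq0.le
      have b1 : ((k - i : ℕ) : ℝ) ≤ k := by exact_mod_cast Nat.sub_le k i
      calc (p - σ) * ((k - i : ℕ) : ℝ) ≤ 1 / k * k := mul_le_mul hσ2 b1 (Nat.cast_nonneg _) (by positivity)
        _ = 1 := by field_simp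
    have a5 : Real.exp (-(1 / (1 - p))) ≤ ((1 - p) / (1 - σ)) ^ (k - i) := by
      rw [← Real.exp_log a1, ← Real.exp_nat_mul]
      apply Real.exp_le_exp.2
      have := mul_le_mul_of_nonneg_left a2 (Nat.cast_nonneg (α := ℝ) (k - i))
      linarith
    rw [div_pow, le_div_iff₀ (by positivity)] at a5
    exact a5
  have h4 : Real.exp (-(1 / (1 - p))) * bep σ k i ≤ bep p k i := by
    unfold bep
    have b1 : (0 : ℝ) ≤ (k.choose i : ℝ) := Nat.cast_nonneg _
    have b2 := mul_le_mul h2 h3 (by positivity) (by positivity)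
    have b3 := mul_le_mul_of_nonneg_left b2 b1
    calc Real.exp (-(1 / (1 - p))) * ((k.choose i : ℝ) * σ ^ i * (1 - σ) ^ (k - i)) =
        (k.choose i : ℝ) * (σ ^ i * (Real.exp (-(1 / (1 - p))) * (1 - σ) ^ (k - i))) := by ring
      _ ≤ (k.choose i : ℝ) * (p ^ i * (1 - p) ^ (k - i)) := b3
      _ = _ := by ring
  refine le_trans ?_ h4
  have h5 := mul_le_mul_of_nonneg_left hmode (Real.exp_pos (-(1 / (1 - p)))).le
  refine le_trans (le_of_eq ?_) h5
  ring

end Pool.Agent.H623.WP
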