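import Pool.Agent.H623.WP.E
import Pool.Agent.H623.TP.V

/-!
# The residues of the forward iterates and the words
-/

set_option autoImplicit false
set_option linter.unusedVariables false
set_option linter.unusedSectionVars false

namespace Pool.Agent.H623.WP

open Finset Filter Topology Real Pool.Agent.H320R2.PD Pool.Agent.H377R2.NK Pool.Agent.H623.TP
open Pool.Agent.H623.TS (T odds FT FWT_eq Per tri_sum)

/-- the number of the starting points below `2 ^ k` with `i` odd terms and `T^k n ≡ x` modulo `3 ^ m` -/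
noncomputable def Cn (k i m : ℕ) (x : ℤ) : ℝ := cnt (E0 k i) (fun _ => (1 : ℝ)) (fun n => ((T^[k] n : ℕ) : ℤ)) m x

theorem Cn_nat (k i y : ℕ) : Cn k i i (y : ℤ) = (W k i y : ℝ) := by
  classical
  unfold Cn cnt W
  rw [card_filter]
  push_cast
  refine sum_congr rfl fun n _ => ?_
  have : ((3 : ℤ) ^ i ∣ ((T^[k] n : ℕ) : ℤ) - (y : ℤ)) ↔ (T^[k] n % 3 ^ i = y % 3 ^ i) := by
    have h1 := Nat.modEq_iff_dvd (n := 3 ^ i) (a := y) (b := T^[k] n)
    push_cast at h1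
    rw [← h1]
    exact ⟨fun h => h.symm, fun h => h.symm⟩
  simp only [this]

theorem Cn_top {k i : ℕ} (hi : i ≤ k) [TiltR (1 / 4 : ℝ)] (x : ℤ) :
    Cn k i i x * bep (1 / 4) k i * 3 ^ i = (k.choose i : ℝ) * hh (1 / 4) k i i x := by
  obtain ⟨y, hy⟩ : ∃ y : ℕ, (y : ℤ) = x % 3 ^ i := ⟨(x % 3 ^ i).toNat, Int.toNat_of_nonneg (Int.emod_nonneg _ (by positivity))⟩
  have hx : x = (y : ℤ) + 3 ^ i * (x / 3 ^ i) := by rw [hy]; exact (Int.emod_add_mul_ediv x (3 ^ i)).symm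
  have h1 : Cn k i i x = Cn k i i (y : ℤ) := by
    unfold Cn
    apply cnt_congr
    exact ⟨x / 3 ^ i, by linarith⟩
  have h2 : hh (1 / 4) k i i x = hh (1 / 4) k i i (y : ℤ) := by
    conv_lhs => rw [hx]
    exact hh_per (1 / 4) k i i _ _
  rw [h1, h2, Cn_nat, hh_top]
  have h3 := V_eq (1 / 4) hi y
  have hb : 0 < bep (1 / 4) k i := by
    unfold bep
    have : (0 : ℝ) < (k.choose i : ℝ) := by exact_mod_cast Nat.choose_pos hi
    positivity
  have hc : (0 : ℝ) < (k.choose i : ℝ) := by exact_mod_cast Nat.choose_pos hi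
  unfold V at h3
  rw [div_eq_iff hc.ne'] at h3
  rw [mul_right_comm, mul_comm ((W k i y : ℝ)), h3]
  field_simp

theorem Cn_hh {k i : ℕ} (hi : i ≤ k) [TiltR (1 / 4 : ℝ)] (d : ℕ) : ∀ (m : ℕ) (x : ℤ), m + d = i →
    Cn k i m x * bep (1 / 4) k i * 3 ^ m = (k.choose i : ℝ) * hh (1 / 4) k i m x := by
  induction d with
  | zero =>
    intro m x hm
    rw [add_zero] at hm
    subst hm
    exact Cn_top hi x
  | succ d ih =>
    intro m x hm
    have h0 := ih (m + 1) x (by omega)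
    have h1 := ih (m + 1) (x + 3 ^ m) (by omega)
    have h2 := ih (m + 1) (x + 2 * 3 ^ m) (by omega)
    have h3 := hh_lift (1 / 4) k i m x
    have h4 : Cn k i m x = Cn k i (m + 1) x + Cn k i (m + 1) (x + 3 ^ m) + Cn k i (m + 1) (x + 2 * 3 ^ m) :=
      ent_cnt_split _ _ _ m x
    rw [pow_succ] at h0 h1 h2
    have h5 : 3 * (Cn k i m x * bep (1 / 4) k i * 3 ^ m) = 3 * ((k.choose i : ℝ) * hh (1 / 4) k i m x) := by
      rw [h4]
      linear_combination h0 + h1 + h2 + (k.choose i : ℝ) * h3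
    linarith

theorem hh_low {k m l : ℕ} [TiltR (1 / 4 : ℝ)] (x : ℤ) : hh (1 / 4) k (m + l) m x = 3 ^ m * ∑ t ∈ range (k + 1),
    cnt (FT m t) (qp (1 / 4)) (fun w => (Wo w : ℤ)) m (2 ^ t * x) * bep (1 / 4) (k - t) l := by
  unfold hh
  congr 1
  have h1 : ∀ s ∈ range (k + 1), (1 - 1 / 4 : ℝ) ^ (k - s) *
      cnt (FT (m + l) s) (qp (1 / 4)) (fun w => (Wo w : ℤ)) m (2 ^ s * x) =
      ∑ t ∈ range (s + 1), (fun t r => (1 - 1 / 4 : ℝ) ^ (k - t - r) *
        (cnt (FT m t) (qp (1 / 4)) (fun w => (Wo w : ℤ)) m (2 ^ t * x) * Pool.Agent.H623.TP.ms (1 / 4) l r)) t (s - t) := by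
    intro s hs
    rw [mem_range] at hs
    rw [cnt_low (1 / 4), mul_sum]
    refine sum_congr rfl fun t ht => ?_
    rw [mem_range] at ht
    have : k - t - (s - t) = k - s := by omega
    dsimp only
    rw [this]
  rw [sum_congr rfl h1, tri_sum k (fun t r => (1 - 1 / 4 : ℝ) ^ (k - t - r) *
        (cnt (FT m t) (qp (1 / 4)) (fun w => (Wo w : ℤ)) m (2 ^ t * x) * Pool.Agent.H623.TP.ms (1 / 4) l r))]
  refine sum_congr rfl fun t ht => ?_
  rw [← ms_bet (1 / 4), mul_sum]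
  refine sum_congr rfl fun r _ => ?_
  ring

/-- the conversion to an arbitrary tilt -/
theorem conv (σ : ℝ) [Tilt σ] {k m l t : ℕ} (hi : m + l ≤ k) (ht : t ≤ k) (x : ℤ) :
    cnt (FT m t) (qp σ) (fun w => (Wo w : ℤ)) m x * bep σ (k - t) l =
    cnt (FT m t) (fun _ => (1 : ℝ)) (fun w => (Wo w : ℤ)) m x * ((k - t).choose l : ℝ) *
      (σ ^ (m + l) * (1 - σ) ^ (k - (m + l))) := by
  classical
  have hp0 : 0 < σ := Tilt.pos
  have hq0 : 0 < 1 - σ := Tilt.lt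
  have h1 : cnt (FT m t) (qp σ) (fun w => (Wo w : ℤ)) m x = ((σ / (1 - σ)) ^ m * (1 - σ) ^ t) *
      cnt (FT m t) (fun _ => (1 : ℝ)) (fun w => (Wo w : ℤ)) m x := by
    unfold cnt
    rw [mul_sum]
    refine sum_congr rfl fun w hw => ?_
    unfold FT FWT at hw
    rw [mem_filter, mem_FW] at hw
    unfold qp
    rw [hw.1.1, hw.2]
    split_ifs <;> ring
  rw [h1]
  rcases Nat.lt_or_ge (k - t) l with h | h
  · rw [bep_big σ h, Nat.choose_eq_zero_of_lt h]
    simp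
  · unfold bep
    have e1 : (σ / (1 - σ)) ^ m * (1 - σ) ^ t * (σ ^ l * (1 - σ) ^ (k - t - l)) =
        σ ^ (m + l) * (1 - σ) ^ (k - (m + l)) := by
      rw [div_pow]
      have e2 : (1 - σ) ^ t * (1 - σ) ^ (k - t - l) = (1 - σ) ^ m * (1 - σ) ^ (k - (m + l)) := by
        rw [← pow_add, ← pow_add]
        congr 1
        omega
      rw [pow_add]
      field_simp
      linear_combination e2
    linear_combination (cnt (FT m t) (fun _ => (1 : ℝ)) (fun w => (Wo w : ℤ)) m x *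
      ((k - t).choose l : ℝ)) * e1

theorem Cn_eq {k m l : ℕ} (hi : m + l ≤ k) (x : ℤ) : Cn k (m + l) m x = ∑ t ∈ range (k + 1),
    cnt (FT m t) (fun _ => (1 : ℝ)) (fun w => (Wo w : ℤ)) m (2 ^ t * x) * ((k - t).choose l : ℝ) := by
  have hT : TiltR (1 / 4 : ℝ) := mkR' ⟨by norm_num, by norm_num⟩
  have h1 := Cn_hh hi l m x rfl
  rw [hh_low] at h1
  have h2 : ∀ t ∈ range (k + 1), cnt (FT m t) (qp (1 / 4)) (fun w => (Wo w : ℤ)) m (2 ^ t * x) *
      bep (1 / 4) (k - t) l = cnt (FT m t) (fun _ => (1 : ℝ)) (fun w => (Wo w : ℤ)) m (2 ^ t * x) *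
      ((k - t).choose l : ℝ) * ((1 / 4) ^ (m + l) * (1 - 1 / 4) ^ (k - (m + l))) := by
    intro t ht
    rw [mem_range] at ht
    exact conv (1 / 4) hi (by omega) _
  rw [sum_congr rfl h2, ← sum_mul] at h1
  have hc : (0 : ℝ) < (k.choose (m + l) : ℝ) := by exact_mod_cast Nat.choose_pos hi
  set Z : ℝ := ∑ t ∈ range (k + 1), cnt (FT m t) (fun _ => (1 : ℝ)) (fun w => (Wo w : ℤ)) m (2 ^ t * x) *
      ((k - t).choose l : ℝ) with hZ
  unfold bep at h1
  have h3 : Cn k (m + l) m x * ((k.choose (m + l) : ℝ) * ((1 / 4) ^ (m + l) * (1 - 1 / 4) ^ (k - (m + l))) * 3 ^ m) =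
      Z * ((k.choose (m + l) : ℝ) * ((1 / 4) ^ (m + l) * (1 - 1 / 4) ^ (k - (m + l))) * 3 ^ m) := by
    linear_combination h1
  exact mul_right_cancel₀ (by positivity) h3

theorem Cn_tilt (p : ℝ) [Tilt p] {k m l : ℕ} (hi : m + l ≤ k) (x : ℤ) :
    Cn k (m + l) m x * bep p k (m + l) = (k.choose (m + l) : ℝ) * ∑ t ∈ range (k + 1),
    cnt (FT m t) (qp p) (fun w => (Wo w : ℤ)) m (2 ^ t * x) * bep p (k - t) l := by
  have h2 : ∀ t ∈ range (k + 1), cnt (FT m t) (qp p) (fun w => (Wo w : ℤ)) m (2 ^ t * x) *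
      bep p (k - t) l = cnt (FT m t) (fun _ => (1 : ℝ)) (fun w => (Wo w : ℤ)) m (2 ^ t * x) *
      ((k - t).choose l : ℝ) * (p ^ (m + l) * (1 - p) ^ (k - (m + l))) := by
    intro t ht
    rw [mem_range] at ht
    exact conv p hi (by omega) _
  rw [sum_congr rfl h2, ← sum_mul, Cn_eq hi]
  unfold bep
  ring

/-- **no small set of classes is charged** -/
theorem main_dim (p : ℝ) [Tilt p] {δ ε : ℝ} (hδ : 0 < δ) (hε : 0 < ε) : ∃ K : ℕ, ∀ k, K ≤ k →
    ∀ S : Finset ℕ, ((S.card : ℝ) ≤ exp ((hs p - δ) * ⌊p * k⌋₊)) →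
      ((((E0 k ⌊p * k⌋₊).filter fun n => T^[k] n % 3 ^ ⌊p * k⌋₊ ∈ S).card : ℕ) : ℝ) ≤
        ε * (k.choose ⌊p * k⌋₊ : ℝ) := by
  classical
  have hp0 : 0 < p := Tilt.pos
  have hq0 : 0 < 1 - p := Tilt.lt
  have hl32 : log 3 ≤ 2 := by
    rw [log_le_iff_le_exp (by norm_num)]
    have := add_one_le_exp (2 : ℝ)
    linarith
  have hhs : hs p ≤ 2 := (min_le_left _ _).trans hl32
  obtain ⟨θ, hθ⟩ : ∃ θ, θ = min (δ / 4) (1 / 2) := ⟨_, rfl⟩
  have hθ0 : 0 < θ := by rw [hθ]; exact lt_min (by positivity) (by norm_num)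
  have hθ1 : θ ≤ δ / 4 := by rw [hθ]; exact min_le_left _ _
  have hθ2 : θ ≤ 1 / 2 := by rw [hθ]; exact min_le_right _ _
  obtain ⟨C1, hC1⟩ : ∃ C1, C1 = 4 * exp (1 / (1 - p)) / Real.sqrt (p * (1 - p) * (θ * p / 4)) := ⟨_, rfl⟩
  have hC10 : 0 < C1 := by
    rw [hC1]
    have : 0 < Real.sqrt (p * (1 - p) * (θ * p / 4)) := Real.sqrt_pos.2 (by positivity)
    positivity
  obtain ⟨m₀, hm₀⟩ := small_sets p (show 0 < δ / 2 by positivity) (show 0 < ε / C1 by positivity)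
  obtain ⟨K1, hK1⟩ := exists_nat_ge (((2 * (m₀ : ℝ) + 4) + 2 / θ) / p)
  refine ⟨K1 + 1, fun k hk S hS => ?_⟩
  have hk0 : (0 : ℝ) < k := by exact_mod_cast (show 0 < k by omega)
  obtain ⟨i, hi⟩ : ∃ i, i = ⌊p * (k : ℝ)⌋₊ := ⟨_, rfl⟩
  rw [← hi] at hS ⊢
  have hi1 : (i : ℝ) ≤ p * k := by rw [hi]; exact Nat.floor_le (by positivity)
  have hi2 : p * k < i + 1 := by rw [hi]; exact Nat.lt_floor_add_one _
  have hik : i < k := by
    have : (i : ℝ) < k := by nlinarith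
    exact_mod_cast this
  have hkp : (2 * (m₀ : ℝ) + 4) + 2 / θ ≤ p * k := by
    have h1 : (K1 : ℝ) ≤ k := by exact_mod_cast (show K1 ≤ k by omega)
    have h2 := hK1.trans h1
    rw [div_le_iff₀ hp0] at h2
    linarith
  have hi3 : (2 * (m₀ : ℝ) + 3) + 2 / θ ≤ i := by linarith
  have hi0 : 1 ≤ i := by
    have : (1 : ℝ) ≤ i := by
      have h1 : 0 ≤ 2 / θ := by positivity
      have h2 : (0 : ℝ) ≤ m₀ := Nat.cast_nonneg _
      linarith
    exact_mod_cast this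
  have hcent := bep_central hp0 (by linarith : p < 1) (k := k) (by rw [← hi]; exact hi0)
  rw [← hi] at hcent
  obtain ⟨l, hl⟩ : ∃ l, l = ⌊θ * (i : ℝ)⌋₊ := ⟨_, rfl⟩
  have hl1 : (l : ℝ) ≤ θ * i := by rw [hl]; exact Nat.floor_le (by positivity)
  have hl2 : θ * i < l + 1 := by rw [hl]; exact Nat.lt_floor_add_one _
  have hli : l ≤ i := by
    have : (l : ℝ) ≤ i := by nlinarith
    exact_mod_cast this
  obtain ⟨m, hm⟩ : ∃ m, m + l = i := ⟨i - l, by omega⟩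
  have hmR : (m : ℝ) + l = i := by exact_mod_cast hm
  have hmm : m₀ ≤ m := by
    have h1 : (i : ℝ) / 2 ≤ m := by nlinarith
    have h2 : (m₀ : ℝ) ≤ m := by
      have h1 : 0 ≤ 2 / θ := by positivity
      linarith
    exact_mod_cast h2
  have hm1 : 1 ≤ m := by
    have h1 : (i : ℝ) / 2 ≤ m := by nlinarith
    have h2 : (1 : ℝ) ≤ m := by
      have h1 : 0 ≤ 2 / θ := by positivity
      have h2 : (0 : ℝ) ≤ m₀ := Nat.cast_nonneg _
      linarith
    exact_mod_cast h2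
  have hlbig : θ * p / 4 * k ≤ l := by
    have h1 : 2 ≤ θ * i := by
      have h2 : 2 / θ ≤ i := by
        have h2 : (0 : ℝ) ≤ m₀ := Nat.cast_nonneg _
        linarith
      rw [div_le_iff₀ hθ0] at h2
      linarith
    have h3 : p * k ≤ 2 * i := by
      have : (1 : ℝ) ≤ i := by exact_mod_cast hi0
      linarith
    nlinarith
  -- the classes
  obtain ⟨A, hA, hA2⟩ : ∃ A, (∀ B : ℕ → Finset ℕ, (∀ T, B T ⊆ range (3 ^ m)) →
      (∀ T, ((B T).card : ℝ) ≤ exp ((hs p - δ / 2) * m)) →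
      ∑ T ∈ range (m * A + 1), ∑ c ∈ B T, cnt (FWT A m T) (qp p) (fun w => (Wo w : ℤ)) m (c : ℤ) ≤ ε / C1) ∧
      k + 1 ≤ A := ((hm₀ m hmm).and (UF_le (eventually_ge_atTop (k + 1)))).exists
  obtain ⟨𝒜, h𝒜⟩ : ∃ 𝒜 : Finset ℕ, 𝒜 = S.image (fun y => y % 3 ^ m) := ⟨_, rfl⟩
  set B : ℕ → Finset ℕ := fun t => 𝒜.image (fun c => 2 ^ t * c % 3 ^ m) with hB
  have hpow : 0 < 3 ^ m := by positivity
  have hB1 : ∀ t, B t ⊆ range (3 ^ m) := by
    intro t c hc
    rw [hB, mem_image] at hc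
    obtain ⟨a, _, rfl⟩ := hc
    exact mem_range.2 (Nat.mod_lt _ hpow)
  have hB2 : ∀ t, ((B t).card : ℝ) ≤ exp ((hs p - δ / 2) * m) := by
    intro t
    have h1 : (B t).card ≤ S.card := card_image_le.trans (by rw [h𝒜]; exact card_image_le)
    have h2 : ((B t).card : ℝ) ≤ S.card := by exact_mod_cast h1
    refine h2.trans (hS.trans (exp_le_exp.2 ?_))
    have h3 : (l : ℝ) ≤ δ / 4 * i := hl1.trans (mul_le_mul_of_nonneg_right hθ1 (by positivity))
    have h4 : (0 : ℝ) ≤ l := Nat.cast_nonneg _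
    have h5 : (hs p - δ / 2) * l ≤ 2 * l := mul_le_mul_of_nonneg_right (by linarith) h4
    have h6 : (m : ℝ) = i - l := by linarith
    rw [h6]
    nlinarith
  have hsmall := hA B hB1 hB2
  -- the counting
  have hcount : ((((E0 k i).filter fun n => T^[k] n % 3 ^ i ∈ S).card : ℕ) : ℝ) ≤ ∑ c ∈ 𝒜, Cn k i m (c : ℤ) := by
    unfold Cn cnt
    rw [sum_comm, card_filter]
    push_cast
    refine sum_le_sum fun n _ => ?_
    split_ifs with h
    · have h1 : T^[k] n % 3 ^ m ∈ 𝒜 := by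
        rw [h𝒜, mem_image]
        refine ⟨_, h, ?_⟩
        exact Nat.mod_mod_of_dvd _ (pow_dvd_pow 3 (by omega))
      refine le_trans ?_ (single_le_sum (f := fun c : ℕ => if (3 : ℤ) ^ m ∣ ((T^[k] n : ℕ) : ℤ) - (c : ℤ) then (1 : ℝ) else 0)
        (fun c _ => by split_ifs <;> norm_num) h1)
      rw [if_pos]
      have h2 := Nat.mod_add_div (T^[k] n) (3 ^ m)
      refine ⟨((T^[k] n / 3 ^ m : ℕ) : ℤ), ?_⟩
      have h3 : ((T^[k] n : ℕ) : ℤ) = ((T^[k] n % 3 ^ m : ℕ) : ℤ) + 3 ^ m * ((T^[k] n / 3 ^ m : ℕ) : ℤ) := by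
        exact_mod_cast h2.symm
      linarith
    · refine sum_nonneg fun c _ => ?_
      split_ifs <;> norm_num
  have hbepl : ∀ t ∈ range (k + 1), bep p (k - t) l ≤ 1 / Real.sqrt (p * (1 - p) * (θ * p / 4) * k) := by
    intro t _
    rcases Nat.lt_or_ge (k - t) l with h | h
    · rw [bep_big p h]
      positivity
    · refine (bep_le p (k - t) l).trans ?_
      apply one_div_le_one_div_of_le (Real.sqrt_pos.2 (by positivity))
      apply Real.sqrt_le_sqrt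
      have h1 : (l : ℝ) ≤ ((k - t : ℕ) : ℝ) := by exact_mod_cast h
      have h2 : θ * p / 4 * k ≤ ((k - t : ℕ) : ℝ) + 1 := by linarith
      calc p * (1 - p) * (θ * p / 4) * k = p * (1 - p) * (θ * p / 4 * k) := by ring
        _ ≤ p * (1 - p) * (((k - t : ℕ) : ℝ) + 1) := mul_le_mul_of_nonneg_left h2 (by positivity)
  have hinj : ∀ t, ∑ c ∈ 𝒜, cnt (FT m t) (qp p) (fun w => (Wo w : ℤ)) m (2 ^ t * (c : ℤ)) =
      ∑ c ∈ B t, cnt (FT m t) (qp p) (fun w => (Wo w : ℤ)) m (c : ℤ) := by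
    intro t
    rw [hB, sum_image]
    · refine sum_congr rfl fun c _ => ?_
      apply cnt_congr
      have h2 := Nat.mod_add_div (2 ^ t * c) (3 ^ m)
      refine ⟨((2 ^ t * c / 3 ^ m : ℕ) : ℤ), ?_⟩
      have h3 : (2 : ℤ) ^ t * (c : ℤ) = ((2 ^ t * c % 3 ^ m : ℕ) : ℤ) + 3 ^ m * ((2 ^ t * c / 3 ^ m : ℕ) : ℤ) := by
        exact_mod_cast h2.symm
      linarith
    · intro a ha b hb hab
      have ha' : a < 3 ^ m := by
        rw [mem_coe, h𝒜, mem_image] at ha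
        obtain ⟨y, _, rfl⟩ := ha
        exact Nat.mod_lt _ hpow
      have hb' : b < 3 ^ m := by
        rw [mem_coe, h𝒜, mem_image] at hb
        obtain ⟨y, _, rfl⟩ := hb
        exact Nat.mod_lt _ hpow
      have h1 : 2 ^ t * a ≡ 2 ^ t * b [MOD 3 ^ m] := hab
      have hco : Nat.gcd (3 ^ m) (2 ^ t) = 1 := Nat.Coprime.pow m t (by norm_num)
      have h2 := Nat.ModEq.cancel_left_of_coprime hco h1
      exact Nat.ModEq.eq_of_lt_of_lt h2 ha' hb'
  have hnn : ∀ t (c : ℤ), 0 ≤ cnt (FT m t) (qp p) (fun w => (Wo w : ℤ)) m c := fun t c =>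
    ent_cnt_nonneg _ _ _ fun w _ => (qp_pos w).le
  have hsum : ∑ t ∈ range (k + 1), ∑ c ∈ B t, cnt (FT m t) (qp p) (fun w => (Wo w : ℤ)) m (c : ℤ) ≤ ε / C1 := by
    refine le_trans ?_ hsmall
    have h1 : ∀ t ∈ range (k + 1), ∑ c ∈ B t, cnt (FT m t) (qp p) (fun w => (Wo w : ℤ)) m (c : ℤ) =
        ∑ c ∈ B t, cnt (FWT A m t) (qp p) (fun w => (Wo w : ℤ)) m (c : ℤ) := by
      intro t ht
      rw [mem_range] at ht
      rw [FWT_eq (show t ≤ A by omega)]
    rw [sum_congr rfl h1]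
    refine sum_le_sum_of_subset_of_nonneg (range_subset_range.2 ?_) fun t _ _ => sum_nonneg fun c _ =>
      ent_cnt_nonneg _ _ _ fun w _ => (qp_pos w).le
    have : A ≤ m * A := Nat.le_mul_of_pos_left _ hm1
    omega
  have hbpos : 0 < bep p k i := by
    refine lt_of_lt_of_le ?_ hcent
    have : 0 < Real.sqrt k := Real.sqrt_pos.2 hk0
    positivity
  set X : ℝ := ((((E0 k i).filter fun n => T^[k] n % 3 ^ i ∈ S).card : ℕ) : ℝ) with hX
  have hX0 : 0 ≤ X := by positivity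
  obtain ⟨c0, hc0⟩ : ∃ c0, c0 = Real.sqrt (p * (1 - p) * (θ * p / 4)) := ⟨_, rfl⟩
  have hc00 : 0 < c0 := by rw [hc0]; exact Real.sqrt_pos.2 (by positivity)
  have hsq : Real.sqrt (p * (1 - p) * (θ * p / 4) * k) = c0 * Real.sqrt k := by
    rw [hc0, Real.sqrt_mul (by positivity)]
  have hsk : 0 < Real.sqrt k := Real.sqrt_pos.2 hk0
  have hchoose : (0 : ℝ) < (k.choose i : ℝ) := by exact_mod_cast Nat.choose_pos hik.le
  have h1 : X * bep p k i ≤ (k.choose i : ℝ) * (1 / (c0 * Real.sqrt k) * (ε / C1)) := by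
    calc X * bep p k i ≤ (∑ c ∈ 𝒜, Cn k i m (c : ℤ)) * bep p k i := mul_le_mul_of_nonneg_right hcount hbpos.le
      _ = ∑ c ∈ 𝒜, (k.choose i : ℝ) * ∑ t ∈ range (k + 1),
          cnt (FT m t) (qp p) (fun w => (Wo w : ℤ)) m (2 ^ t * (c : ℤ)) * bep p (k - t) l := by
        rw [sum_mul]
        refine sum_congr rfl fun c _ => ?_
        have := Cn_tilt p (k := k) (m := m) (l := l) (by omega) (c : ℤ)
        rw [hm] at this
        exact this
      _ = (k.choose i : ℝ) * ∑ t ∈ range (k + 1), bep p (k - t) l *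
          ∑ c ∈ B t, cnt (FT m t) (qp p) (fun w => (Wo w : ℤ)) m (c : ℤ) := by
        rw [← mul_sum, sum_comm]
        congr 1
        refine sum_congr rfl fun t _ => ?_
        rw [← hinj t, mul_sum]
        exact sum_congr rfl fun c _ => mul_comm _ _
      _ ≤ (k.choose i : ℝ) * ∑ t ∈ range (k + 1), 1 / (c0 * Real.sqrt k) *
          ∑ c ∈ B t, cnt (FT m t) (qp p) (fun w => (Wo w : ℤ)) m (c : ℤ) := by
        refine mul_le_mul_of_nonneg_left (sum_le_sum fun t ht => ?_) hchoose.le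
        have := hbepl t ht
        rw [hsq] at this
        exact mul_le_mul_of_nonneg_right this (sum_nonneg fun c _ => hnn _ _)
      _ = (k.choose i : ℝ) * (1 / (c0 * Real.sqrt k) * ∑ t ∈ range (k + 1),
          ∑ c ∈ B t, cnt (FT m t) (qp p) (fun w => (Wo w : ℤ)) m (c : ℤ)) := by rw [← mul_sum]
      _ ≤ _ := by
        refine mul_le_mul_of_nonneg_left (mul_le_mul_of_nonneg_left hsum (by positivity)) hchoose.le
  have h2 : X * (exp (-(1 / (1 - p))) / (4 * Real.sqrt k)) ≤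
      (k.choose i : ℝ) * (1 / (c0 * Real.sqrt k) * (ε / C1)) :=
    (mul_le_mul_of_nonneg_left hcent hX0).trans h1
  have h3 : (k.choose i : ℝ) * (1 / (c0 * Real.sqrt k) * (ε / C1)) =
      (ε * (k.choose i : ℝ)) * (exp (-(1 / (1 - p))) / (4 * Real.sqrt k)) := by
    rw [hC1, ← hc0, exp_neg]
    field_simp
  rw [h3] at h2
  exact le_of_mul_le_mul_right h2 (by positivity)

end Pool.Agent.H623.WP
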