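import Pool.Agent.H623.WP.F

/-!
# The number of the classes that are met; the critical slope
-/

set_option autoImplicit false
set_option linter.unusedVariables false
set_option linter.unusedSectionVars false

namespace Pool.Agent.H623.WP

open Finset Filter Topology Real Pool.Agent.H623.TP
open Pool.Agent.H623.TS (T odds)

/-- the dimension -/
noncomputable def dm (p : ℝ) : ℝ := min 1 (binEntropy p / (p * log 3))

theorem dm_hs {p : ℝ} (hp : 0 < p) : dm p * log 3 = hs p := by
  have hl3 : 0 < log 3 := log_pos (by norm_num)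
  unfold dm hs
  rw [min_mul_of_nonneg _ _ hl3.le, one_mul]
  congr 1
  field_simp

theorem choose_le (p : ℝ) [Tilt p] (k : ℕ) : (k.choose ⌊p * k⌋₊ : ℝ) ≤
    exp (binEntropy p / p * ⌊p * k⌋₊ + (binEntropy p / p + (|log p| + |log (1 - p)|))) := by
  have hp0 : 0 < p := Tilt.pos
  have hq0 : 0 < 1 - p := Tilt.lt
  obtain ⟨i, hi⟩ : ∃ i, i = ⌊p * (k : ℝ)⌋₊ := ⟨_, rfl⟩
  rw [← hi]
  have hi1 : (i : ℝ) ≤ p * k := by rw [hi]; exact Nat.floor_le (by positivity)
  have hi2 : p * k < i + 1 := by rw [hi]; exact Nat.lt_floor_add_one _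
  have hik : i ≤ k := by
    have h1 : (i : ℝ) ≤ k := by
      have : (0 : ℝ) ≤ k := Nat.cast_nonneg _
      nlinarith
    exact_mod_cast h1
  have hH : 0 < binEntropy p := binEntropy_pos hp0 (by linarith)
  have h1 : bep p k i ≤ 1 := by
    have h2 := bep_total p k
    rw [← h2]
    exact single_le_sum (f := fun i => bep p k i) (fun j _ => bep_nonneg p k j) (mem_range.2 (by omega))
  unfold bep at h1
  obtain ⟨L, hL⟩ : ∃ L, L = (i : ℝ) * log p + ((k - i : ℕ) : ℝ) * log (1 - p) := ⟨_, rfl⟩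
  have hexp : exp L = p ^ i * (1 - p) ^ (k - i) := by
    rw [hL, exp_add, exp_nat_mul, exp_nat_mul, exp_log hp0, exp_log hq0]
  have h2 : (k.choose i : ℝ) ≤ exp (-L) := by
    have h3 : (k.choose i : ℝ) * exp L ≤ 1 := by rw [hexp, ← mul_assoc]; exact h1
    have h4 := mul_le_mul_of_nonneg_right h3 (exp_pos (-L)).le
    rw [mul_assoc, ← exp_add, add_neg_cancel, exp_zero, mul_one, one_mul] at h4
    exact h4
  refine h2.trans (exp_le_exp.2 ?_)
  rw [hL, Nat.cast_sub hik]
  have hHe : binEntropy p = -(p * log p) - (1 - p) * log (1 - p) := by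
    rw [binEntropy, log_inv, log_inv]
    ring
  obtain ⟨θ, hθ⟩ : ∃ θ, θ = p * k - i := ⟨_, rfl⟩
  have hθ0 : 0 ≤ θ := by linarith
  have hθ1 : θ ≤ 1 := by linarith
  have h3 : θ * (log p - log (1 - p)) ≤ |log p| + |log (1 - p)| := by
    have h4 : |θ * (log p - log (1 - p))| ≤ 1 * (|log p| + |log (1 - p)|) := by
      rw [abs_mul, abs_of_nonneg hθ0]
      exact mul_le_mul hθ1 (abs_sub _ _) (abs_nonneg _) (by norm_num)
    have := le_abs_self (θ * (log p - log (1 - p)))
    linarith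
  have h4 : -((i : ℝ) * log p + ((k : ℝ) - i) * log (1 - p)) = k * binEntropy p + θ * (log p - log (1 - p)) := by
    rw [hHe, hθ]
    ring
  have h5 : (k : ℝ) * binEntropy p ≤ binEntropy p / p * i + binEntropy p / p := by
    have h6 : (k : ℝ) * binEntropy p = binEntropy p / p * (p * k) := by field_simp
    rw [h6]
    have h7 : 0 < binEntropy p / p := by positivity
    nlinarith
  rw [h4]
  linarith

/-- the classes that are met -/
def cls (k i : ℕ) : Finset ℕ := (E0 k i).image fun n => T^[k] n % 3 ^ i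

theorem floor_lt {p : ℝ} [Tilt p] (k : ℕ) : ⌊p * k⌋₊ ≤ k := by
  have hp0 : 0 < p := Tilt.pos
  have hq0 : 0 < 1 - p := Tilt.lt
  have hi1 : (⌊p * (k : ℝ)⌋₊ : ℝ) ≤ p * k := Nat.floor_le (by positivity)
  have h1 : (⌊p * (k : ℝ)⌋₊ : ℝ) ≤ k := by
    have : (0 : ℝ) ≤ k := Nat.cast_nonneg _
    nlinarith
  exact_mod_cast h1

theorem floor_ge {p : ℝ} [Tilt p] (B : ℝ) : ∃ K : ℕ, ∀ k, K ≤ k → B ≤ (⌊p * k⌋₊ : ℝ) := by
  have hp0 : 0 < p := Tilt.pos
  obtain ⟨K, hK⟩ := exists_nat_ge ((B + 1) / p)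
  refine ⟨K, fun k hk => ?_⟩
  have h1 : (K : ℝ) ≤ k := by exact_mod_cast hk
  have h2 := hK.trans h1
  rw [div_le_iff₀ hp0] at h2
  have hi2 : p * k < (⌊p * (k : ℝ)⌋₊ : ℝ) + 1 := Nat.lt_floor_add_one _
  linarith

theorem cls_upper (p : ℝ) [Tilt p] {ε : ℝ} (hε : 0 < ε) : ∃ K : ℕ, ∀ k, K ≤ k →
    ((cls k ⌊p * k⌋₊).card : ℝ) ≤ exp ((hs p + ε) * ⌊p * k⌋₊) := by
  have hp0 : 0 < p := Tilt.pos
  have hq0 : 0 < 1 - p := Tilt.lt
  have hl3 : 0 < log 3 := log_pos (by norm_num)
  obtain ⟨K, hK⟩ := floor_ge (p := p) ((binEntropy p / p + (|log p| + |log (1 - p)|)) / ε)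
  refine ⟨K, fun k hk => ?_⟩
  have h1 := hK k hk
  rw [div_le_iff₀ hε] at h1
  have h2 : ((cls k ⌊p * k⌋₊).card : ℝ) ≤ (k.choose ⌊p * k⌋₊ : ℝ) := by
    have : (cls k ⌊p * k⌋₊).card ≤ k.choose ⌊p * k⌋₊ := by
      rw [← card_E0 (floor_lt k)]
      exact card_image_le
    exact_mod_cast this
  have h3 : ((cls k ⌊p * k⌋₊).card : ℝ) ≤ exp (log 3 * ⌊p * k⌋₊) := by
    have : (cls k ⌊p * k⌋₊).card ≤ 3 ^ ⌊p * k⌋₊ := by
      refine le_trans (card_le_card (t := range (3 ^ ⌊p * k⌋₊)) ?_) (by rw [card_range])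
      intro c hc
      obtain ⟨n, _, rfl⟩ := mem_image.1 hc
      exact mem_range.2 (Nat.mod_lt _ (by positivity))
    rw [mul_comm (log 3), exp_nat_mul, exp_log (by norm_num)]
    exact_mod_cast this
  have h4 := h2.trans (choose_le p k)
  unfold hs
  rcases min_choice (log 3) (binEntropy p / p) with h | h
  · rw [h]
    refine h3.trans (exp_le_exp.2 ?_)
    have : (0 : ℝ) ≤ ⌊p * (k : ℝ)⌋₊ := Nat.cast_nonneg _
    nlinarith
  · rw [h]
    refine h4.trans (exp_le_exp.2 ?_)
    nlinarith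

theorem cls_lower (p : ℝ) [Tilt p] {ε : ℝ} (hε : 0 < ε) : ∃ K : ℕ, ∀ k, K ≤ k →
    exp ((hs p - ε) * ⌊p * k⌋₊) ≤ ((cls k ⌊p * k⌋₊).card : ℝ) := by
  obtain ⟨K, hK⟩ := main_dim p hε (show (0 : ℝ) < 1 / 2 by norm_num)
  refine ⟨K, fun k hk => ?_⟩
  by_contra hcon
  rw [not_le] at hcon
  have h1 := hK k hk (cls k ⌊p * k⌋₊) hcon.le
  have h2 : (E0 k ⌊p * k⌋₊).filter (fun n => T^[k] n % 3 ^ ⌊p * k⌋₊ ∈ cls k ⌊p * k⌋₊) = E0 k ⌊p * k⌋₊ := by
    apply filter_true_of_mem
    intro n hn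
    exact mem_image_of_mem _ hn
  rw [h2, card_E0 (floor_lt k)] at h1
  have hc : (0 : ℝ) < (k.choose ⌊p * k⌋₊ : ℝ) := by exact_mod_cast Nat.choose_pos (floor_lt k)
  linarith

/-! ### the critical slope -/

theorem H_anti {p q : ℝ} (hp : 0 < p) (hpq : p < q) (hq : q < 1) : binEntropy q / q < binEntropy p / p := by
  have hq0 : 0 < q := hp.trans hpq
  have h1 := strictConcave_binEntropy.2 (show q ∈ Set.Icc (0 : ℝ) 1 from ⟨hq0.le, hq.le⟩)
    (show (0 : ℝ) ∈ Set.Icc (0 : ℝ) 1 from ⟨le_rfl, zero_le_one⟩) hq0.ne'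
    (show 0 < p / q by positivity) (show 0 < 1 - p / q by rw [sub_pos, div_lt_one hq0]; exact hpq) (by ring)
  simp only [smul_eq_mul, mul_zero, add_zero, binEntropy_zero] at h1
  have e : p / q * q = p := by field_simp
  rw [e] at h1
  rw [div_lt_div_iff₀ hq0 hp]
  have h2 : p / q * binEntropy q * q < binEntropy p * q := mul_lt_mul_of_pos_right h1 hq0
  have e2 : p / q * binEntropy q * q = binEntropy q * p := by field_simp
  linarith

theorem num_lo : (81 / 133 : ℝ) * log 3 < binEntropy (81 / 133) := by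
  have h1 : 0 < 81 * log (133 / 243) + 52 * log (133 / 52) := by
    have h2 : (1 : ℝ) < (133 / 243) ^ 81 * (133 / 52) ^ 52 := by norm_num
    have h3 := log_pos h2
    rw [log_mul (by positivity) (by positivity), log_pow, log_pow] at h3
    exact_mod_cast h3
  have h2 : log (133 / 243) = log (133 / 81) - log 3 := by
    rw [← log_div (by norm_num) (by norm_num)]
    norm_num
  have h3 : binEntropy (81 / 133) = 81 / 133 * log (133 / 81) + 52 / 133 * log (133 / 52) := by
    rw [binEntropy]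
    norm_num
  rw [h3]
  linarith

theorem num_hi : binEntropy (67 / 110) < (67 / 110 : ℝ) * log 3 := by
  have h1 : 67 * log (110 / 201) + 43 * log (110 / 43) < 0 := by
    have h2 : ((110 / 201) ^ 67 * (110 / 43) ^ 43 : ℝ) < 1 := by norm_num
    have h3 := log_neg (by positivity) h2
    rw [log_mul (by positivity) (by positivity), log_pow, log_pow] at h3
    exact_mod_cast h3
  have h2 : log (110 / 201) = log (110 / 67) - log 3 := by
    rw [← log_div (by norm_num) (by norm_num)]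
    norm_num
  have h3 : binEntropy (67 / 110) = 67 / 110 * log (110 / 67) + 43 / 110 * log (110 / 43) := by
    rw [binEntropy]
    norm_num
  rw [h3]
  linarith

/-- the critical slope -/
theorem crit : ∃ pc : ℝ, 0.609 < pc ∧ pc < 0.6091 ∧ binEntropy pc = pc * log 3 ∧
    (∀ p : ℝ, 0 < p → p < pc → p * log 3 < binEntropy p) ∧
    (∀ p : ℝ, pc < p → p < 1 → binEntropy p < p * log 3) := by
  have hc : ContinuousOn (fun p : ℝ => binEntropy p - p * log 3) (Set.Icc (81 / 133) (67 / 110)) := by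
    apply Continuous.continuousOn
    fun_prop
  have h1 := intermediate_value_Icc' (show (81 / 133 : ℝ) ≤ 67 / 110 by norm_num) hc
  obtain ⟨pc, ⟨h2, h3⟩, h4⟩ := h1 (show (0 : ℝ) ∈ Set.Icc _ _ from
    ⟨by have := num_hi; linarith, by have := num_lo; linarith⟩)
  dsimp only at h4
  have h5 : binEntropy pc = pc * log 3 := by linarith
  have hpc0 : 0 < pc := lt_of_lt_of_le (by norm_num) h2
  have hpc1 : pc < 1 := lt_of_le_of_lt h3 (by norm_num)
  have h6 : binEntropy pc / pc = log 3 := by rw [h5]; field_simp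
  refine ⟨pc, lt_of_lt_of_le (by norm_num) h2, lt_of_le_of_lt h3 (by norm_num), h5, ?_, ?_⟩
  · intro p hp hpp
    have h7 := H_anti hp hpp hpc1
    rw [h6, lt_div_iff₀ hp] at h7
    linarith
  · intro p hpp hp1
    have h7 := H_anti hpc0 hpp hp1
    rw [h6, div_lt_iff₀ (hpc0.trans hpp)] at h7
    linarith

/-! ### the constant of the random walk model -/

/-- the Legendre transform -/
noncomputable def gg (a : ℝ) : ℝ := ⨆ θ : ℝ, (θ * a - log ((1 / 2) * ((2 : ℝ) ^ θ + (2 / 3 : ℝ) ^ θ)))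

theorem gg_val {p : ℝ} (hp : 0 < p) (hp1 : p < 1) (θ : ℝ) :
    θ * (log 2 - p * log 3) - log ((1 / 2) * ((2 : ℝ) ^ θ + (2 / 3 : ℝ) ^ θ)) =
    log 2 + p * (-(θ * log 3)) - log (1 + exp (-(θ * log 3))) := by
  have h1 : (2 : ℝ) ^ θ + (2 / 3 : ℝ) ^ θ = (2 : ℝ) ^ θ * (1 + exp (-(θ * log 3))) := by
    rw [div_rpow (by norm_num) (by norm_num), exp_neg, mul_comm θ, ← rpow_def_of_pos (by norm_num)]
    ring
  have h2 : 0 < (2 : ℝ) ^ θ := by positivity
  have h3 : 0 < 1 + exp (-(θ * log 3)) := by positivity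
  rw [h1, log_mul (by norm_num) (by positivity), log_mul h2.ne' h3.ne', log_rpow (by norm_num), one_div,
    log_inv]
  ring

theorem gibbs {p : ℝ} (hp : 0 < p) (hp1 : p < 1) (u : ℝ) : p * u - log (1 + exp u) ≤ -binEntropy p := by
  have hq : 0 < 1 - p := by linarith
  have hE : 0 < exp u := exp_pos u
  have hD : 0 < 1 + exp u := by positivity
  have h1 := log_le_sub_one_of_pos (show 0 < exp u / (p * (1 + exp u)) by positivity)
  have h2 := log_le_sub_one_of_pos (show 0 < 1 / ((1 - p) * (1 + exp u)) by positivity)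
  rw [log_div hE.ne' (by positivity), log_mul hp.ne' hD.ne', log_exp] at h1
  rw [log_div one_ne_zero (by positivity), log_mul hq.ne' hD.ne', log_one] at h2
  have h3 : p * (exp u / (p * (1 + exp u)) - 1) + (1 - p) * (1 / ((1 - p) * (1 + exp u)) - 1) = 0 := by
    field_simp
    ring
  have h4 := mul_le_mul_of_nonneg_left h1 hp.le
  have h5 := mul_le_mul_of_nonneg_left h2 hq.le
  have hHe : binEntropy p = -(p * log p) - (1 - p) * log (1 - p) := by
    rw [binEntropy, log_inv, log_inv]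
    ring
  rw [hHe]
  nlinarith

theorem gg_eq {p : ℝ} (hp : 0 < p) (hp1 : p < 1) : gg (log 2 - p * log 3) = log 2 - binEntropy p := by
  have hq : 0 < 1 - p := by linarith
  have hl3 : 0 < log 3 := log_pos (by norm_num)
  have hub : ∀ θ : ℝ, θ * (log 2 - p * log 3) - log ((1 / 2) * ((2 : ℝ) ^ θ + (2 / 3 : ℝ) ^ θ)) ≤
      log 2 - binEntropy p := by
    intro θ
    rw [gg_val hp hp1]
    have := gibbs hp hp1 (-(θ * log 3))
    linarith
  unfold gg
  apply le_antisymm (ciSup_le hub)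
  refine le_ciSup_of_le ⟨log 2 - binEntropy p, ?_⟩ (-(log (p / (1 - p)) / log 3)) ?_
  · rintro _ ⟨θ, rfl⟩
    exact hub θ
  · rw [gg_val hp hp1]
    have e1 : -(-(log (p / (1 - p)) / log 3) * log 3) = log (p / (1 - p)) := by field_simp
    have e2 : 1 + p / (1 - p) = (1 - p)⁻¹ := by field_simp; ring
    rw [e1, exp_log (by positivity), e2, log_inv, log_div hp.ne' hq.ne', binEntropy, log_inv, log_inv]
    apply le_of_eq
    ring

theorem gamma_crit {pc : ℝ} (h1 : 0.609 < pc) (h2 : pc < 0.6091) (h3 : binEntropy pc = pc * log 3)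
    (h4 : ∀ p : ℝ, 0 < p → p < pc → p * log 3 < binEntropy p)
    (h5 : ∀ p : ℝ, pc < p → p < 1 → binEntropy p < p * log 3) :
    ((1 / 2) * log (4 / 3))⁻¹ < 1 / (log 2 - pc * log 3) ∧
    ∀ γ : ℝ, ((1 / 2) * log (4 / 3))⁻¹ < γ → (γ * gg (1 / γ) = 1 ↔ γ = 1 / (log 2 - pc * log 3)) := by
  have hl3 : 0 < log 3 := log_pos (by norm_num)
  have hl2 : 0 < log 2 := log_pos (by norm_num)
  have hl43 : 0 < log (4 / 3) := log_pos (by norm_num)
  have h43 : log (4 / 3) = 2 * log 2 - log 3 := by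
    rw [log_div (by norm_num) (by norm_num), show (4 : ℝ) = 2 ^ 2 by norm_num, log_pow]
    norm_num
  have hnum : 0.6091 * log 3 < log 2 := by
    have a1 : (3 : ℝ) ^ 13 < 2 ^ 21 := by norm_num
    have a2 := log_lt_log (by positivity) a1
    rw [log_pow, log_pow] at a2
    push_cast at a2
    linarith
  have hpos : 0 < log 2 - pc * log 3 := by nlinarith
  constructor
  · rw [inv_eq_one_div]
    apply one_div_lt_one_div_of_lt hpos
    rw [h43]
    nlinarith
  · intro γ hγ
    have hγ0 : 0 < γ := lt_trans (by positivity) hγ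
    obtain ⟨a, ha⟩ : ∃ a, a = 1 / γ := ⟨_, rfl⟩
    have ha0 : 0 < a := by rw [ha]; positivity
    have ha1 : a < 1 / 2 * log (4 / 3) := by
      rw [ha, one_div]
      exact inv_lt_of_inv_lt₀ (by positivity) hγ
    obtain ⟨p, hp⟩ : ∃ p, p = (log 2 - a) / log 3 := ⟨_, rfl⟩
    have hpa : a = log 2 - p * log 3 := by rw [hp]; field_simp; ring
    have hp0 : 1 / 2 < p := by
      rw [hp, lt_div_iff₀ hl3]
      rw [h43] at ha1
      linarith
    have hp1 : p < 1 := by
      rw [hp, div_lt_one hl3]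
      have := log_lt_log (by norm_num) (show (2 : ℝ) < 3 by norm_num)
      linarith
    have hg : gg a = log 2 - binEntropy p := by rw [hpa]; exact gg_eq (by linarith) hp1
    have hγa : γ = 1 / a := by rw [ha, one_div_one_div]
    rw [← ha]
    have e1 : γ * gg a = 1 ↔ binEntropy p = p * log 3 := by
      rw [hg, hγa, one_div_mul_eq_div, div_eq_one_iff_eq ha0.ne', hpa]
      constructor <;> intro h <;> linarith
    have e2 : γ = 1 / (log 2 - pc * log 3) ↔ p = pc := by
      rw [hγa]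
      constructor
      · intro h
        have h6 : a = log 2 - pc * log 3 := by
          rw [one_div, one_div] at h
          exact inv_injective h
        have h7 : p * log 3 = pc * log 3 := by linarith
        exact mul_right_cancel₀ hl3.ne' h7
      · intro h
        rw [hpa, h]
    rw [e1, e2]
    constructor
    · intro h
      rcases lt_trichotomy p pc with h6 | h6 | h6
      · have := h4 p (by linarith) h6
        linarith
      · exact h6
      · have := h5 p h6 hp1
        linarith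
    · rintro rfl
      exact h3

end Pool.Agent.H623.WP
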