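import Pool.Agent.H623.WP.V

/-!
# Sets of few classes contain an exponentially small proportion of the iterates
-/

set_option autoImplicit false
set_option linter.unusedVariables false
set_option linter.unusedSectionVars false

namespace Pool.Agent.H623.WP

open Finset Filter Topology Real Pool.Agent.H320R2.PD Pool.Agent.H377R2.NK Pool.Agent.H623.TP
open Pool.Agent.H623.TS (T odds FT FWT_eq Per tri_sum)

/-- a lower bound for the binomial probabilities near the mode -/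
theorem bep_near {p η : ℝ} (hp0 : 0 < p) (hp1 : p < 1) {k i : ℕ} (hk : 1 ≤ k) (hi : 1 ≤ i) (hik : i < k)
    (hη : |(i : ℝ) - p * k| ≤ η * k) :
    exp (-((η / p + η / (1 - p)) * k)) / (4 * Real.sqrt k) ≤ bep p k i := by
  have hq0 : 0 < 1 - p := by linarith
  have hk0 : (0 : ℝ) < k := by exact_mod_cast hk
  have hikR : (i : ℝ) < k := by exact_mod_cast hik
  have hi0 : (0 : ℝ) < i := by exact_mod_cast hi
  have hmode := t_MODE k i hk hi hik
  obtain ⟨σ, hσ⟩ : ∃ σ, σ = (i : ℝ) / k := ⟨_, rfl⟩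
  rw [← hσ] at hmode
  have hσk : σ * k = i := by rw [hσ]; field_simp
  have hσ0 : 0 < σ := by rw [hσ]; positivity
  have hσ1 : 0 < 1 - σ := by
    have : σ < 1 := by rw [hσ, div_lt_one hk0]; exact hikR
    linarith
  obtain ⟨h1, h2⟩ := abs_le.1 hη
  have hη0 : 0 ≤ η := by
    by_contra hneg
    rw [not_le] at hneg
    have h3 := abs_nonneg ((i : ℝ) - p * k)
    nlinarith
  have h3 : σ - p ≤ η := by
    have : (σ - p) * k ≤ η * k := by rw [sub_mul, hσk]; exact h2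
    exact le_of_mul_le_mul_right this hk0
  have h4 : p - σ ≤ η := by
    have : (p - σ) * k ≤ η * k := by rw [sub_mul, hσk]; linarith
    exact le_of_mul_le_mul_right this hk0
  have h5 : σ ^ i ≤ exp (η / p * k) * p ^ i := by
    have a1 : σ / p ≤ exp (η / p) := by
      have a2 := add_one_le_exp (σ / p - 1)
      rw [sub_add_cancel] at a2
      refine a2.trans (exp_le_exp.2 ?_)
      rw [div_sub_one hp0.ne']
      exact div_le_div_of_nonneg_right h3 hp0.le
    have a3 := pow_le_pow_left₀ (by positivity) a1 i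
    rw [div_pow, div_le_iff₀ (by positivity), ← exp_nat_mul] at a3
    refine a3.trans (mul_le_mul_of_nonneg_right (exp_le_exp.2 ?_) (by positivity))
    rw [mul_comm]
    exact mul_le_mul_of_nonneg_left hikR.le (by positivity)
  have h6 : (1 - σ) ^ (k - i) ≤ exp (η / (1 - p) * k) * (1 - p) ^ (k - i) := by
    have a1 : (1 - σ) / (1 - p) ≤ exp (η / (1 - p)) := by
      have a2 := add_one_le_exp ((1 - σ) / (1 - p) - 1)
      rw [sub_add_cancel] at a2
      refine a2.trans (exp_le_exp.2 ?_)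
      rw [div_sub_one hq0.ne']
      exact div_le_div_of_nonneg_right (by linarith) hq0.le
    have a3 := pow_le_pow_left₀ (by positivity) a1 (k - i)
    rw [div_pow, div_le_iff₀ (by positivity), ← exp_nat_mul] at a3
    refine a3.trans (mul_le_mul_of_nonneg_right (exp_le_exp.2 ?_) (by positivity))
    rw [mul_comm]
    have : ((k - i : ℕ) : ℝ) ≤ k := by exact_mod_cast Nat.sub_le k i
    exact mul_le_mul_of_nonneg_left this (by positivity)
  have h7 : bep σ k i ≤ exp ((η / p + η / (1 - p)) * k) * bep p k i := by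
    unfold bep
    have b1 : (0 : ℝ) ≤ (k.choose i : ℝ) := Nat.cast_nonneg _
    have b2 := mul_le_mul h5 h6 (by positivity) (by positivity)
    have b3 := mul_le_mul_of_nonneg_left b2 b1
    have b4 : exp ((η / p + η / (1 - p)) * k) = exp (η / p * k) * exp (η / (1 - p) * k) := by
      rw [← exp_add]; congr 1; ring
    rw [b4]
    calc (k.choose i : ℝ) * σ ^ i * (1 - σ) ^ (k - i) = (k.choose i : ℝ) * (σ ^ i * (1 - σ) ^ (k - i)) := by ring
      _ ≤ (k.choose i : ℝ) * (exp (η / p * k) * p ^ i * (exp (η / (1 - p) * k) * (1 - p) ^ (k - i))) := b3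
      _ = _ := by ring
  have h8 := hmode.trans h7
  have h9 := mul_le_mul_of_nonneg_left h8 (exp_pos (-((η / p + η / (1 - p)) * k))).le
  rw [← mul_assoc, ← exp_add, neg_add_cancel, exp_zero, one_mul] at h9
  refine le_trans (le_of_eq ?_) h9
  ring

/-- **no small set of classes is charged** -/
theorem main_near (p : ℝ) [Tilt p] {δ : ℝ} (hδ : 0 < δ) : ∃ c η : ℝ, 0 < c ∧ 0 < η ∧ ∃ K : ℕ, ∀ k, K ≤ k →
    ∀ i : ℕ, |(i : ℝ) - p * k| ≤ η * k → ∀ S : Finset ℕ, ((S.card : ℝ) ≤ exp ((hs p - δ) * i)) →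
      ((((E0 k i).filter fun n => T^[k] n % 3 ^ i ∈ S).card : ℕ) : ℝ) ≤
        exp (-(c * k)) * (k.choose i : ℝ) := by
  classical
  have hp0 : 0 < p := Tilt.pos
  have hq0 : 0 < 1 - p := Tilt.lt
  have hl32 : log 3 ≤ 2 := by
    rw [log_le_iff_le_exp (by norm_num)]
    have := add_one_le_exp (2 : ℝ)
    linarith
  have hhs : hs p ≤ 2 := (min_le_left _ _).trans hl32
  obtain ⟨θ, hθ⟩ : ∃ θ, θ = min (δ / 4) (1 / 2) := ⟨_, rfl⟩
  have hθ0 : 0 < θ := by rw [hθ]; exact lt_min (by positivity) (by norm_num)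
  have hθ1 : θ ≤ δ / 4 := by rw [hθ]; exact min_le_left _ _
  have hθ2 : θ ≤ 1 / 2 := by rw [hθ]; exact min_le_right _ _
  obtain ⟨c₁, C₂, hc₁, hC₂, hUF⟩ := small_exp p (show 0 < δ / 2 by positivity)
  obtain ⟨C1, hC1⟩ : ∃ C1, C1 = 4 / Real.sqrt (p * (1 - p) * (θ * p / 4)) := ⟨_, rfl⟩
  obtain ⟨D1, hD1⟩ : ∃ D1, D1 = 1 / p + 1 / (1 - p) := ⟨_, rfl⟩
  have hD10 : 0 < D1 := by rw [hD1]; positivity
  obtain ⟨η, hη⟩ : ∃ η, η = min (min (p / 2) ((1 - p) / 2)) (c₁ * p / 16 / D1) := ⟨_, rfl⟩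
  have hη0 : 0 < η := by
    rw [hη]
    exact lt_min (lt_min (by positivity) (by positivity)) (by positivity)
  have hη1 : η ≤ p / 2 := by rw [hη]; exact (min_le_left _ _).trans (min_le_left _ _)
  have hη2 : η ≤ (1 - p) / 2 := by rw [hη]; exact (min_le_left _ _).trans (min_le_right _ _)
  have hη3 : η / p + η / (1 - p) ≤ c₁ * p / 16 := by
    have h1 : η ≤ c₁ * p / 16 / D1 := by rw [hη]; exact min_le_right _ _
    rw [le_div_iff₀ hD10] at h1
    have h2 : η / p + η / (1 - p) = η * D1 := by rw [hD1]; ring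
    linarith
  have hC10 : 0 < C1 := by
    rw [hC1]
    have : 0 < Real.sqrt (p * (1 - p) * (θ * p / 4)) := Real.sqrt_pos.2 (by positivity)
    positivity
  obtain ⟨K1, hK1⟩ := exists_nat_ge ((14 + 4 / θ) / p)
  obtain ⟨K2, hK2⟩ := exists_nat_ge (log (C₂ * C1) / (c₁ * p / 8))
  refine ⟨c₁ * p / 16, η, by positivity, hη0, K1 + K2 + 1, fun k hk i hi S hS => ?_⟩
  have hk1 : 1 ≤ k := by omega
  have hk0 : (0 : ℝ) < k := by exact_mod_cast (show 0 < k by omega)
  obtain ⟨hi1, hi2⟩ := abs_le.1 hi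
  have hpi : p * k / 2 ≤ i := by
    have := mul_le_mul_of_nonneg_right hη1 hk0.le
    linarith
  have hik : i < k := by
    have h1 := mul_le_mul_of_nonneg_right hη2 hk0.le
    have : (i : ℝ) < k := by nlinarith
    exact_mod_cast this
  have hkp : 14 + 4 / θ ≤ p * k := by
    have h1 : (K1 : ℝ) ≤ k := by exact_mod_cast (show K1 ≤ k by omega)
    have h2 := hK1.trans h1
    rw [div_le_iff₀ hp0] at h2
    linarith
  have hθpos : 0 < 2 / θ := by positivity
  have hθeq : 4 / θ = 2 * (2 / θ) := by ring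
  have hi3 : 6 + 2 / θ ≤ i := by linarith
  have hi0 : 1 ≤ i := by
    have : (1 : ℝ) ≤ i := by linarith
    exact_mod_cast this
  have hcent := bep_near hp0 (by linarith : p < 1) hk1 hi0 hik hi
  obtain ⟨l, hl⟩ : ∃ l, l = ⌊θ * (i : ℝ)⌋₊ := ⟨_, rfl⟩
  have hl1 : (l : ℝ) ≤ θ * i := by rw [hl]; exact Nat.floor_le (by positivity)
  have hl2 : θ * i < l + 1 := by rw [hl]; exact Nat.lt_floor_add_one _
  have hli : l ≤ i := by
    have : (l : ℝ) ≤ i := by nlinarith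
    exact_mod_cast this
  obtain ⟨m, hm⟩ : ∃ m, m + l = i := ⟨i - l, by omega⟩
  have hmR : (m : ℝ) + l = i := by exact_mod_cast hm
  have hmi : (i : ℝ) / 2 ≤ m := by nlinarith
  have hmk : p * k / 4 ≤ m := by linarith
  have hm1 : 1 ≤ m := by
    have h2 : (1 : ℝ) ≤ m := by linarith
    exact_mod_cast h2
  have hlbig : θ * p / 4 * k ≤ l := by
    have h1 : 2 ≤ θ * i := by
      have h2 : 2 / θ ≤ i := by linarith
      rw [div_le_iff₀ hθ0] at h2
      linarith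
    have h3 : p * k ≤ 2 * i := by linarith
    have h4 : θ * (p * k) ≤ θ * (2 * i) := mul_le_mul_of_nonneg_left h3 hθ0.le
    linarith
  -- the classes
  obtain ⟨A, hA, hA2⟩ : ∃ A, (∀ m : ℕ, ∀ 𝒜 : Finset ℕ, 𝒜 ⊆ range (3 ^ m) →
      ((𝒜.card : ℝ) ≤ exp ((hs p - δ / 2) * m)) → ∑ a ∈ 𝒜, nu p A m (a : ℤ) ≤ C₂ * exp (-(c₁ * m))) ∧
      k + 1 ≤ A := (hUF.and (UF_le (eventually_ge_atTop (k + 1)))).exists
  obtain ⟨𝒜, h𝒜⟩ : ∃ 𝒜 : Finset ℕ, 𝒜 = S.image (fun y => y % 3 ^ m) := ⟨_, rfl⟩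
  have hpow : 0 < 3 ^ m := by positivity
  have h𝒜1 : 𝒜 ⊆ range (3 ^ m) := by
    intro c hc
    rw [h𝒜, mem_image] at hc
    obtain ⟨a, _, rfl⟩ := hc
    exact mem_range.2 (Nat.mod_lt _ hpow)
  have h𝒜2 : ((𝒜.card : ℕ) : ℝ) ≤ exp ((hs p - δ / 2) * m) := by
    have h1 : 𝒜.card ≤ S.card := by rw [h𝒜]; exact card_image_le
    have h2 : ((𝒜.card : ℕ) : ℝ) ≤ S.card := by exact_mod_cast h1
    refine h2.trans (hS.trans (exp_le_exp.2 ?_))
    have h3 : (l : ℝ) ≤ δ / 4 * i := hl1.trans (mul_le_mul_of_nonneg_right hθ1 (by positivity))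
    have h4 : (0 : ℝ) ≤ l := Nat.cast_nonneg _
    have h5 : (hs p - δ / 2) * l ≤ 2 * l := mul_le_mul_of_nonneg_right (by linarith) h4
    have h6 : (m : ℝ) = i - l := by linarith
    rw [h6]
    nlinarith
  have hsmall := hA m 𝒜 h𝒜1 h𝒜2
  -- the counting
  have hcount : ((((E0 k i).filter fun n => T^[k] n % 3 ^ i ∈ S).card : ℕ) : ℝ) ≤ ∑ c ∈ 𝒜, Cn k i m (c : ℤ) := by
    unfold Cn cnt
    rw [sum_comm, card_filter]
    push_cast
    refine sum_le_sum fun n _ => ?_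
    split_ifs with h
    · have h1 : T^[k] n % 3 ^ m ∈ 𝒜 := by
        rw [h𝒜, mem_image]
        refine ⟨_, h, ?_⟩
        exact Nat.mod_mod_of_dvd _ (pow_dvd_pow 3 (by omega))
      refine le_trans ?_ (single_le_sum (f := fun c : ℕ => if (3 : ℤ) ^ m ∣ ((T^[k] n : ℕ) : ℤ) - (c : ℤ) then (1 : ℝ) else 0)
        (fun c _ => by split_ifs <;> norm_num) h1)
      rw [if_pos]
      have h2 := Nat.mod_add_div (T^[k] n) (3 ^ m)
      refine ⟨((T^[k] n / 3 ^ m : ℕ) : ℤ), ?_⟩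
      have h3 : ((T^[k] n : ℕ) : ℤ) = ((T^[k] n % 3 ^ m : ℕ) : ℤ) + 3 ^ m * ((T^[k] n / 3 ^ m : ℕ) : ℤ) := by
        exact_mod_cast h2.symm
      linarith
    · refine sum_nonneg fun c _ => ?_
      split_ifs <;> norm_num
  have hbepl : ∀ t ∈ range (k + 1), bep p (k - t) l ≤ 1 / Real.sqrt (p * (1 - p) * (θ * p / 4) * k) := by
    intro t _
    rcases Nat.lt_or_ge (k - t) l with h | h
    · rw [bep_big p h]
      positivity
    · refine (bep_le p (k - t) l).trans ?_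
      apply one_div_le_one_div_of_le (Real.sqrt_pos.2 (by positivity))
      apply Real.sqrt_le_sqrt
      have h1 : (l : ℝ) ≤ ((k - t : ℕ) : ℝ) := by exact_mod_cast h
      have h2 : θ * p / 4 * k ≤ ((k - t : ℕ) : ℝ) + 1 := by linarith
      calc p * (1 - p) * (θ * p / 4) * k = p * (1 - p) * (θ * p / 4 * k) := by ring
        _ ≤ p * (1 - p) * (((k - t : ℕ) : ℝ) + 1) := mul_le_mul_of_nonneg_left h2 (by positivity)
  have hnn : ∀ t (c : ℤ), 0 ≤ cnt (FT m t) (qp p) (fun w => (Wo w : ℤ)) m c := fun t c =>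
    ent_cnt_nonneg _ _ _ fun w _ => (qp_pos w).le
  have hsum : ∑ t ∈ range (k + 1), ∑ c ∈ 𝒜, cnt (FT m t) (qp p) (fun w => (Wo w : ℤ)) m (2 ^ t * (c : ℤ)) ≤
      C₂ * exp (-(c₁ * m)) := by
    refine le_trans ?_ hsmall
    rw [sum_comm]
    refine sum_le_sum fun c _ => ?_
    rw [nu_T]
    have h1 : ∀ t ∈ range (k + 1), cnt (FT m t) (qp p) (fun w => (Wo w : ℤ)) m (2 ^ t * (c : ℤ)) =
        cnt (FWT A m t) (qp p) (fun w => (Wo w : ℤ)) m (2 ^ t * (c : ℤ)) := by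
      intro t ht
      rw [mem_range] at ht
      rw [FWT_eq (show t ≤ A by omega)]
    rw [sum_congr rfl h1]
    refine sum_le_sum_of_subset_of_nonneg (range_subset_range.2 ?_) fun t _ _ =>
      ent_cnt_nonneg _ _ _ fun w _ => (qp_pos w).le
    have : A ≤ m * A := Nat.le_mul_of_pos_left _ hm1
    omega
  have hbpos : 0 < bep p k i := by
    refine lt_of_lt_of_le ?_ hcent
    have : 0 < Real.sqrt k := Real.sqrt_pos.2 hk0
    positivity
  set X : ℝ := ((((E0 k i).filter fun n => T^[k] n % 3 ^ i ∈ S).card : ℕ) : ℝ) with hX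
  have hX0 : 0 ≤ X := by positivity
  obtain ⟨c0, hc0⟩ : ∃ c0, c0 = Real.sqrt (p * (1 - p) * (θ * p / 4)) := ⟨_, rfl⟩
  have hc00 : 0 < c0 := by rw [hc0]; exact Real.sqrt_pos.2 (by positivity)
  have hsq : Real.sqrt (p * (1 - p) * (θ * p / 4) * k) = c0 * Real.sqrt k := by
    rw [hc0, Real.sqrt_mul (by positivity)]
  have hsk : 0 < Real.sqrt k := Real.sqrt_pos.2 hk0
  have hchoose : (0 : ℝ) < (k.choose i : ℝ) := by exact_mod_cast Nat.choose_pos hik.le
  have h1 : X * bep p k i ≤ (k.choose i : ℝ) * (1 / (c0 * Real.sqrt k) * (C₂ * exp (-(c₁ * m)))) := by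
    calc X * bep p k i ≤ (∑ c ∈ 𝒜, Cn k i m (c : ℤ)) * bep p k i := mul_le_mul_of_nonneg_right hcount hbpos.le
      _ = ∑ c ∈ 𝒜, (k.choose i : ℝ) * ∑ t ∈ range (k + 1),
          cnt (FT m t) (qp p) (fun w => (Wo w : ℤ)) m (2 ^ t * (c : ℤ)) * bep p (k - t) l := by
        rw [sum_mul]
        refine sum_congr rfl fun c _ => ?_
        have := Cn_tilt p (k := k) (m := m) (l := l) (by omega) (c : ℤ)
        rw [hm] at this
        exact this
      _ = (k.choose i : ℝ) * ∑ t ∈ range (k + 1), bep p (k - t) l *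
          ∑ c ∈ 𝒜, cnt (FT m t) (qp p) (fun w => (Wo w : ℤ)) m (2 ^ t * (c : ℤ)) := by
        rw [← mul_sum, sum_comm]
        congr 1
        refine sum_congr rfl fun t _ => ?_
        rw [mul_sum]
        exact sum_congr rfl fun c _ => mul_comm _ _
      _ ≤ (k.choose i : ℝ) * ∑ t ∈ range (k + 1), 1 / (c0 * Real.sqrt k) *
          ∑ c ∈ 𝒜, cnt (FT m t) (qp p) (fun w => (Wo w : ℤ)) m (2 ^ t * (c : ℤ)) := by
        refine mul_le_mul_of_nonneg_left (sum_le_sum fun t ht => ?_) hchoose.le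
        have := hbepl t ht
        rw [hsq] at this
        exact mul_le_mul_of_nonneg_right this (sum_nonneg fun c _ => hnn _ _)
      _ = (k.choose i : ℝ) * (1 / (c0 * Real.sqrt k) * ∑ t ∈ range (k + 1),
          ∑ c ∈ 𝒜, cnt (FT m t) (qp p) (fun w => (Wo w : ℤ)) m (2 ^ t * (c : ℤ))) := by rw [← mul_sum]
      _ ≤ _ := by
        refine mul_le_mul_of_nonneg_left (mul_le_mul_of_nonneg_left hsum (by positivity)) hchoose.le
  obtain ⟨κ, hκ⟩ : ∃ κ, κ = η / p + η / (1 - p) := ⟨_, rfl⟩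
  rw [← hκ] at hcent hη3
  have h2 : X * (exp (-(κ * k)) / (4 * Real.sqrt k)) ≤
      (k.choose i : ℝ) * (1 / (c0 * Real.sqrt k) * (C₂ * exp (-(c₁ * m)))) :=
    (mul_le_mul_of_nonneg_left hcent hX0).trans h1
  have h3 : (k.choose i : ℝ) * (1 / (c0 * Real.sqrt k) * (C₂ * exp (-(c₁ * m)))) =
      ((C₂ * C1 * exp (-(c₁ * m)) * exp (κ * k)) * (k.choose i : ℝ)) * (exp (-(κ * k)) / (4 * Real.sqrt k)) := by
    rw [hC1, ← hc0, exp_neg (κ * k)]
    field_simp
  rw [h3] at h2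
  have h4 : X ≤ (C₂ * C1 * exp (-(c₁ * m)) * exp (κ * k)) * (k.choose i : ℝ) :=
    le_of_mul_le_mul_right h2 (by positivity)
  refine h4.trans (mul_le_mul_of_nonneg_right ?_ hchoose.le)
  have h5 : C₂ * C1 = exp (log (C₂ * C1)) := (exp_log (by positivity)).symm
  have h9 : κ * k ≤ c₁ * p / 16 * k := mul_le_mul_of_nonneg_right hη3 hk0.le
  rw [h5, ← exp_add, ← exp_add]
  apply exp_le_exp.2
  have h6 : log (C₂ * C1) ≤ c₁ * p / 8 * k := by
    have h7 : (K2 : ℝ) ≤ k := by exact_mod_cast (show K2 ≤ k by omega)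
    have h8 := hK2.trans h7
    rw [div_le_iff₀ (by positivity)] at h8
    linarith
  have h7 : c₁ * (p * k / 4) ≤ c₁ * m := mul_le_mul_of_nonneg_left hmk hc₁.le
  linarith


theorem hs_cont {p : ℝ} (hp : 0 < p) : ContinuousAt hs p := by
  have h1 : ContinuousAt (fun p : ℝ => binEntropy p / p) p :=
    binEntropy_continuous.continuousAt.div continuousAt_id hp.ne'
  exact continuousAt_const.min h1

/-- the theorem, uniformly in the slopes -/
theorem main_unif {a b : ℝ} (ha : 0 < a) (hb : b < 1) {δ : ℝ} (hδ : 0 < δ) : ∃ c : ℝ, 0 < c ∧ ∃ K : ℕ, ∀ k, K ≤ k →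
    ∀ i : ℕ, a * k ≤ i → (i : ℝ) ≤ b * k → ∀ S : Finset ℕ, ((S.card : ℝ) ≤ exp ((hs ((i : ℝ) / k) - δ) * i)) →
      ((((E0 k i).filter fun n => T^[k] n % 3 ^ i ∈ S).card : ℕ) : ℝ) ≤ exp (-(c * k)) * (k.choose i : ℝ) := by
  classical
  have hex : ∀ p : ℝ, ∃ c η : ℝ, ∃ K : ℕ, 0 < η ∧ (p ∈ Set.Icc a b → 0 < c ∧ ∀ k, K ≤ k → 1 ≤ k →
      ∀ i : ℕ, |(i : ℝ) / k - p| < η → ∀ S : Finset ℕ, ((S.card : ℝ) ≤ exp ((hs ((i : ℝ) / k) - δ) * i)) →
      ((((E0 k i).filter fun n => T^[k] n % 3 ^ i ∈ S).card : ℕ) : ℝ) ≤ exp (-(c * k)) * (k.choose i : ℝ)) := by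
    intro p
    by_cases hp : p ∈ Set.Icc a b
    · have hp0 : 0 < p := lt_of_lt_of_le ha hp.1
      have hT : Tilt p := ⟨hp0, by linarith [hp.2]⟩
      obtain ⟨c, η, hc, hη, K, hK⟩ := main_near p (show 0 < δ / 2 by positivity)
      obtain ⟨η', hη', h1⟩ := Metric.continuousAt_iff.1 (hs_cont hp0) (δ / 2) (by positivity)
      refine ⟨c, min η η', K, lt_min hη hη', fun _ => ⟨hc, fun k hk hk1 i hi S hS => ?_⟩⟩
      have hk0 : (0 : ℝ) < k := by exact_mod_cast hk1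
      refine hK k hk i ?_ S (hS.trans (exp_le_exp.2 ?_))
      · have h2 : (i : ℝ) - p * k = ((i : ℝ) / k - p) * k := by field_simp
        rw [h2, abs_mul, abs_of_pos hk0]
        exact mul_le_mul_of_nonneg_right (hi.le.trans (min_le_left _ _)) hk0.le
      · have h2 : dist ((i : ℝ) / k) p < η' := by
          rw [Real.dist_eq]
          exact hi.trans_le (min_le_right _ _)
        have h3 := h1 h2
        rw [Real.dist_eq, abs_lt] at h3
        have h4 : (0 : ℝ) ≤ i := Nat.cast_nonneg _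
        nlinarith [h3.2]
    · exact ⟨1, 1, 0, one_pos, fun h => absurd h hp⟩
  choose c η K hη hcK using hex
  obtain ⟨t, ht, hcov⟩ := (isCompact_Icc (a := a) (b := b)).elim_nhds_subcover
    (fun p => Metric.ball p (η p)) (fun p _ => Metric.ball_mem_nhds p (hη p))
  have hcommon : ∀ t : Finset ℝ, (∀ x ∈ t, x ∈ Set.Icc a b) → ∃ c₀ : ℝ, 0 < c₀ ∧ ∃ K₀ : ℕ, ∀ x ∈ t,
      c₀ ≤ c x ∧ K x ≤ K₀ := by
    intro t
    induction t using Finset.induction_on with
    | empty => intro _; exact ⟨1, one_pos, 0, fun x hx => absurd hx (notMem_empty x)⟩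
    | insert y s _ ih =>
      intro h
      obtain ⟨c₀, h1, K₀, h2⟩ := ih fun x hx => h x (mem_insert_of_mem hx)
      refine ⟨min c₀ (c y), lt_min h1 (hcK y (h y (mem_insert_self _ _))).1, max K₀ (K y), fun x hx => ?_⟩
      rcases mem_insert.1 hx with h3 | h3
      · subst h3
        exact ⟨min_le_right _ _, le_max_right _ _⟩
      · exact ⟨(min_le_left _ _).trans (h2 x h3).1, (h2 x h3).2.trans (le_max_left _ _)⟩
  obtain ⟨c₀, hc₀, K₀, hall⟩ := hcommon t ht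
  refine ⟨c₀, hc₀, K₀ + 1, fun k hk i hi1 hi2 S hS => ?_⟩
  have hk1 : 1 ≤ k := by omega
  have hk0 : (0 : ℝ) < k := by exact_mod_cast hk1
  have hmem : (i : ℝ) / k ∈ Set.Icc a b := ⟨by rw [le_div_iff₀ hk0]; exact hi1, by rw [div_le_iff₀ hk0]; exact hi2⟩
  have h1 := hcov hmem
  simp only [Set.mem_iUnion] at h1
  obtain ⟨p, hp, hball⟩ := h1
  rw [Metric.mem_ball, Real.dist_eq] at hball
  have h2 := (hcK p (ht p hp)).2 k ((hall p hp).2.trans (by omega)) hk1 i hball S hS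
  refine h2.trans (mul_le_mul_of_nonneg_right (exp_le_exp.2 ?_) (Nat.cast_nonneg _))
  have := mul_le_mul_of_nonneg_right (hall p hp).1 hk0.le
  linarith

end Pool.Agent.H623.WP
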