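import Pool.Agent.H623.WP.N
import Pool.Graph.R_seed8.H828R3.Exc.Law

/-!
# The corollaries, uniformly in the slopes
-/

set_option autoImplicit false
set_option linter.unusedVariables false
set_option linter.unusedSectionVars false

namespace Pool.Agent.H623.WP

open Finset Filter Topology Real Pool.Agent.H623.TP
open Pool.Agent.H623.TS (T odds)

theorem TT_same : Pool.Agent.Helper894.Collatz.T = T := rfl

theorem ev_pw4 (A : ℝ) {κ : ℝ} (hκ : 0 < κ) : ∃ i₀ : ℕ, ∀ i : ℕ, i₀ ≤ i → A * (i : ℝ) ^ 4 ≤ exp (κ * i) := by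
  have h1 := (isLittleO_pow_exp_pos_mul_atTop (k := 4) hκ).def (c := 1 / (|A| + 1)) (by positivity)
  have h2 : ∀ᶠ i : ℕ in atTop, ‖((i : ℝ)) ^ 4‖ ≤ 1 / (|A| + 1) * ‖exp (κ * (i : ℝ))‖ :=
    tendsto_natCast_atTop_atTop.eventually h1
  obtain ⟨i₀, hi₀⟩ := eventually_atTop.1 h2
  refine ⟨i₀, fun i hi => ?_⟩
  have h3 := hi₀ i hi
  rw [norm_of_nonneg (by positivity), norm_of_nonneg (exp_pos _).le] at h3
  have h4 : A * (i : ℝ) ^ 4 ≤ (|A| + 1) * (i : ℝ) ^ 4 := by
    have := le_abs_self A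
    exact mul_le_mul_of_nonneg_right (by linarith) (by positivity)
  refine h4.trans ?_
  have h5 := mul_le_mul_of_nonneg_left h3 (show 0 ≤ |A| + 1 by positivity)
  refine h5.trans (le_of_eq ?_)
  field_simp

/-! ### binomial coefficients -/

theorem L_eq {σ : ℝ} (h0 : 0 < σ) (h1 : 0 < 1 - σ) {k i : ℕ} (hik : i ≤ k) (hσ : σ * k = i) :
    σ ^ i * (1 - σ) ^ (k - i) = exp (-(binEntropy σ / σ * i)) := by
  have hHe : binEntropy σ = -(σ * log σ) - (1 - σ) * log (1 - σ) := by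
    rw [binEntropy, log_inv, log_inv]
    ring
  have h2 : exp ((i : ℝ) * log σ + ((k - i : ℕ) : ℝ) * log (1 - σ)) = σ ^ i * (1 - σ) ^ (k - i) := by
    rw [exp_add, exp_nat_mul, exp_nat_mul, exp_log h0, exp_log h1]
  rw [← h2]
  congr 1
  rw [Nat.cast_sub hik, hHe, ← hσ]
  field_simp
  ring

theorem ch_up {k i : ℕ} (h0 : 1 ≤ i) (hik : i < k) : (k.choose i : ℝ) ≤
    exp (binEntropy ((i : ℝ) / k) / ((i : ℝ) / k) * i) := by
  have hk0 : (0 : ℝ) < k := by exact_mod_cast (show 0 < k by omega)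
  have hi0 : (0 : ℝ) < i := by exact_mod_cast h0
  have hikR : (i : ℝ) < k := by exact_mod_cast hik
  obtain ⟨σ, hσ⟩ : ∃ σ, σ = (i : ℝ) / k := ⟨_, rfl⟩
  rw [← hσ]
  have hσ0 : 0 < σ := by rw [hσ]; positivity
  have hσ1 : 0 < 1 - σ := by
    have : σ < 1 := by rw [hσ, div_lt_one hk0]; exact hikR
    linarith
  have hT : Tilt σ := ⟨hσ0, hσ1⟩
  have h1 : bep σ k i ≤ 1 := by
    have h2 := bep_total σ k
    rw [← h2]
    exact single_le_sum (f := fun i => bep σ k i) (fun j _ => bep_nonneg σ k j) (mem_range.2 (by omega))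
  unfold bep at h1
  rw [mul_assoc, L_eq hσ0 hσ1 hik.le (by rw [hσ]; field_simp)] at h1
  have h4 := mul_le_mul_of_nonneg_right h1 (exp_pos (binEntropy σ / σ * i)).le
  rw [mul_assoc, ← exp_add, neg_add_cancel, exp_zero, mul_one, one_mul] at h4
  exact h4

theorem ch_lo {k i : ℕ} (h0 : 1 ≤ i) (hik : i < k) : exp (binEntropy ((i : ℝ) / k) / ((i : ℝ) / k) * i) ≤
    4 * Real.sqrt k * (k.choose i : ℝ) := by
  have hk0 : (0 : ℝ) < k := by exact_mod_cast (show 0 < k by omega)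
  have hi0 : (0 : ℝ) < i := by exact_mod_cast h0
  have hikR : (i : ℝ) < k := by exact_mod_cast hik
  have hmode := t_MODE k i (by omega) h0 hik
  obtain ⟨σ, hσ⟩ : ∃ σ, σ = (i : ℝ) / k := ⟨_, rfl⟩
  rw [← hσ] at hmode ⊢
  have hσ0 : 0 < σ := by rw [hσ]; positivity
  have hσ1 : 0 < 1 - σ := by
    have : σ < 1 := by rw [hσ, div_lt_one hk0]; exact hikR
    linarith
  unfold bep at hmode
  rw [mul_assoc, L_eq hσ0 hσ1 hik.le (by rw [hσ]; field_simp)] at hmode
  have hsk : 0 < Real.sqrt k := Real.sqrt_pos.2 hk0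
  have h4 := mul_le_mul_of_nonneg_right hmode (exp_pos (binEntropy σ / σ * i)).le
  rw [mul_assoc, ← exp_add, neg_add_cancel, exp_zero, mul_one] at h4
  rw [one_div, inv_mul_le_iff₀ (by positivity)] at h4
  exact h4

/-! ### the classes -/

theorem cl_up {k i : ℕ} (h0 : 1 ≤ i) (hik : i < k) : ((cls k i).card : ℝ) ≤ exp (hs ((i : ℝ) / k) * i) := by
  have h2 : ((cls k i).card : ℝ) ≤ (k.choose i : ℝ) := by
    have : (cls k i).card ≤ k.choose i := by
      rw [← card_E0 hik.le]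
      exact card_image_le
    exact_mod_cast this
  have h3 : ((cls k i).card : ℝ) ≤ exp (log 3 * i) := by
    have : (cls k i).card ≤ 3 ^ i := by
      refine le_trans (card_le_card (t := range (3 ^ i)) ?_) (by rw [card_range])
      intro c hc
      obtain ⟨n, _, rfl⟩ := mem_image.1 hc
      exact mem_range.2 (Nat.mod_lt _ (by positivity))
    rw [mul_comm (log 3), exp_nat_mul, exp_log (by norm_num)]
    exact_mod_cast this
  have h4 := h2.trans (ch_up h0 hik)
  unfold hs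
  rcases min_choice (log 3) (binEntropy ((i : ℝ) / k) / ((i : ℝ) / k)) with h | h
  · rw [h]; exact h3
  · rw [h]; exact h4

theorem cl_lo {a b : ℝ} (ha : 0 < a) (hb : b < 1) {ε : ℝ} (hε : 0 < ε) : ∃ K : ℕ, ∀ k, K ≤ k →
    ∀ i : ℕ, a * k ≤ i → (i : ℝ) ≤ b * k → exp ((hs ((i : ℝ) / k) - ε) * i) ≤ ((cls k i).card : ℝ) := by
  obtain ⟨c, hc, K, hK⟩ := main_unif ha hb hε
  refine ⟨K + 1, fun k hk i hi1 hi2 => ?_⟩
  by_contra hcon
  rw [not_le] at hcon
  have hk0 : (0 : ℝ) < k := by exact_mod_cast (show 0 < k by omega)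
  have hik : i ≤ k := by
    have : (i : ℝ) ≤ k := by
      refine hi2.trans ?_
      have := mul_le_mul_of_nonneg_right hb.le hk0.le
      linarith
    exact_mod_cast this
  have h1 := hK k (by omega) i hi1 hi2 (cls k i) hcon.le
  have h2 : (E0 k i).filter (fun n => T^[k] n % 3 ^ i ∈ cls k i) = E0 k i := by
    apply filter_true_of_mem
    intro n hn
    exact mem_image_of_mem _ hn
  rw [h2, card_E0 hik] at h1
  have hch : (0 : ℝ) < (k.choose i : ℝ) := by exact_mod_cast Nat.choose_pos hik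
  have h3 : exp (-(c * k)) < 1 := by
    rw [exp_lt_one_iff]
    have : 0 < c * k := by positivity
    linarith
  nlinarith

/-- the number of the siblings of almost all starting points -/
theorem sib {a b : ℝ} (ha : 0 < a) (hb : b < 1) {ε : ℝ} (hε : 0 < ε) : ∃ c : ℝ, 0 < c ∧ ∃ K : ℕ, ∀ k, K ≤ k →
    ∀ i : ℕ, a * k ≤ i → (i : ℝ) ≤ b * k →
    (((E0 k i).filter fun n => ¬ |log (W k i (T^[k] n)) -
      (binEntropy ((i : ℝ) / k) / ((i : ℝ) / k) - hs ((i : ℝ) / k)) * i| ≤ ε * i).card : ℝ) ≤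
      exp (-(c * k)) * (k.choose i : ℝ) := by
  classical
  obtain ⟨c, hc, K1, hK1⟩ := main_unif ha hb hε
  obtain ⟨K2, hK2⟩ := ev_pw4 4 (show 0 < ε * a / 2 by positivity)
  obtain ⟨c', hc'⟩ : ∃ c', c' = min c (ε * a / 2) / 2 := ⟨_, rfl⟩
  have hc'0 : 0 < c' := by rw [hc']; exact half_pos (lt_min hc (by positivity))
  have hc'1 : 2 * c' ≤ c := by rw [hc']; have := min_le_left c (ε * a / 2); linarith
  have hc'2 : 2 * c' ≤ ε * a / 2 := by rw [hc']; have := min_le_right c (ε * a / 2); linarith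
  obtain ⟨K3, hK3⟩ := exists_nat_ge (1 / c')
  obtain ⟨K4, hK4⟩ := exists_nat_ge (1 / a)
  refine ⟨c', hc'0, K1 + K2 + K3 + K4 + 1, fun k hk i hi1 hi2 => ?_⟩
  have hk0 : (0 : ℝ) < k := by exact_mod_cast (show 0 < k by omega)
  have hk1 : (1 : ℝ) ≤ k := by exact_mod_cast (show 1 ≤ k by omega)
  have hik : i < k := by
    have : (i : ℝ) < k := by
      refine hi2.trans_lt ?_
      have := mul_lt_mul_of_pos_right hb hk0
      linarith
    exact_mod_cast this
  have hi0 : 1 ≤ i := by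
    have h1 : (K4 : ℝ) ≤ k := by exact_mod_cast (show K4 ≤ k by omega)
    have h2 := hK4.trans h1
    rw [div_le_iff₀ ha] at h2
    have : (1 : ℝ) ≤ i := by linarith
    exact_mod_cast this
  have h1 := hK1 k (by omega) i hi1 hi2
  have hpow := hK2 k (by omega)
  have hck : 1 ≤ c' * k := by
    have h1 : (K3 : ℝ) ≤ k := by exact_mod_cast (show K3 ≤ k by omega)
    have h2 := hK3.trans h1
    rw [div_le_iff₀ hc'0] at h2
    linarith
  have h5 := ch_up hi0 hik
  have h6 := ch_lo hi0 hik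
  have h3 := cl_up hi0 hik
  have hi0R : (0 : ℝ) ≤ i := Nat.cast_nonneg _
  obtain ⟨h, hh⟩ : ∃ h, h = binEntropy ((i : ℝ) / k) / ((i : ℝ) / k) := ⟨_, rfl⟩
  obtain ⟨s, hs'⟩ : ∃ s, s = hs ((i : ℝ) / k) := ⟨_, rfl⟩
  rw [← hh] at h5 h6 ⊢
  rw [← hs'] at h1 h3 ⊢
  have hcpos : (0 : ℝ) < (k.choose i : ℝ) := by exact_mod_cast Nat.choose_pos hik.le
  have hsumW := sum_W hik.le
  -- the classes with many elements
  obtain ⟨S1, hS1⟩ : ∃ S1, S1 = (range (3 ^ i)).filter fun a => exp ((h - s + ε) * i) < (W k i a : ℝ) := ⟨_, rfl⟩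
  have hS1card : ((S1.card : ℕ) : ℝ) ≤ exp ((s - ε) * i) := by
    have a1 : (S1.card : ℝ) * exp ((h - s + ε) * i) ≤ (k.choose i : ℝ) := by
      have b1 : ((∑ y ∈ range (3 ^ i), W k i y : ℕ) : ℝ) = (k.choose i : ℝ) := by rw [hsumW]
      rw [← b1]
      push_cast
      rw [← nsmul_eq_mul, ← sum_const]
      refine le_trans (sum_le_sum (s := S1) (f := fun _ => exp ((h - s + ε) * i)) (g := fun a => (W k i a : ℝ))
        fun a ha => ?_) ?_
      · rw [hS1, mem_filter] at ha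
        exact ha.2.le
      · rw [hS1]
        exact sum_le_sum_of_subset_of_nonneg (filter_subset _ _) fun a _ _ => Nat.cast_nonneg _
    have a2 : (S1.card : ℝ) ≤ exp (h * i) * exp (-((h - s + ε) * i)) := by
      have b1 := mul_le_mul_of_nonneg_right (a1.trans h5) (exp_pos (-((h - s + ε) * i))).le
      rw [mul_assoc, ← exp_add ((h - s + ε) * i), add_neg_cancel, exp_zero, mul_one] at b1
      exact b1
    refine a2.trans (le_of_eq ?_)
    rw [← exp_add]
    congr 1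
    ring
  have hm1 := h1 S1 hS1card
  -- the classes with few elements
  obtain ⟨S2, hS2⟩ : ∃ S2, S2 = (cls k i).filter fun a => (W k i a : ℝ) < exp ((h - s - ε) * i) := ⟨_, rfl⟩
  have hm2 : ((((E0 k i).filter fun n => T^[k] n % 3 ^ i ∈ S2).card : ℕ) : ℝ) ≤
      exp (-(ε * a / 2 * k)) * (k.choose i : ℝ) := by
    have a1 : ((E0 k i).filter fun n => T^[k] n % 3 ^ i ∈ S2).card = ∑ a ∈ S2, W k i a := by
      refine (card_eq_sum_card_fiberwise (f := fun n => T^[k] n % 3 ^ i) (t := S2)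
        (s := (E0 k i).filter fun n => T^[k] n % 3 ^ i ∈ S2)
        (fun n hn => (mem_filter.1 (mem_coe.1 hn)).2)).trans ?_
      refine sum_congr rfl fun a ha => ?_
      unfold W
      rw [filter_filter]
      congr 1
      apply filter_congr
      intro n _
      have ha' : a % 3 ^ i = a := by
        rw [hS2, mem_filter] at ha
        obtain ⟨n', _, rfl⟩ := mem_image.1 ha.1
        exact Nat.mod_mod _ _
      rw [ha']
      constructor
      · rintro ⟨_, h⟩; exact h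
      · intro h; exact ⟨by rw [h]; exact ha, h⟩
    rw [a1]
    push_cast
    have a2 : ∑ a ∈ S2, (W k i a : ℝ) ≤ (S2.card : ℝ) * exp ((h - s - ε) * i) := by
      rw [← nsmul_eq_mul, ← sum_const]
      refine sum_le_sum fun a ha => ?_
      rw [hS2, mem_filter] at ha
      exact ha.2.le
    have a3 : (S2.card : ℝ) ≤ exp (s * i) := by
      refine le_trans ?_ h3
      rw [hS2]
      exact_mod_cast card_filter_le _ _
    have a4 : exp (s * i) * exp ((h - s - ε) * i) = exp (-(ε * i)) * exp (h * i) := by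
      rw [← exp_add, ← exp_add]
      congr 1
      ring
    have a5 : 4 * Real.sqrt k ≤ exp (ε * a / 2 * k) := by
      refine le_trans ?_ hpow
      have b1 : Real.sqrt k ≤ (k : ℝ) ^ 4 := by
        have b2 : Real.sqrt k ≤ k := by
          rw [Real.sqrt_le_left hk0.le]
          have := mul_le_mul_of_nonneg_left hk1 hk0.le
          rw [sq]
          linarith
        have b3 : (k : ℝ) ^ 1 ≤ (k : ℝ) ^ 4 := pow_le_pow_right₀ hk1 (by norm_num)
        rw [pow_one] at b3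
        exact b2.trans b3
      linarith
    have a6 : exp (-(ε * i)) ≤ exp (-(ε * (a * k))) := by
      apply exp_le_exp.2
      have := mul_le_mul_of_nonneg_left hi1 hε.le
      linarith
    calc ∑ a ∈ S2, (W k i a : ℝ) ≤ (S2.card : ℝ) * exp ((h - s - ε) * i) := a2
      _ ≤ exp (s * i) * exp ((h - s - ε) * i) := mul_le_mul_of_nonneg_right a3 (exp_pos _).le
      _ = exp (-(ε * i)) * exp (h * i) := a4
      _ ≤ exp (-(ε * (a * k))) * (4 * Real.sqrt k * (k.choose i : ℝ)) :=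
        mul_le_mul a6 h6 (exp_pos _).le (exp_pos _).le
      _ ≤ exp (-(ε * (a * k))) * (exp (ε * a / 2 * k) * (k.choose i : ℝ)) :=
        mul_le_mul_of_nonneg_left (mul_le_mul_of_nonneg_right a5 hcpos.le) (exp_pos _).le
      _ = exp (-(ε * a / 2 * k)) * (k.choose i : ℝ) := by
        rw [← mul_assoc, ← exp_add]
        congr 2
        ring
  have hsub : ((E0 k i).filter fun n => ¬ |log (W k i (T^[k] n)) - (h - s) * i| ≤ ε * i) ⊆
      ((E0 k i).filter fun n => T^[k] n % 3 ^ i ∈ S1) ∪ ((E0 k i).filter fun n => T^[k] n % 3 ^ i ∈ S2) := by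
    intro n hn
    rw [mem_filter] at hn
    obtain ⟨hn1, hn2⟩ := hn
    rw [mem_union, mem_filter, mem_filter]
    by_contra hcon
    rw [not_or] at hcon
    obtain ⟨hc1, hc2⟩ := hcon
    apply hn2
    have hWpos : 0 < W k i (T^[k] n) := by
      unfold W
      exact card_pos.2 ⟨n, mem_filter.2 ⟨hn1, rfl⟩⟩
    have hWR : (0 : ℝ) < (W k i (T^[k] n) : ℝ) := by exact_mod_cast hWpos
    have b1 : (W k i (T^[k] n) : ℝ) ≤ exp ((h - s + ε) * i) := by
      by_contra hlt
      rw [not_le] at hlt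
      apply hc1
      refine ⟨hn1, ?_⟩
      rw [hS1, mem_filter, W_mod]
      exact ⟨mem_range.2 (Nat.mod_lt _ (by positivity)), hlt⟩
    have b2 : exp ((h - s - ε) * i) ≤ (W k i (T^[k] n) : ℝ) := by
      by_contra hlt
      rw [not_le] at hlt
      apply hc2
      refine ⟨hn1, ?_⟩
      rw [hS2, mem_filter, W_mod]
      exact ⟨mem_image_of_mem _ hn1, hlt⟩
    have b3 : log (W k i (T^[k] n)) ≤ (h - s + ε) * i := by
      rw [log_le_iff_le_exp hWR]
      exact b1
    have b4 : (h - s - ε) * i ≤ log (W k i (T^[k] n)) := by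
      rw [le_log_iff_exp_le hWR]
      exact b2
    rw [abs_le]
    constructor <;> linarith
  have hcard := (card_le_card hsub).trans (card_union_le _ _)
  have hcardR : ((((E0 k i).filter fun n => ¬ |log (W k i (T^[k] n)) - (h - s) * i| ≤ ε * i).card : ℕ) : ℝ) ≤
      ((((E0 k i).filter fun n => T^[k] n % 3 ^ i ∈ S1).card : ℕ) : ℝ) +
      ((((E0 k i).filter fun n => T^[k] n % 3 ^ i ∈ S2).card : ℕ) : ℝ) := by exact_mod_cast hcard
  have e1 : exp (-(c * k)) ≤ exp (-(2 * c' * k)) := by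
    apply exp_le_exp.2
    have := mul_le_mul_of_nonneg_right hc'1 hk0.le
    linarith
  have e2 : exp (-(ε * a / 2 * k)) ≤ exp (-(2 * c' * k)) := by
    apply exp_le_exp.2
    have := mul_le_mul_of_nonneg_right hc'2 hk0.le
    linarith
  have e3 : 2 * exp (-(2 * c' * k)) ≤ exp (-(c' * k)) := by
    have b1 : 2 ≤ exp (c' * k) := by
      have := add_one_le_exp (c' * k)
      linarith
    have b2 : exp (-(c' * k)) = exp (c' * k) * exp (-(2 * c' * k)) := by
      rw [← exp_add]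
      congr 1
      ring
    rw [b2]
    exact mul_le_mul_of_nonneg_right b1 (exp_pos _).le
  have e4 := mul_le_mul_of_nonneg_right e1 hcpos.le
  have e5 := mul_le_mul_of_nonneg_right e2 hcpos.le
  have e6 := mul_le_mul_of_nonneg_right e3 hcpos.le
  linarith

/-- the behaviour of the trajectory after the biased start -/
def Gd (ε : ℝ) (k i n : ℕ) : Prop := (2 : ℝ) ^ ((1 - ε) * k) ≤ (n : ℝ) ∧
  ∃ m : ℕ, ((T^[k + m] n : ℕ) : ℝ) ≤ (2 : ℝ) ^ (ε * k) ∧
    ∀ j ≤ m, |log (T^[k + j] n : ℕ) - (i * log 3 - j / 2 * log (4 / 3))| ≤ ε * k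

theorem desc {a b : ℝ} (ha : 0 < a) (hb : b < 1) (hpc : ∀ σ : ℝ, 0 < σ → σ ≤ b → hs σ = log 3)
    {ε : ℝ} (hε : 0 < ε) : ∃ c : ℝ, 0 < c ∧ ∃ K : ℕ, ∀ k, K ≤ k →
    ∀ i : ℕ, a * k ≤ i → (i : ℝ) ≤ b * k →
    (Set.ncard {n : ℕ | n ∈ E0 k i ∧ ¬ Gd ε k i n} : ℝ) ≤ exp (-(c * k)) * (k.choose i : ℝ) := by
  classical
  have hl2 := log_two_gt_d9
  have hl2' := log_two_lt_d9
  have hl3 : log 3 < 1.11 := by
    have a1 : (3 : ℝ) ^ 10 < 2 ^ 16 := by norm_num
    have a2 := log_lt_log (by positivity) a1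
    rw [log_pow, log_pow] at a2
    push_cast at a2
    linarith
  have hl3' : 1.03 < log 3 := by
    have a1 : (2 : ℝ) ^ 3 < 3 ^ 2 := by norm_num
    have a2 := log_lt_log (by positivity) a1
    rw [log_pow, log_pow] at a2
    push_cast at a2
    linarith
  have hl30 : 0 < log 3 := by linarith
  have hl20 : 0 < log 2 := by linarith
  obtain ⟨e, he⟩ : ∃ e, e = min ε 1 := ⟨_, rfl⟩
  have he0 : 0 < e := by rw [he]; exact lt_min hε one_pos
  have he1 : e ≤ ε := by rw [he]; exact min_le_left _ _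
  have he2 : e ≤ 1 := by rw [he]; exact min_le_right _ _
  obtain ⟨θ, hθ⟩ : ∃ θ, θ = e / 10 := ⟨_, rfl⟩
  have hθ0 : 0 < θ := by rw [hθ]; positivity
  have hθ1 : θ ≤ 1 / 10 := by rw [hθ]; linarith
  obtain ⟨c, C, hc, hC, hlaw⟩ := Pool.Agent.H828R3.Exc.law (show 0 < e / 4 by positivity)
  obtain ⟨κ, hκ⟩ : ∃ κ, κ = min (c * θ * log 3) (θ * log 3) / 2 := ⟨_, rfl⟩
  have hκ0 : 0 < κ := by rw [hκ]; exact half_pos (lt_min (by positivity) (by positivity))
  have hκ1 : 2 * κ ≤ c * θ * log 3 := by rw [hκ]; have := min_le_left (c * θ * log 3) (θ * log 3); linarith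
  have hκ2 : 2 * κ ≤ θ * log 3 := by rw [hκ]; have := min_le_right (c * θ * log 3) (θ * log 3); linarith
  have hκ3 : 2 * κ ≤ log 3 := by
    have := mul_le_mul_of_nonneg_right (show θ ≤ 1 by linarith) hl30.le
    linarith
  obtain ⟨c', hc', K1, hK1⟩ := main_unif ha hb hκ0
  obtain ⟨i₁, hi₁⟩ := ev_pw4 (C * 81 * 3 + 2) hκ0
  obtain ⟨K2, hK2⟩ := exists_nat_ge ((i₁ + 10) / a)
  obtain ⟨K3, hK3⟩ := exists_nat_ge (100 / e)
  refine ⟨c', hc', K1 + K2 + K3 + 1, fun k hk i hi1 hi2 => ?_⟩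
  have hk0 : (0 : ℝ) < k := by exact_mod_cast (show 0 < k by omega)
  have hke : 100 ≤ e * k := by
    have h1 : (K3 : ℝ) ≤ k := by exact_mod_cast (show K3 ≤ k by omega)
    have h2 := hK3.trans h1
    rw [div_le_iff₀ he0] at h2
    linarith
  have hii : (i₁ : ℝ) + 10 ≤ i := by
    have h1 : (K2 : ℝ) ≤ k := by exact_mod_cast (show K2 ≤ k by omega)
    have h2 := hK2.trans h1
    rw [div_le_iff₀ ha] at h2
    linarith
  have hi₁0 : (0 : ℝ) ≤ i₁ := Nat.cast_nonneg _
  have hmain := hK1 k (by omega) i hi1 hi2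
  have hik : (i : ℝ) ≤ k := by
    have := mul_le_mul_of_nonneg_right hb.le hk0.le
    linarith
  have hii1 : i₁ ≤ i := by
    have : (i₁ : ℝ) ≤ i := by linarith
    exact_mod_cast this
  have hi10 : (10 : ℝ) ≤ i := by linarith
  have hi0 : (0 : ℝ) ≤ i := by linarith
  have hσ : hs ((i : ℝ) / k) = log 3 := by
    apply hpc
    · exact div_pos (by linarith) hk0
    · rw [div_le_iff₀ hk0]
      exact hi2
  rw [hσ] at hmain
  have hpow := hi₁ i hii1
  -- the parameters
  obtain ⟨X, hX⟩ : ∃ X : ℝ, X = 2 * 3 ^ i := ⟨_, rfl⟩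
  obtain ⟨y, hy⟩ : ∃ y : ℝ, y = exp (θ * log 3 * i) := ⟨_, rfl⟩
  have hX0 : 0 < X := by rw [hX]; positivity
  have hX2 : 2 ≤ X := by
    rw [hX]
    have : (1 : ℝ) ≤ 3 ^ i := one_le_pow₀ (by norm_num)
    linarith
  have hy1 : 1 ≤ y := by rw [hy]; exact one_le_exp (by positivity)
  have hlogX : log X = log 2 + i * log 3 := by
    rw [hX, log_mul (by norm_num) (by positivity), log_pow]
  have hlogX0 : 0 ≤ log X := log_nonneg (by linarith)
  have hil3 : (i : ℝ) * log 3 ≤ i * 1.11 := mul_le_mul_of_nonneg_left hl3.le hi0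
  have hlogX1 : log X ≤ 3 * i := by rw [hlogX]; linarith
  have h3i : (3 : ℝ) ^ i = exp (log 3 * i) := by
    rw [mul_comm, exp_nat_mul, exp_log (by norm_num)]
  have hfin : {n : ℕ | 1 ≤ n ∧ (n : ℝ) ≤ X ∧ ¬ Pool.Agent.H828R3.Exc.Pr (e / 4) y (X ^ 2) n}.Finite := by
    apply (Set.finite_Icc 1 ⌊X⌋₊).subset
    rintro n ⟨h1, h2, -⟩
    exact ⟨h1, Nat.le_floor h2⟩
  have hXX : X ≤ X ^ 2 := by
    rw [sq]
    have := mul_le_mul_of_nonneg_left (show 1 ≤ X by linarith) hX0.le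
    linarith
  have hcard := hlaw X y (X ^ 2) hX2 hy1 hXX
  rw [Set.ncard_eq_toFinset_card _ hfin] at hcard
  obtain ⟨Z, hZ⟩ : ∃ Z, Z = hfin.toFinset := ⟨_, rfl⟩
  rw [← hZ] at hcard
  obtain ⟨R, hR⟩ : ∃ R : ℕ, R = ⌊exp ((1 - θ) * log 3 * i)⌋₊ + 1 := ⟨_, rfl⟩
  obtain ⟨S, hS⟩ : ∃ S : Finset ℕ, S = Z.image (fun n => n % 3 ^ i) ∪ range R := ⟨_, rfl⟩
  obtain ⟨Q, hQ⟩ : ∃ Q : ℝ, Q = exp ((log 3 - 2 * κ) * i) := ⟨_, rfl⟩
  have hQ1 : 1 ≤ Q := by rw [hQ]; exact one_le_exp (mul_nonneg (by linarith) hi0)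
  have hκ1i : 2 * κ * i ≤ c * θ * log 3 * i := mul_le_mul_of_nonneg_right hκ1 hi0
  have hκ2i : 2 * κ * i ≤ θ * log 3 * i := mul_le_mul_of_nonneg_right hκ2 hi0
  have hXy : X / y ^ c ≤ 2 * Q := by
    rw [hX, hy, hQ, ← exp_mul, h3i, mul_div_assoc, ← exp_sub]
    refine mul_le_mul_of_nonneg_left (exp_le_exp.2 ?_) (by norm_num)
    linarith
  have hXV : X ^ 2 / X ^ 2 = 1 := div_self (by positivity)
  have hScard : ((S.card : ℕ) : ℝ) ≤ exp ((log 3 - κ) * i) := by
    have a1 : S.card ≤ Z.card + R := by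
      rw [hS]
      refine (card_union_le _ _).trans (add_le_add card_image_le (by rw [card_range]))
    have a2 : ((S.card : ℕ) : ℝ) ≤ Z.card + R := by exact_mod_cast a1
    have a3 : (R : ℝ) ≤ 2 * Q := by
      rw [hR]
      push_cast
      have b1 : (⌊exp ((1 - θ) * log 3 * i)⌋₊ : ℝ) ≤ exp ((1 - θ) * log 3 * i) := Nat.floor_le (exp_pos _).le
      have b2 : exp ((1 - θ) * log 3 * i) ≤ Q := by
        rw [hQ]
        apply exp_le_exp.2
        linarith
      linarith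
    have a4 : C * log X ^ 4 * (X / y ^ c + X ^ 2 / X ^ 2) ≤ C * 81 * 3 * (i : ℝ) ^ 4 * Q := by
      rw [hXV]
      have b1 : log X ^ 4 ≤ (3 * (i : ℝ)) ^ 4 := pow_le_pow_left₀ hlogX0 hlogX1 4
      have b2 : X / y ^ c + 1 ≤ 3 * Q := by linarith
      calc C * log X ^ 4 * (X / y ^ c + 1) ≤ C * (3 * (i : ℝ)) ^ 4 * (3 * Q) := by
            refine mul_le_mul (mul_le_mul_of_nonneg_left b1 hC.le) b2 (by positivity) (by positivity)
        _ = _ := by ring
    have a5 : (1 : ℝ) ≤ (i : ℝ) ^ 4 := one_le_pow₀ (by linarith)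
    have a6 : ((S.card : ℕ) : ℝ) ≤ (C * 81 * 3 + 2) * (i : ℝ) ^ 4 * Q := by
      have h1 : 1 * Q ≤ (i : ℝ) ^ 4 * Q := mul_le_mul_of_nonneg_right a5 (by linarith)
      have := hcard.trans a4
      linarith
    refine a6.trans ((mul_le_mul_of_nonneg_right hpow (by linarith)).trans (le_of_eq ?_))
    rw [hQ, ← exp_add]
    congr 1
    ring
  have hfinal := hmain S hScard
  refine le_trans ?_ hfinal
  rw [← Set.ncard_coe_finset]
  have hsub : {n : ℕ | n ∈ E0 k i ∧ ¬ Gd ε k i n} ⊆ ↑((E0 k i).filter fun n => T^[k] n % 3 ^ i ∈ S) := by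
    rintro n ⟨hn, hng⟩
    rw [mem_coe, mem_filter]
    refine ⟨hn, ?_⟩
    by_contra hnS
    apply hng
    obtain ⟨N, hN⟩ : ∃ N, N = T^[k] n := ⟨_, rfl⟩
    rw [← hN, hS, mem_union, not_or, mem_range, not_lt] at hnS
    obtain ⟨hn1, hn2⟩ := hnS
    have hNR : R ≤ N := hn2.trans (Nat.mod_le _ _)
    have hNbig : exp ((1 - θ) * log 3 * i) < N := by
      have b1 : exp ((1 - θ) * log 3 * i) < (R : ℝ) := by
        rw [hR]
        push_cast
        exact Nat.lt_floor_add_one _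
      have b2 : (R : ℝ) ≤ N := by exact_mod_cast hNR
      linarith
    have hN0 : (0 : ℝ) < N := (exp_pos _).trans hNbig
    have hN1 : 1 ≤ N := by
      have : 0 < N := by exact_mod_cast hN0
      omega
    have hNX : (N : ℝ) ≤ X := by
      have b1 := T_E0_lt hn
      rw [← hN] at b1
      have b2 : 2 ^ i ≤ 3 ^ i := Nat.pow_le_pow_left (by norm_num) i
      have b3 : N ≤ 2 * 3 ^ i := by omega
      rw [hX]
      exact_mod_cast b3
    have hlogN1 : log N ≤ log 2 + i * log 3 := by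
      rw [← hlogX]
      exact log_le_log hN0 hNX
    have hlogN2 : (1 - θ) * log 3 * i ≤ log N := by
      rw [le_log_iff_exp_le hN0]
      exact hNbig.le
    have hPr : Pool.Agent.H828R3.Exc.Pr (e / 4) y (X ^ 2) N := by
      by_contra hcon
      apply hn1
      rw [mem_image]
      refine ⟨N, ?_, rfl⟩
      rw [hZ, Set.Finite.mem_toFinset]
      exact ⟨hN1, hNX, hcon⟩
    obtain ⟨m, hm1, hm2⟩ := hPr
    rw [TT_same] at hm1 hm2
    have hek0 : 0 ≤ e * k := by positivity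
    have hθk : θ * log 3 * i ≤ 0.12 * (e * k) := by
      have b1 : e * (i : ℝ) ≤ e * k := mul_le_mul_of_nonneg_left hik he0.le
      have b2 : e * (i * log 3) ≤ e * (i * 1.11) := mul_le_mul_of_nonneg_left hil3 he0.le
      rw [hθ]
      linarith
    have hek : e * k ≤ ε * k := mul_le_mul_of_nonneg_right he1 hk0.le
    have hεk0 : 0 ≤ ε * k := by positivity
    have hεl : (0.69 : ℝ) * (ε * k) ≤ log 2 * (ε * k) := mul_le_mul_of_nonneg_right (by linarith) hεk0
    refine ⟨?_, m, ?_, ?_⟩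
    · -- the size of `n`
      have b1 := T_iter_lt (mem_E0.1 hn).2
      rw [← hN] at b1
      have b2 : (2 : ℝ) ^ k * N + 2 ^ k ≤ 3 ^ i * n + 2 ^ k * 2 ^ i := by exact_mod_cast b1
      have b3 : (2 : ℝ) * 2 ^ i ≤ N := by
        refine le_trans ?_ hNbig.le
        rw [← exp_log (show (0 : ℝ) < 2 * 2 ^ i by positivity), log_mul (by norm_num) (by positivity), log_pow]
        apply exp_le_exp.2
        have c1 : (0.9 : ℝ) * 1.03 ≤ (1 - θ) * log 3 := mul_le_mul (by linarith) hl3'.le (by norm_num) (by linarith)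
        have c2 := mul_le_mul_of_nonneg_right c1 hi0
        have c3 : (i : ℝ) * log 2 ≤ i * 0.7 := mul_le_mul_of_nonneg_left (by linarith) hi0
        linarith
      have h2k : (0 : ℝ) < 2 ^ k := by positivity
      have b4 : (2 : ℝ) ^ k * N ≤ 2 * (3 ^ i * n) := by
        have : (2 : ℝ) ^ k * (2 * 2 ^ i) ≤ 2 ^ k * N := mul_le_mul_of_nonneg_left b3 h2k.le
        linarith
      have b5 : (2 : ℝ) ^ k = exp (log 2 * k) := by rw [mul_comm, exp_nat_mul, exp_log (by norm_num)]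
      have b6 : exp (log 2 * k) * exp ((1 - θ) * log 3 * i) ≤ 2 * (exp (log 3 * i) * n) := by
        rw [← b5, ← h3i]
        refine le_trans ?_ b4
        exact mul_le_mul_of_nonneg_left hNbig.le (by positivity)
      have b7 : (2 : ℝ) ^ ((1 - ε) * (k : ℝ)) = exp (log 2 * ((1 - ε) * k)) := rpow_def_of_pos (by norm_num) _
      rw [b7]
      have b8 : exp (log 2 * ((1 - ε) * k)) * (2 * exp (log 3 * i)) ≤ exp (log 2 * k) * exp ((1 - θ) * log 3 * i) := by
        have : (2 : ℝ) * exp (log 3 * i) = exp (log 2 + log 3 * i) := by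
          rw [exp_add, exp_log (by norm_num)]
        rw [this, ← exp_add, ← exp_add]
        apply exp_le_exp.2
        linarith
      have b9 : exp (log 2 * ((1 - ε) * k)) * (2 * exp (log 3 * i)) ≤ n * (2 * exp (log 3 * i)) := by linarith
      exact le_of_mul_le_mul_right b9 (by positivity)
    · rw [add_comm k m, Function.iterate_add_apply, ← hN]
      refine hm1.trans ?_
      rw [hy, rpow_def_of_pos (by norm_num)]
      apply exp_le_exp.2
      linarith
    · intro j hj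
      obtain ⟨h1, -⟩ := hm2 j hj
      rw [add_comm k j, Function.iterate_add_apply, ← hN]
      have hmu : Pool.Agent.H319R2.Lln.mu = log (4 / 3) / 2 := rfl
      rw [hmu] at h1
      have b1 : e / 4 * log N ≤ 0.4 * (e * k) := by
        have c1 : log N ≤ 0.7 + 1.11 * k := by linarith
        have c2 : e / 4 * log N ≤ e / 4 * (0.7 + 1.11 * k) := mul_le_mul_of_nonneg_left c1 (by positivity)
        linarith
      have b2 : |log N - i * log 3| ≤ 0.2 * (e * k) := by
        rw [abs_le]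
        constructor
        · linarith
        · linarith
      have b3 : log ((T^[j] N : ℕ) : ℝ) - (i * log 3 - j / 2 * log (4 / 3)) =
          (log ((T^[j] N : ℕ) : ℝ) - log N + log (4 / 3) / 2 * j) + (log N - i * log 3) := by ring
      rw [b3]
      refine (abs_add_le _ _).trans ?_
      linarith
  exact_mod_cast Set.ncard_le_ncard hsub (Finset.finite_toSet _)

end Pool.Agent.H623.WP
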