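import Pool.Agent.H623.WP.O

/-!
# Coalescence
-/

set_option autoImplicit false
set_option linter.unusedVariables false
set_option linter.unusedSectionVars false

namespace Pool.Agent.H623.WP

open Finset Filter Topology Real Pool.Agent.H623.TP
open Pool.Agent.H623.TS (T odds)

/-- the number of the starting points with the same `k`-th iterate -/
def Mt (k i n : ℕ) : ℕ := ((E0 k i).filter fun n' => T^[k] n' = T^[k] n).card

theorem Mt_le (k i n : ℕ) : Mt k i n ≤ W k i (T^[k] n) := by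
  unfold Mt W
  apply card_le_card
  intro n' hn'
  rw [mem_filter] at hn' ⊢
  exact ⟨hn'.1, by rw [hn'.2]⟩

theorem Mt_pos {k i n : ℕ} (h : n ∈ E0 k i) : 1 ≤ Mt k i n := by
  unfold Mt
  exact card_pos.2 ⟨n, mem_filter.2 ⟨h, rfl⟩⟩

theorem Mt_eq {k i n : ℕ} (h : n ∈ E0 k i) (h2 : 2 ^ i ≤ T^[k] n % 3 ^ i) : Mt k i n = W k i (T^[k] n) := by
  unfold Mt W
  congr 1
  apply filter_congr
  intro n' hn'
  constructor
  · intro h3; rw [h3]
  · intro h3
    have a1 := T_E0_lt h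
    have a2 := T_E0_lt hn'
    have b1 := Nat.mod_add_div (T^[k] n) (3 ^ i)
    have b2 := Nat.mod_add_div (T^[k] n') (3 ^ i)
    have key : ∀ x : ℕ, x < 3 ^ i + 2 ^ i → 2 ^ i ≤ x % 3 ^ i → x % 3 ^ i + 3 ^ i * (x / 3 ^ i) = x → x / 3 ^ i = 0 := by
      intro x hx hx2 hx3
      by_contra hne
      have h4 : 1 ≤ x / 3 ^ i := Nat.one_le_iff_ne_zero.2 hne
      have h5 : 3 ^ i * 1 ≤ 3 ^ i * (x / 3 ^ i) := Nat.mul_le_mul_left _ h4
      omega
    have c1 := key _ a1 h2 b1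
    have c2 := key _ a2 (by rw [h3]; exact h2) b2
    rw [c1, mul_zero, add_zero] at b1
    rw [c2, mul_zero, add_zero] at b2
    rw [← b2, h3, b1]

theorem mat {a b : ℝ} (ha : 0 < a) (hb : b < 1) {ε : ℝ} (hε : 0 < ε) : ∃ c : ℝ, 0 < c ∧ ∃ K : ℕ, ∀ k, K ≤ k →
    ∀ i : ℕ, a * k ≤ i → (i : ℝ) ≤ b * k →
    (((E0 k i).filter fun n => ¬ |log (Mt k i n) -
      (binEntropy ((i : ℝ) / k) / ((i : ℝ) / k) - hs ((i : ℝ) / k)) * i| ≤ ε * i).card : ℝ) ≤
      exp (-(c * k)) * (k.choose i : ℝ) := by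
  classical
  have hl23 : 0 < log 3 - log 2 := by
    have := log_lt_log (by norm_num) (show (2 : ℝ) < 3 by norm_num)
    linarith
  obtain ⟨c1, hc1, K1, hK1⟩ := sib ha hb hε
  obtain ⟨c2, hc2, K2, hK2⟩ := main_unif ha hb hl23
  obtain ⟨c', hc'⟩ : ∃ c', c' = min c1 c2 / 2 := ⟨_, rfl⟩
  have hc'0 : 0 < c' := by rw [hc']; exact half_pos (lt_min hc1 hc2)
  have hc'1 : 2 * c' ≤ c1 := by rw [hc']; have := min_le_left c1 c2; linarith
  have hc'2 : 2 * c' ≤ c2 := by rw [hc']; have := min_le_right c1 c2; linarith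
  obtain ⟨K3, hK3⟩ := exists_nat_ge (1 / c')
  refine ⟨c', hc'0, K1 + K2 + K3 + 1, fun k hk i hi1 hi2 => ?_⟩
  have hk0 : (0 : ℝ) < k := by exact_mod_cast (show 0 < k by omega)
  have hck : 1 ≤ c' * k := by
    have h1 : (K3 : ℝ) ≤ k := by exact_mod_cast (show K3 ≤ k by omega)
    have h2 := hK3.trans h1
    rw [div_le_iff₀ hc'0] at h2
    linarith
  have h1 := hK1 k (by omega) i hi1 hi2
  have h2 := hK2 k (by omega) i hi1 hi2
  have hi0 : (0 : ℝ) ≤ i := Nat.cast_nonneg _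
  obtain ⟨h, hh⟩ : ∃ h, h = binEntropy ((i : ℝ) / k) / ((i : ℝ) / k) := ⟨_, rfl⟩
  obtain ⟨s, hs'⟩ : ∃ s, s = hs ((i : ℝ) / k) := ⟨_, rfl⟩
  have hsm : s = min (log 3) h := by rw [hs', hh]; rfl
  rw [← hh, ← hs'] at h1 ⊢
  rw [← hs'] at h2
  have hcpos : (0 : ℝ) ≤ (k.choose i : ℝ) := Nat.cast_nonneg _
  have e1 : exp (-(c1 * k)) ≤ exp (-(2 * c' * k)) := by
    apply exp_le_exp.2
    have := mul_le_mul_of_nonneg_right hc'1 hk0.le
    linarith
  have e2 : exp (-(c2 * k)) ≤ exp (-(2 * c' * k)) := by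
    apply exp_le_exp.2
    have := mul_le_mul_of_nonneg_right hc'2 hk0.le
    linarith
  have e3 : 2 * exp (-(2 * c' * k)) ≤ exp (-(c' * k)) := by
    have b1 : 2 ≤ exp (c' * k) := by
      have := add_one_le_exp (c' * k)
      linarith
    have b2 : exp (-(c' * k)) = exp (c' * k) * exp (-(2 * c' * k)) := by
      rw [← exp_add]
      congr 1
      ring
    rw [b2]
    exact mul_le_mul_of_nonneg_right b1 (exp_pos _).le
  have e4 := mul_le_mul_of_nonneg_right e1 hcpos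
  have e5 := mul_le_mul_of_nonneg_right e2 hcpos
  have e6 := mul_le_mul_of_nonneg_right e3 hcpos
  rcases le_total (log 3) h with hcase | hcase
  · have hs3 : s = log 3 := by rw [hsm, min_eq_left hcase]
    have h3 := h2 (range (2 ^ i)) (by
      rw [card_range, hs3]
      push_cast
      rw [show log 3 - (log 3 - log 2) = log 2 by ring, mul_comm, exp_nat_mul, exp_log (by norm_num)])
    have hsub : ((E0 k i).filter fun n => ¬ |log (Mt k i n) - (h - s) * i| ≤ ε * i) ⊆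
        ((E0 k i).filter fun n => ¬ |log (W k i (T^[k] n)) - (h - s) * i| ≤ ε * i) ∪
        ((E0 k i).filter fun n => T^[k] n % 3 ^ i ∈ range (2 ^ i)) := by
      intro n hn
      rw [mem_filter] at hn
      rw [mem_union, mem_filter, mem_filter]
      by_cases h4 : 2 ^ i ≤ T^[k] n % 3 ^ i
      · left
        rw [Mt_eq hn.1 h4] at hn
        exact hn
      · right
        exact ⟨hn.1, mem_range.2 (by omega)⟩
    have hcard := (card_le_card hsub).trans (card_union_le _ _)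
    have hcardR : ((((E0 k i).filter fun n => ¬ |log (Mt k i n) - (h - s) * i| ≤ ε * i).card : ℕ) : ℝ) ≤
        ((((E0 k i).filter fun n => ¬ |log (W k i (T^[k] n)) - (h - s) * i| ≤ ε * i).card : ℕ) : ℝ) +
        ((((E0 k i).filter fun n => T^[k] n % 3 ^ i ∈ range (2 ^ i)).card : ℕ) : ℝ) := by exact_mod_cast hcard
    linarith
  · have hs3 : s = h := by rw [hsm, min_eq_right hcase]
    have hsub : ((E0 k i).filter fun n => ¬ |log (Mt k i n) - (h - s) * i| ≤ ε * i) ⊆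
        ((E0 k i).filter fun n => ¬ |log (W k i (T^[k] n)) - (h - s) * i| ≤ ε * i) := by
      intro n hn
      rw [mem_filter] at hn ⊢
      refine ⟨hn.1, fun h4 => hn.2 ?_⟩
      rw [hs3, sub_self, zero_mul, sub_zero] at h4 ⊢
      have h5 : (1 : ℝ) ≤ Mt k i n := by exact_mod_cast Mt_pos hn.1
      have h6 : (Mt k i n : ℝ) ≤ W k i (T^[k] n) := by exact_mod_cast Mt_le k i n
      have h7 : 0 ≤ log (Mt k i n) := log_nonneg h5
      have h8 : log (Mt k i n) ≤ log (W k i (T^[k] n)) := log_le_log (by linarith) h6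
      rw [abs_of_nonneg h7]
      rw [abs_of_nonneg (h7.trans h8)] at h4
      linarith
    have hcard := card_le_card hsub
    have hcardR : ((((E0 k i).filter fun n => ¬ |log (Mt k i n) - (h - s) * i| ≤ ε * i).card : ℕ) : ℝ) ≤
        ((((E0 k i).filter fun n => ¬ |log (W k i (T^[k] n)) - (h - s) * i| ≤ ε * i).card : ℕ) : ℝ) := by
      exact_mod_cast hcard
    have : 0 ≤ exp (-(2 * c' * k)) * (k.choose i : ℝ) := mul_nonneg (exp_pos _).le hcpos
    linarith

end Pool.Agent.H623.WP
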