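import Pool.Agent.H623.WP.G

/-!
# Submultiplicativity of the `L^q` norms
-/

set_option autoImplicit false
set_option linter.unusedVariables false
set_option linter.unusedSectionVars false

namespace Pool.Agent.H623.WP

open Finset Filter Topology Real Pool.Agent.H320R2.PD Pool.Agent.H377R2.NK Pool.Agent.H623.TP
open Pool.Agent.H623.TS (Per S S_per S_mono S_aff)

open scoped Classical in
/-- the mass of the class of `x` modulo `3 ^ m` for the quotient of offset and power of two of the words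
with `m` letters -/
noncomputable def nu (τ : ℝ) (A m : ℕ) (x : ℤ) : ℝ :=
  ∑ w ∈ FW A m, if (3 : ℤ) ^ m ∣ 2 ^ w.sum * x - (Wo w : ℤ) then qp τ w else 0

variable {τ : ℝ} [Tilt τ]

theorem nu_nonneg (A m : ℕ) (x : ℤ) : 0 ≤ nu τ A m x := by
  unfold nu
  refine sum_nonneg fun w _ => ?_
  split_ifs
  · exact (qp_pos w).le
  · exact le_rfl

theorem nu_per (A m : ℕ) : Per m (nu τ A m) := by
  classical
  intro x y
  unfold nu
  refine sum_congr rfl fun w _ => ?_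
  have e : (2 : ℤ) ^ w.sum * (x + 3 ^ m * y) - (Wo w : ℤ) = (2 ^ w.sum * x - (Wo w : ℤ)) + 3 ^ m * (2 ^ w.sum * y) := by
    ring
  have : ((3 : ℤ) ^ m ∣ 2 ^ w.sum * (x + 3 ^ m * y) - (Wo w : ℤ)) ↔ ((3 : ℤ) ^ m ∣ 2 ^ w.sum * x - (Wo w : ℤ)) := by
    rw [e]
    exact dvd_add_left (Dvd.intro _ rfl)
  simp only [this]

theorem nu_le (A m : ℕ) (x : ℤ) : nu τ A m x ≤ mas τ A m := by
  classical
  unfold nu mas
  refine sum_le_sum fun w _ => ?_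
  split_ifs
  · exact le_rfl
  · exact (qp_pos w).le

theorem nu_le_one (A m : ℕ) (x : ℤ) : nu τ A m x ≤ 1 := (nu_le A m x).trans (mas_le A m)

open scoped Classical in
theorem nu_add (A m b : ℕ) (x : ℤ) : nu τ A (m + b) x = ∑ u ∈ FW A m,
    if (3 : ℤ) ^ m ∣ 2 ^ u.sum * x - (Wo u : ℤ) then qp τ u * nu τ A b ((2 ^ u.sum * x - (Wo u : ℤ)) / 3 ^ m) else 0 := by
  unfold nu
  rw [sum_FW_add]
  refine sum_congr rfl fun u hu => ?_
  have hlen : u.length = m := (mem_FW.1 hu).1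
  have key : ∀ v : List ℕ, (2 : ℤ) ^ (u ++ v).sum * x - (Wo (u ++ v) : ℤ) =
      2 ^ v.sum * (2 ^ u.sum * x - (Wo u : ℤ)) - 3 ^ m * (Wo v : ℤ) := by
    intro v
    rw [Wo_append, hlen, List.sum_append, pow_add]
    push_cast
    ring
  have h3 : (3 : ℤ) ^ m ≠ 0 := by positivity
  by_cases h : (3 : ℤ) ^ m ∣ 2 ^ u.sum * x - (Wo u : ℤ)
  · rw [if_pos h, mul_sum]
    refine sum_congr rfl fun v _ => ?_
    obtain ⟨E, hE⟩ := h
    rw [key, hE, Int.mul_ediv_cancel_left _ h3]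
    have e : (2 : ℤ) ^ v.sum * (3 ^ m * E) - 3 ^ m * (Wo v : ℤ) = 3 ^ m * (2 ^ v.sum * E - (Wo v : ℤ)) := by ring
    have hiff : ((3 : ℤ) ^ (m + b) ∣ 2 ^ v.sum * (3 ^ m * E) - 3 ^ m * (Wo v : ℤ)) ↔
        ((3 : ℤ) ^ b ∣ 2 ^ v.sum * E - (Wo v : ℤ)) := by
      rw [e, pow_add]
      exact mul_dvd_mul_iff_left h3
    by_cases h2 : (3 : ℤ) ^ b ∣ 2 ^ v.sum * E - (Wo v : ℤ)
    · rw [if_pos (hiff.2 h2), if_pos h2, qp_append]
    · rw [if_neg (fun h' => h2 (hiff.1 h')), if_neg h2, mul_zero]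
  · rw [if_neg h]
    apply sum_eq_zero
    intro v _
    rw [if_neg]
    intro h2
    apply h
    rw [key] at h2
    have h4 : (3 : ℤ) ^ m ∣ 2 ^ v.sum * (2 ^ u.sum * x - (Wo u : ℤ)) - 3 ^ m * (Wo v : ℤ) :=
      (pow_dvd_pow 3 (by omega)).trans h2
    have h5 : (3 : ℤ) ^ m ∣ 2 ^ v.sum * (2 ^ u.sum * x - (Wo u : ℤ)) :=
      (dvd_sub_left (Dvd.intro _ rfl)).1 h4
    exact (two_pow_isCoprime v.sum m).dvd_of_dvd_mul_left h5

/-- the `L^q` norm, to the power `q = 1 + s` -/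
noncomputable def Ph (τ : ℝ) (A m : ℕ) (s : ℝ) : ℝ := S m (fun x => nu τ A m x ^ (1 + s))

theorem Ph_nonneg (A m : ℕ) (s : ℝ) : 0 ≤ Ph τ A m s := by
  unfold Ph S
  exact sum_nonneg fun x _ => rpow_nonneg (nu_nonneg _ _ _) _

theorem jensen {ι : Type*} (C : Finset ι) (w z : ι → ℝ) (hw : ∀ i ∈ C, 0 ≤ w i) (hz : ∀ i ∈ C, 0 ≤ z i)
    {s M : ℝ} (hs : 0 ≤ s) (hM : ∑ i ∈ C, w i = M) (hM0 : 0 < M) :
    (∑ i ∈ C, w i * z i) ^ (1 + s) ≤ M ^ s * ∑ i ∈ C, w i * z i ^ (1 + s) := by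
  have h1 := Real.rpow_arith_mean_le_arith_mean_rpow C (fun i => w i / M) z
    (fun i hi => div_nonneg (hw i hi) hM0.le) (by rw [← sum_div, hM, div_self hM0.ne']) hz
    (show 1 ≤ 1 + s by linarith)
  have e1 : ∑ i ∈ C, w i / M * z i = (∑ i ∈ C, w i * z i) / M := by
    rw [sum_div]
    exact sum_congr rfl fun i _ => by ring
  have e2 : ∑ i ∈ C, w i / M * z i ^ (1 + s) = (∑ i ∈ C, w i * z i ^ (1 + s)) / M := by
    rw [sum_div]
    exact sum_congr rfl fun i _ => by ring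
  rw [e1, e2, div_rpow (sum_nonneg fun i hi => mul_nonneg (hw i hi) (hz i hi)) hM0.le,
    div_le_div_iff₀ (by positivity) hM0] at h1
  have e3 : M ^ (1 + s) = M ^ s * M := by rw [add_comm, rpow_add hM0, rpow_one]
  rw [e3] at h1
  have h2 : (∑ i ∈ C, w i * z i) ^ (1 + s) * M ≤ (M ^ s * ∑ i ∈ C, w i * z i ^ (1 + s)) * M := by
    linarith
  exact le_of_mul_le_mul_right h2 hM0

theorem Ph_add (A m b : ℕ) {s : ℝ} (hs : 0 ≤ s) : Ph τ A (m + b) s ≤ Ph τ A m s * Ph τ A b s := by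
  classical
  unfold Ph
  rw [S, S, pow_add, U4_split, sum_mul]
  refine sum_le_sum fun a _ => ?_
  obtain ⟨C, hC⟩ : ∃ C, C = (FW A m).filter fun u => (3 : ℤ) ^ m ∣ 2 ^ u.sum * (a : ℤ) - (Wo u : ℤ) := ⟨_, rfl⟩
  have hM : ∑ u ∈ C, qp τ u = nu τ A m a := by
    rw [hC, sum_filter]
    rfl
  have hexp : ∀ j : ℕ, nu τ A (m + b) (((a + 3 ^ m * j : ℕ)) : ℤ) = ∑ u ∈ C, qp τ u *
      nu τ A b ((2 ^ u.sum * (a : ℤ) - (Wo u : ℤ)) / 3 ^ m + 2 ^ u.sum * j) := by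
    intro j
    rw [nu_add, hC, sum_filter]
    refine sum_congr rfl fun u _ => ?_
    push_cast
    have e : (2 : ℤ) ^ u.sum * ((a : ℤ) + 3 ^ m * j) - (Wo u : ℤ) =
        (2 ^ u.sum * (a : ℤ) - (Wo u : ℤ)) + 3 ^ m * (2 ^ u.sum * j) := by ring
    have hiff : ((3 : ℤ) ^ m ∣ 2 ^ u.sum * ((a : ℤ) + 3 ^ m * j) - (Wo u : ℤ)) ↔
        ((3 : ℤ) ^ m ∣ 2 ^ u.sum * (a : ℤ) - (Wo u : ℤ)) := by
      rw [e]
      exact dvd_add_left (Dvd.intro _ rfl)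
    by_cases h : (3 : ℤ) ^ m ∣ 2 ^ u.sum * (a : ℤ) - (Wo u : ℤ)
    · rw [if_pos (hiff.2 h), if_pos h, e, Int.add_mul_ediv_left _ _ (by positivity)]
    · rw [if_neg (fun h' => h (hiff.1 h')), if_neg h]
  rcases eq_or_lt_of_le (nu_nonneg (τ := τ) A m (a : ℤ)) with h0 | h0
  · have hC0 : C = ∅ := by
      by_contra hne
      obtain ⟨u, hu⟩ := Finset.nonempty_iff_ne_empty.2 hne
      have h1 : qp τ u ≤ ∑ u ∈ C, qp τ u := single_le_sum (fun v _ => (qp_pos v).le) hu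
      have h2 := qp_pos (τ := τ) u
      rw [hM, ← h0] at h1
      linarith
    have h1 : ∀ j ∈ range (3 ^ b), nu τ A (m + b) (((a + 3 ^ m * j : ℕ)) : ℤ) ^ (1 + s) = 0 := by
      intro j _
      rw [hexp, hC0, sum_empty, zero_rpow (by linarith)]
    rw [sum_eq_zero h1]
    exact mul_nonneg (rpow_nonneg (nu_nonneg _ _ _) _) (Ph_nonneg (τ := τ) A b s)
  · have h1 : ∀ j ∈ range (3 ^ b), nu τ A (m + b) (((a + 3 ^ m * j : ℕ)) : ℤ) ^ (1 + s) ≤
        nu τ A m a ^ s * ∑ u ∈ C, qp τ u *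
          nu τ A b ((2 ^ u.sum * (a : ℤ) - (Wo u : ℤ)) / 3 ^ m + 2 ^ u.sum * (j : ℕ)) ^ (1 + s) := by
      intro j _
      rw [hexp]
      exact jensen C (qp τ) _ (fun u _ => (qp_pos u).le) (fun u _ => nu_nonneg _ _ _) hs hM h0
    refine (sum_le_sum h1).trans ?_
    rw [← mul_sum, sum_comm]
    have h2 : ∀ u ∈ C, ∑ j ∈ range (3 ^ b), qp τ u *
        nu τ A b ((2 ^ u.sum * (a : ℤ) - (Wo u : ℤ)) / 3 ^ m + 2 ^ u.sum * (j : ℕ)) ^ (1 + s) =
        qp τ u * S b (fun x => nu τ A b x ^ (1 + s)) := by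
      intro u _
      rw [← mul_sum]
      congr 1
      have hper : Per b (fun x => nu τ A b x ^ (1 + s)) := by
        intro x y
        dsimp only
        rw [nu_per A b x y]
      exact S_aff hper u.sum ((2 ^ u.sum * (a : ℤ) - (Wo u : ℤ)) / 3 ^ m)
    rw [sum_congr rfl h2, ← sum_mul, hM, ← mul_assoc]
    refine le_of_eq ?_
    congr 1
    rw [add_comm, rpow_add h0, rpow_one]

/-- the total mass -/
theorem S_nu (A m : ℕ) : S m (nu τ A m) = mas τ A m := by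
  classical
  unfold S nu mas
  rw [sum_comm]
  refine sum_congr rfl fun w _ => ?_
  have hper : Per m (fun x : ℤ => if (3 : ℤ) ^ m ∣ (Wo w : ℤ) - x then qp τ w else 0) := by
    intro x y
    dsimp only
    have : ((3 : ℤ) ^ m ∣ (Wo w : ℤ) - (x + 3 ^ m * y)) ↔ ((3 : ℤ) ^ m ∣ (Wo w : ℤ) - x) := by
      have e : (Wo w : ℤ) - (x + 3 ^ m * y) = ((Wo w : ℤ) - x) - 3 ^ m * y := by ring
      rw [e]
      exact dvd_sub_left (Dvd.intro _ rfl)
    simp only [this]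
  have h1 := S_aff hper w.sum 0
  unfold S at h1
  have h2 := sum_indicator (3 ^ m) (by positivity) (Wo w : ℤ) (qp τ w)
  push_cast at h2
  rw [h2] at h1
  refine Eq.trans ?_ h1
  refine sum_congr rfl fun x _ => ?_
  have : ((3 : ℤ) ^ m ∣ 2 ^ w.sum * (x : ℤ) - (Wo w : ℤ)) ↔ ((3 : ℤ) ^ m ∣ (Wo w : ℤ) - (0 + 2 ^ w.sum * (x : ℤ))) := by
    rw [← dvd_neg]
    have e : -(2 ^ w.sum * (x : ℤ) - (Wo w : ℤ)) = (Wo w : ℤ) - (0 + 2 ^ w.sum * (x : ℤ)) := by ring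
    rw [e]
  simp only [this]

theorem Ph_le_one (A m : ℕ) {s : ℝ} (hs : 0 ≤ s) : Ph τ A m s ≤ 1 := by
  refine le_trans ?_ (mas_le (τ := τ) A m)
  rw [← S_nu]
  unfold Ph
  apply S_mono
  intro x
  rcases eq_or_lt_of_le (nu_nonneg (τ := τ) A m x) with h0 | h0
  · rw [← h0, zero_rpow (by linarith)]
  · calc nu τ A m x ^ (1 + s) ≤ nu τ A m x ^ (1 : ℝ) :=
        rpow_le_rpow_of_exponent_ge h0 (nu_le_one A m x) (by linarith)
      _ = _ := rpow_one _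

theorem Ph_mul (A b : ℕ) {s : ℝ} (hs : 0 ≤ s) (r t : ℕ) : Ph τ A (b * r + t) s ≤ Ph τ A b s ^ r := by
  induction r with
  | zero =>
    rw [mul_zero, zero_add, pow_zero]
    exact Ph_le_one A t hs
  | succ r ih =>
    have e : b * (r + 1) + t = (b * r + t) + b := by ring
    rw [e, pow_succ]
    refine (Ph_add A (b * r + t) b hs).trans ?_
    exact mul_le_mul_of_nonneg_right ih (Ph_nonneg _ _ _)

end Pool.Agent.H623.WP
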