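import Pool.Agent.H623.WP.U

/-!
# The `L^q` norms from the entropy; small sets have exponentially small mass
-/

set_option autoImplicit false
set_option linter.unusedVariables false
set_option linter.unusedSectionVars false

namespace Pool.Agent.H623.WP

open Finset Filter Topology Real Pool.Agent.H320R2.PD Pool.Agent.H377R2.NK Pool.Agent.H623.TP
open Pool.Agent.H623.TS (Per S S_per S_mono S_aff)

section
variable {τ : ℝ} [Tilt τ]

theorem nu_T (A m : ℕ) (x : ℤ) : nu τ A m x = ∑ T ∈ range (m * A + 1),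
    cnt (FWT A m T) (qp τ) (fun w => (Wo w : ℤ)) m (2 ^ T * x) := by
  classical
  unfold nu cnt
  rw [← Finset.sum_fiberwise_of_maps_to (s := FW A m) (t := range (m * A + 1)) (g := fun w : List ℕ => w.sum)
    (fun w hw => by
      rw [mem_range]
      have := (sum_le_of_mem hw).2
      omega)]
  refine sum_congr rfl fun T _ => ?_
  unfold FWT
  refine sum_congr rfl fun w hw => ?_
  rw [mem_filter] at hw
  rw [hw.2]
  have : ((3 : ℤ) ^ m ∣ 2 ^ T * x - (Wo w : ℤ)) ↔ ((3 : ℤ) ^ m ∣ (Wo w : ℤ) - 2 ^ T * x) := by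
    rw [← dvd_neg]
    have e : -(2 ^ T * x - (Wo w : ℤ)) = (Wo w : ℤ) - 2 ^ T * x := by ring
    rw [e]
  simp only [this]

/-- pointwise inequality behind the concavity of the entropy -/
theorem pt {z X zb M : ℝ} (hz : 0 ≤ z) (hzX : z ≤ X) (hzb : z ≤ zb) (hM : 0 < M) :
    negMulLog z + z * log X ≤ -(z * log zb) + z * log M + (zb * X / M - z) := by
  rcases eq_or_lt_of_le hz with h | h
  · rw [← h]
    have : 0 ≤ zb * X / M := by
      rw [← h] at hzX hzb
      positivity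
    simp
    exact this
  · have hX : 0 < X := lt_of_lt_of_le h hzX
    have hb : 0 < zb := lt_of_lt_of_le h hzb
    have h1 := log_le_sub_one_of_pos (show 0 < zb * X / (M * z) by positivity)
    rw [log_div (by positivity) (by positivity), log_mul hb.ne' hX.ne', log_mul hM.ne' h.ne'] at h1
    have h2 := mul_le_mul_of_nonneg_left h1 hz
    have h3 : z * (zb * X / (M * z) - 1) = zb * X / M - z := by field_simp
    rw [h3] at h2
    unfold negMulLog
    nlinarith

/-- the conditional entropy is at most the entropy -/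
theorem EE_le_nu (A m : ℕ) (hM : 0 < mas τ A m) : EE τ A m m ≤ S m (fun x => negMulLog (nu τ A m x)) := by
  classical
  obtain ⟨z, hz⟩ : ∃ z : ℕ → ℤ → ℝ, z = fun T x => cnt (FWT A m T) (qp τ) (fun w => (Wo w : ℤ)) m (2 ^ T * x) := ⟨_, rfl⟩
  obtain ⟨X, hX⟩ : ∃ X : ℕ → ℝ, X = fun T => ∑ w ∈ FWT A m T, qp τ w := ⟨_, rfl⟩
  have hzn : ∀ T x, 0 ≤ z T x := fun T x => by
    rw [hz]
    exact ent_cnt_nonneg _ _ _ fun w _ => (qp_pos w).le
  have hzX : ∀ T x, z T x ≤ X T := by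
    intro T x
    rw [hz, hX]
    dsimp only
    unfold cnt
    refine sum_le_sum fun w _ => ?_
    have := qp_pos (τ := τ) w
    split_ifs
    · exact le_rfl
    · exact this.le
  have hnu : ∀ x, nu τ A m x = ∑ T ∈ range (m * A + 1), z T x := by
    intro x
    rw [nu_T, hz]
  have hzb : ∀ T ∈ range (m * A + 1), ∀ x, z T x ≤ nu τ A m x := by
    intro T hT x
    rw [hnu]
    exact single_le_sum (f := fun T => z T x) (fun T _ => hzn T x) hT
  have hSz : ∀ T, S m (z T) = X T := by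
    intro T
    have hper : Per m (fun x => cnt (FWT A m T) (qp τ) (fun w => (Wo w : ℤ)) m x) := fun x y =>
      cnt_congr _ ⟨y, by ring⟩
    have h1 := S_aff hper T 0
    unfold S at h1 ⊢
    rw [hz, hX]
    dsimp only
    simp only [zero_add] at h1
    rw [h1, ent_cnt_sum]
  have hEn : EE τ A m m = ∑ T ∈ range (m * A + 1), (S m (fun x => negMulLog (z T x)) - negMulLog (X T)) := by
    unfold EE
    refine sum_congr rfl fun T _ => ?_
    unfold En
    have hper : Per m (fun x => negMulLog (cnt (FWT A m T) (qp τ) (fun w => (Wo w : ℤ)) m x)) := fun x y => by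
      dsimp only
      rw [cnt_congr m ⟨y, by ring⟩]
    have h1 := S_aff hper T 0
    unfold S at h1 ⊢
    rw [hz, hX]
    dsimp only
    simp only [zero_add] at h1
    rw [h1]
  have hXsum : ∑ T ∈ range (m * A + 1), X T = mas τ A m := by
    rw [hX]
    exact mas_T A m
  have hM1 : mas τ A m ≤ 1 := mas_le A m
  have hlogM : log (mas τ A m) ≤ 0 := log_nonpos hM.le hM1
  -- sum of the pointwise inequalities
  have h1 : ∀ T ∈ range (m * A + 1), S m (fun x => negMulLog (z T x)) - negMulLog (X T) ≤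
      S m (fun x => -(z T x * log (nu τ A m x)) + z T x * log (mas τ A m) +
        (nu τ A m x * X T / mas τ A m - z T x)) := by
    intro T hT
    have h2 : S m (fun x => negMulLog (z T x) + z T x * log (X T)) ≤
      S m (fun x => -(z T x * log (nu τ A m x)) + z T x * log (mas τ A m) +
        (nu τ A m x * X T / mas τ A m - z T x)) := by
      apply S_mono
      intro x
      exact pt (hzn T x) (hzX T x) (hzb T hT x) hM
    have h3 : S m (fun x => negMulLog (z T x) + z T x * log (X T)) =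
        S m (fun x => negMulLog (z T x)) - negMulLog (X T) := by
      have h4 := hSz T
      unfold S at h4 ⊢
      rw [sum_add_distrib, ← sum_mul, h4]
      unfold negMulLog
      ring
    rw [← h3]
    exact h2
  rw [hEn]
  refine (sum_le_sum h1).trans ?_
  have h5 : ∑ T ∈ range (m * A + 1), S m (fun x => -(z T x * log (nu τ A m x)) + z T x * log (mas τ A m) +
        (nu τ A m x * X T / mas τ A m - z T x)) =
      S m (fun x => negMulLog (nu τ A m x)) + mas τ A m * log (mas τ A m) := by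
    have hSn := S_nu (τ := τ) A m
    unfold S at hSn ⊢
    rw [sum_comm]
    have h6 : ∀ x ∈ range (3 ^ m), ∑ T ∈ range (m * A + 1), (-(z T (x : ℤ) * log (nu τ A m (x : ℤ))) +
        z T (x : ℤ) * log (mas τ A m) + (nu τ A m (x : ℤ) * X T / mas τ A m - z T (x : ℤ))) =
        negMulLog (nu τ A m (x : ℤ)) + nu τ A m (x : ℤ) * log (mas τ A m) := by
      intro x _
      rw [sum_add_distrib, sum_add_distrib, sum_sub_distrib, sum_neg_distrib, ← sum_mul, ← sum_mul,
        ← hnu, ← sum_div, ← mul_sum, hXsum, mul_div_assoc, div_self hM.ne', mul_one]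
      unfold negMulLog
      ring
    rw [sum_congr rfl h6, sum_add_distrib, ← sum_mul, hSn]
  rw [h5]
  nlinarith

/-- pointwise expansion -/
theorem pow_small {z s : ℝ} (hz : 0 ≤ z) (hz1 : z ≤ 1) (hs : 0 ≤ s) :
    z ^ (1 + s) ≤ z - s * negMulLog z + s ^ 2 := by
  rcases eq_or_lt_of_le hz with h | h
  · rw [← h, zero_rpow (by linarith)]
    simp
    positivity
  · obtain ⟨y, hy⟩ : ∃ y, y = -log z := ⟨_, rfl⟩
    have hy0 : 0 ≤ y := by rw [hy]; have := log_nonpos hz hz1; linarith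
    have hz2 : z = exp (-y) := by rw [hy, neg_neg, exp_log h]
    have h1 : z ^ (1 + s) = z * exp (-(s * y)) := by
      rw [rpow_add h, rpow_one]
      congr 1
      rw [rpow_def_of_pos h, hy]
      congr 1
      ring
    have h2 : exp (-(s * y)) ≤ 1 - s * y + (s * y) ^ 2 / 2 := by
      have hu : 0 ≤ s * y := mul_nonneg hs hy0
      have h3 := quadratic_le_exp_of_nonneg hu
      rw [exp_neg, inv_le_iff_one_le_mul₀ (exp_pos _)]
      have h4 : 0 ≤ 1 - s * y + (s * y) ^ 2 / 2 := by nlinarith [sq_nonneg (s * y - 1)]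
      calc (1 : ℝ) ≤ (1 - s * y + (s * y) ^ 2 / 2) * (1 + s * y + (s * y) ^ 2 / 2) := by
            nlinarith [sq_nonneg ((s * y) ^ 2)]
        _ ≤ (1 - s * y + (s * y) ^ 2 / 2) * exp (s * y) := mul_le_mul_of_nonneg_left h3 h4
    have h5 : z * y ^ 2 ≤ 2 := by
      have h3 := quadratic_le_exp_of_nonneg hy0
      have h4 : z * exp y = 1 := by rw [hz2, ← exp_add, neg_add_cancel, exp_zero]
      have h6 : z * (y ^ 2 / 2) ≤ z * exp y := mul_le_mul_of_nonneg_left (by linarith) hz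
      linarith
    rw [h1]
    have h6 := mul_le_mul_of_nonneg_left h2 hz
    have h7 : negMulLog z = z * y := by unfold negMulLog; rw [hy]; ring
    rw [h7]
    have h8 : s ^ 2 * (z * y ^ 2) ≤ s ^ 2 * 2 := mul_le_mul_of_nonneg_left h5 (sq_nonneg _)
    nlinarith

theorem Ph_small (A b : ℕ) {s : ℝ} (hs : 0 ≤ s) (hM : 0 < mas τ A b) :
    Ph τ A b s ≤ exp (-(s * EE τ A b b) + s ^ 2 * 3 ^ b) := by
  have h1 : Ph τ A b s ≤ S b (fun x => nu τ A b x - s * negMulLog (nu τ A b x) + s ^ 2) := by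
    unfold Ph
    apply S_mono
    intro x
    exact pow_small (nu_nonneg _ _ _) (nu_le_one _ _ _) hs
  have h2 : S b (fun x => nu τ A b x - s * negMulLog (nu τ A b x) + s ^ 2) =
      mas τ A b - s * S b (fun x => negMulLog (nu τ A b x)) + s ^ 2 * 3 ^ b := by
    have h3 := S_nu (τ := τ) A b
    unfold S at h3 ⊢
    rw [sum_add_distrib, sum_sub_distrib, h3, ← mul_sum, sum_const, card_range, nsmul_eq_mul]
    push_cast
    ring
  rw [h2] at h1
  have h4 := mul_le_mul_of_nonneg_left (EE_le_nu A b hM) hs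
  have h5 := mas_le (τ := τ) A b
  have h6 := add_one_le_exp (-(s * EE τ A b b) + s ^ 2 * 3 ^ b)
  linarith

theorem Ph_mono_pow (A b : ℕ) {s : ℝ} (hs : 0 ≤ s) {K : ℝ} (hK : 0 ≤ K) (hb : 1 ≤ b) (h : Ph τ A b s ≤ exp (-(K * b)))
    (m : ℕ) : Ph τ A m s ≤ exp (K * b) * exp (-(K * m)) := by
  have h1 := Ph_mul (τ := τ) A b hs (m / b) (m % b)
  rw [Nat.div_add_mod] at h1
  refine h1.trans ?_
  have h2 := pow_le_pow_left₀ (Ph_nonneg _ _ _) h (m / b)
  refine h2.trans ?_
  rw [← exp_nat_mul, ← exp_add]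
  apply exp_le_exp.2
  have h3 : (m : ℝ) = b * (m / b : ℕ) + (m % b : ℕ) := by exact_mod_cast (Nat.div_add_mod m b).symm
  have h4 : ((m % b : ℕ) : ℝ) ≤ b := by exact_mod_cast (Nat.mod_lt m (by omega)).le
  have h5 : K * ((m % b : ℕ) : ℝ) ≤ K * b := mul_le_mul_of_nonneg_left h4 hK
  rw [h3]
  linarith

/-- mass of a small set from the norm -/
theorem mass_small (A m : ℕ) {s t : ℝ} (hs : 0 ≤ s) (ht : 0 < t) (𝒜 : Finset ℕ) (h𝒜 : 𝒜 ⊆ range (3 ^ m)) :
    ∑ c ∈ 𝒜, nu τ A m (c : ℤ) ≤ (𝒜.card : ℝ) * t + t ^ (-s) * Ph τ A m s := by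
  have h1 : ∀ c : ℕ, nu τ A m (c : ℤ) ≤ t + t ^ (-s) * nu τ A m (c : ℤ) ^ (1 + s) := by
    intro c
    have hn := nu_nonneg (τ := τ) A m (c : ℤ)
    rcases le_or_gt (nu τ A m (c : ℤ)) t with h | h
    · have : 0 ≤ t ^ (-s) * nu τ A m (c : ℤ) ^ (1 + s) := mul_nonneg (rpow_nonneg ht.le _) (rpow_nonneg hn _)
      linarith
    · have h0 : 0 < nu τ A m (c : ℤ) := ht.trans h
      have h2 : t ^ s ≤ nu τ A m (c : ℤ) ^ s := rpow_le_rpow ht.le h.le hs
      have h3 : t ^ (-s) * nu τ A m (c : ℤ) ^ (1 + s) = nu τ A m (c : ℤ) * (nu τ A m (c : ℤ) ^ s / t ^ s) := by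
        rw [rpow_neg ht.le, rpow_add h0, rpow_one]
        ring
      rw [h3]
      have h4 : 1 ≤ nu τ A m (c : ℤ) ^ s / t ^ s := by
        rw [le_div_iff₀ (rpow_pos_of_pos ht _), one_mul]
        exact h2
      nlinarith
  refine (sum_le_sum fun c _ => h1 c).trans ?_
  rw [sum_add_distrib, sum_const, nsmul_eq_mul, ← mul_sum]
  have h2 : ∑ c ∈ 𝒜, nu τ A m (c : ℤ) ^ (1 + s) ≤ Ph τ A m s := by
    unfold Ph S
    exact sum_le_sum_of_subset_of_nonneg h𝒜 fun c _ _ => rpow_nonneg (nu_nonneg _ _ _) _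
  have := mul_le_mul_of_nonneg_left h2 (rpow_nonneg ht.le (-s))
  linarith

end

/-- **small sets have exponentially small mass** -/
theorem small_exp (p : ℝ) [Tilt p] {δ : ℝ} (hδ : 0 < δ) : ∃ c C : ℝ, 0 < c ∧ 0 < C ∧ ∀ᶠ A in UF, ∀ m : ℕ,
    ∀ 𝒜 : Finset ℕ, 𝒜 ⊆ range (3 ^ m) → ((𝒜.card : ℝ) ≤ exp ((hs p - δ) * m)) →
      ∑ a ∈ 𝒜, nu p A m (a : ℤ) ≤ C * exp (-(c * m)) := by
  have hp0 : 0 < p := Tilt.pos
  have hq0 : 0 < 1 - p := Tilt.lt
  have hl3 : 0 < log 3 := log_pos (by norm_num)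
  have hhs : 0 < hs p := lt_min hl3 (div_pos (binEntropy_pos hp0 (by linarith)) hp0)
  obtain ⟨G, E, hL⟩ := exists_Lim p
  obtain ⟨ε, hε⟩ : ∃ ε, ε = min (δ / 8) (hs p / 8) := ⟨_, rfl⟩
  have hε0 : 0 < ε := by rw [hε]; exact lt_min (by positivity) (by positivity)
  have hε1 : ε ≤ δ / 8 := by rw [hε]; exact min_le_left _ _
  have hε2 : ε ≤ hs p / 8 := by rw [hε]; exact min_le_right _ _
  obtain ⟨m₀, hm₀⟩ := main_ent hL hε0
  obtain ⟨b, hb⟩ : ∃ b, b = max m₀ 1 := ⟨_, rfl⟩
  have hb1 : 1 ≤ b := by rw [hb]; exact le_max_right _ _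
  have hEb := hm₀ b (by rw [hb]; exact le_max_left _ _)
  have hbR : (1 : ℝ) ≤ b := by exact_mod_cast hb1
  obtain ⟨s, hs'⟩ : ∃ s : ℝ, s = ε * b / 3 ^ b := ⟨_, rfl⟩
  have hs0 : 0 < s := by rw [hs']; positivity
  obtain ⟨K, hK⟩ : ∃ K, K = s * (hs p - 3 * ε) := ⟨_, rfl⟩
  have hK0 : 0 ≤ K := by rw [hK]; exact mul_nonneg hs0.le (by linarith)
  have hEE : ∀ᶠ A in UF, (hs p - 2 * ε) * b < EE p A b b := by
    refine (tendsto_order.1 (hL.e b b)).1 _ ?_
    have h1 : (hs p - ε) * b ≤ E b b := hEb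
    nlinarith
  have hmas : ∀ᶠ A in UF, 0 < mas p A b := (tendsto_order.1 (mas_lim hL b)).1 0 one_pos
  refine ⟨min (δ / 2) (s * (δ / 8)), 1 + exp (K * b), lt_min (by positivity) (by positivity), by positivity, ?_⟩
  filter_upwards [hEE, hmas] with A hA hA2 m 𝒜 h𝒜 hcard
  have h1 : Ph p A b s ≤ exp (-(K * b)) := by
    refine (Ph_small A b hs0.le hA2).trans (exp_le_exp.2 ?_)
    have h2 : s ^ 2 * 3 ^ b = s * (ε * b) := by
      have : s * 3 ^ b = ε * b := by rw [hs']; field_simp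
      rw [← this]
      ring
    have h3 := mul_le_mul_of_nonneg_left hA.le hs0.le
    rw [h2, hK]
    nlinarith
  have h2 := Ph_mono_pow A b hs0.le hK0 hb1 h1 m
  have h3 := mass_small (τ := p) A m hs0.le (exp_pos (-((hs p - δ / 2) * m))) 𝒜 h𝒜
  refine h3.trans ?_
  have hm0 : (0 : ℝ) ≤ m := Nat.cast_nonneg _
  have h4 : (𝒜.card : ℝ) * exp (-((hs p - δ / 2) * m)) ≤ exp (-(min (δ / 2) (s * (δ / 8)) * m)) := by
    refine (mul_le_mul_of_nonneg_right hcard (exp_pos _).le).trans ?_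
    rw [← exp_add]
    apply exp_le_exp.2
    have := mul_le_mul_of_nonneg_right (min_le_left (δ / 2) (s * (δ / 8))) hm0
    linarith
  have h5 : exp (-((hs p - δ / 2) * m)) ^ (-s) * Ph p A m s ≤
      exp (K * b) * exp (-(min (δ / 2) (s * (δ / 8)) * m)) := by
    rw [← exp_mul]
    refine (mul_le_mul_of_nonneg_left h2 (exp_pos _).le).trans ?_
    rw [← exp_add, ← exp_add, ← exp_add]
    apply exp_le_exp.2
    have h6 := mul_le_mul_of_nonneg_right (min_le_right (δ / 2) (s * (δ / 8))) hm0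
    have h7 : s * (3 * ε) * m ≤ s * (3 * (δ / 8)) * m :=
      mul_le_mul_of_nonneg_right (mul_le_mul_of_nonneg_left (by linarith) hs0.le) hm0
    rw [hK]
    nlinarith
  linarith

end Pool.Agent.H623.WP
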